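import Pool.Agent.MP_df844f_gt.Spec

/-! Subdivision of an arc. -/

namespace Pool.Agent.MP_df844f_gt

open PS

namespace SubA

variable {B : Type} [MulAction W B] (Y : PS B) (a0 : Y.A) (g1 g2 : W)

open Classical in
noncomputable def rv : Y.A ⊕ Bool → Y.A ⊕ Bool
  | .inl a => if a = a0 then .inr false else if a = Y.rev a0 then .inr true else .inl (Y.rev a)
  | .inr false => .inl a0
  | .inr true => .inl (Y.rev a0)

open Classical in
noncomputable def lb : Y.A ⊕ Bool → W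
  | .inl a => if a = a0 then g1 else if a = Y.rev a0 then g2⁻¹ else Y.lab a
  | .inr false => g1⁻¹
  | .inr true => g2

theorem rv_0 : rv Y a0 (.inl a0) = .inr false := by simp [rv]
theorem rv_1 : rv Y a0 (.inl (Y.rev a0)) = .inr true := by simp [rv, Y.rev_ne]
theorem lb_0 : lb Y a0 g1 g2 (.inl a0) = g1 := by simp [lb]
theorem lb_1 : lb Y a0 g1 g2 (.inl (Y.rev a0)) = g2⁻¹ := by simp [lb, Y.rev_ne]

variable {Y a0}

theorem rv_2 {a : Y.A} (h : a ≠ a0) (k : a ≠ Y.rev a0) : rv Y a0 (.inl a) = .inl (Y.rev a) := by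
  simp [rv, h, k]

theorem lb_2 {a : Y.A} (h : a ≠ a0) (k : a ≠ Y.rev a0) : lb Y a0 g1 g2 (.inl a) = Y.lab a := by
  simp [lb, h, k]

theorem ne_rev {a : Y.A} (h : a ≠ a0) (k : a ≠ Y.rev a0) :
    Y.rev a ≠ a0 ∧ Y.rev a ≠ Y.rev a0 :=
  ⟨fun e => k (by rw [← e, Y.rev_rev]), fun e => h (by rw [← Y.rev_rev a, e, Y.rev_rev])⟩

theorem tri (a : Y.A) (a0 : Y.A) : a = a0 ∨ a = Y.rev a0 ∨ (a ≠ a0 ∧ a ≠ Y.rev a0) := by tauto

variable {g1 g2}

/-- The prestate with the arc `a0` subdivided. -/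
noncomputable def sY (h : Y.lab a0 = g2 * g1) : PS B where
  Om := Option Y.Om
  A := Y.A ⊕ Bool
  f x := x.elim (g1 • Y.f (Y.src a0)) Y.f
  e s x y := ∃ x0 y0, x = some x0 ∧ y = some y0 ∧ Y.e s x0 y0
  e_symm := fun ⟨x, y, a, b, c⟩ => ⟨y, x, b, a, Y.e_symm c⟩
  e_f := by
    rintro s _ _ ⟨x, y, rfl, rfl, c⟩
    exact Y.e_f c
  rev := rv Y a0
  rev_rev := by
    rintro (a | _ | _)
    · rcases tri a a0 with rfl | rfl | ⟨c, k⟩
      · rw [rv_0]; rfl
      · rw [rv_1]; rfl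
      · rw [rv_2 c k, rv_2 (ne_rev c k).1 (ne_rev c k).2, Y.rev_rev]
    · exact rv_0 Y a0
    · exact rv_1 Y a0
  rev_ne := by
    rintro (a | _ | _)
    · rcases tri a a0 with rfl | rfl | ⟨c, k⟩
      · rw [rv_0]; simp
      · rw [rv_1]; simp
      · rw [rv_2 c k]; simpa using Y.rev_ne a
    · simp [rv]
    · simp [rv]
  src a := a.elim (fun a => some (Y.src a)) fun _ => none
  lab := lb Y a0 g1 g2
  lab_rev := by
    rintro (a | _ | _)
    · rcases tri a a0 with rfl | rfl | ⟨c, k⟩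
      · rw [rv_0, lb_0]; rfl
      · rw [rv_1, lb_1, inv_inv]; rfl
      · rw [rv_2 c k, lb_2 _ _ (ne_rev c k).1 (ne_rev c k).2, lb_2 _ _ c k, Y.lab_rev]
    · exact (lb_0 Y a0 g1 g2).trans (inv_inv g1).symm
    · exact lb_1 Y a0 g1 g2
  f_rev := by
    have k0 : Y.f (Y.src (Y.rev a0)) = g2 • g1 • Y.f (Y.src a0) := by rw [Y.f_rev, h, mul_smul]
    rintro (a | _ | _)
    · rcases tri a a0 with rfl | rfl | ⟨c, k⟩
      · rw [rv_0, lb_0]; rfl
      · rw [rv_1, lb_1]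
        exact (inv_smul_eq_iff.2 k0).symm
      · rw [rv_2 c k, lb_2 _ _ c k]
        exact Y.f_rev a
    · exact (inv_smul_smul g1 _).symm
    · exact k0

variable (h : Y.lab a0 = g2 * g1)

open Classical in
/-- The pull-back of cochains. -/
noncomputable def pl (E : Type) [MulAction W E] (c : (sY h).Coch E) : Y.Coch E
  | .edge s x y, ε => c (.edge s (some x) (some y)) ε
  | .dart a, ε => c (.dart (.inl a)) ε +
      if a = a0 then c (.dart (.inr true)) (g1 • ε)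
      else if a = Y.rev a0 then c (.dart (.inr false)) (g2⁻¹ • ε) else 0

section
variable {E : Type} [MulAction W E] (c : (sY h).Coch E) (ε : E)

theorem pl_0 : pl h E c (.dart a0) ε = c (.dart (.inl a0)) ε + c (.dart (.inr true)) (g1 • ε) := by
  simp [pl]

theorem pl_1 : pl h E c (.dart (Y.rev a0)) ε =
    c (.dart (.inl (Y.rev a0))) ε + c (.dart (.inr false)) (g2⁻¹ • ε) := by
  simp [pl, Y.rev_ne]

theorem pl_2 {a : Y.A} (k : a ≠ a0) (k' : a ≠ Y.rev a0) :
    pl h E c (.dart a) ε = c (.dart (.inl a)) ε := by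
  simp [pl, k, k']

variable {c}

theorem ds_0 (hc : Cocyc c) : c (.dart (.inr false)) ε = c (.dart (.inl a0)) (g1⁻¹ • ε) := by
  have := hc.dsym (.inr false) ε
  exact this.symm

theorem ds_1 (hc : Cocyc c) :
    c (.dart (.inl (Y.rev a0))) ε = c (.dart (.inr true)) (g2⁻¹ • ε) := by
  have := hc.dsym (.inr true) (g2⁻¹ • ε)
  rw [← this]
  exact congrArg _ (smul_inv_smul g2 ε).symm

theorem cocyc (hc : Cocyc c) : Cocyc (pl h E c) where
  symm s x y ε k := hc.symm s (some x) (some y) ε ⟨x, y, rfl, rfl, k⟩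
  dsym a ε := by
    rcases tri a a0 with rfl | rfl | ⟨k, k'⟩
    · rw [pl_0, pl_1, ds_0 h _ hc, ds_1 h _ hc, h, mul_smul, inv_smul_smul, inv_smul_smul, add_comm]
    · rw [Y.rev_rev, Y.lab_rev, pl_0, pl_1, ds_0 h _ hc, ds_1 h _ hc, h, mul_inv_rev, mul_smul,
        smul_inv_smul, add_comm]
    · rw [pl_2 h c _ k k', pl_2 h c _ (ne_rev k k').1 (ne_rev k k').2]
      have := hc.dsym (.inl a) ε
      rwa [show (sY h).rev (.inl a) = .inl (Y.rev a) from rv_2 k k',
        show (sY h).lab (.inl a) = Y.lab a from lb_2 _ _ k k'] at this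
  sq s t x0 x1 x2 x3 ε a b c' e f := hc.sq s t (some x0) (some x1) (some x2) (some x3) ε a
    ⟨_, _, rfl, rfl, b⟩ ⟨_, _, rfl, rfl, c'⟩ ⟨_, _, rfl, rfl, e⟩ ⟨_, _, rfl, rfl, f⟩

theorem cobd (hc : Cocyc c) (k : Cobd (pl h E c)) : Cobd c := by
  obtain ⟨φ, hφ⟩ := k
  have f1 : ∀ p q : F2, p = q + (p + q) := by decide
  have f2 : ∀ p q : F2, p = p + q + q := by decide
  have f3 : ∀ p q r t : F2, p + q = r + t → q = p + r + t := by decide
  have k1 : ∀ ε, c (.dart (.inr true)) ε = c (.dart (.inl a0)) (g1⁻¹ • ε) +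
      φ (Y.src a0) (g1⁻¹ • ε) + φ (Y.src (Y.rev a0)) (g2 • ε) := by
    intro ε
    have := hφ.da a0 (g1⁻¹ • ε)
    rw [pl_0, h, mul_smul, smul_inv_smul] at this
    exact f3 _ _ _ _ this
  refine ⟨fun x => x.elim (fun ε => c (.dart (.inl a0)) (g1⁻¹ • ε) + φ (Y.src a0) (g1⁻¹ • ε)) φ,
    ?_, ?_⟩
  · rintro s _ _ ε ⟨x, y, rfl, rfl, e⟩
    exact hφ.ed s x y ε e
  · rintro (a | _ | _) ε
    · rcases tri a a0 with rfl | rfl | ⟨k, k'⟩
      · rw [show (sY h).rev (.inl a) = .inr false from rv_0 Y a,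
          show (sY h).lab (.inl a) = g1 from lb_0 Y a g1 g2]
        show _ = φ (Y.src a) ε + (c (.dart (.inl a)) (g1⁻¹ • g1 • ε) + φ (Y.src a) (g1⁻¹ • g1 • ε))
        rw [inv_smul_smul]
        exact f1 _ _
      · rw [show (sY h).rev (.inl (Y.rev a0)) = .inr true from rv_1 Y a0,
          show (sY h).lab (.inl (Y.rev a0)) = g2⁻¹ from lb_1 Y a0 g1 g2, ds_1 h _ hc, k1,
          smul_inv_smul, add_comm]
        rfl
      · rw [show (sY h).rev (.inl a) = .inl (Y.rev a) from rv_2 k k',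
          show (sY h).lab (.inl a) = Y.lab a from lb_2 _ _ k k', ← pl_2 h c ε k k']
        exact hφ.da a ε
    · rw [ds_0 h _ hc]
      exact f2 _ _
    · exact k1 ε

end

theorem h0 {o : B} {x : Y.Om} (k : Y.H0 o x) : (sY h).H0 o (some x) := by
  refine ⟨k.1, fun T φ hφ => ?_⟩
  have k0 : ∀ w, φ none w = φ (some (Y.src a0)) (g1⁻¹ * w) := fun w => (hφ.da (.inr false) w).symm
  have k1 : ∀ w, φ (some (Y.src (Y.rev a0))) (Y.lab a0 * w) = φ (some (Y.src a0)) w := fun w => by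
    have := (hφ.da (.inr true) (g1 * w)).trans (k0 _)
    rw [inv_mul_cancel_left] at this
    rw [h, mul_assoc]
    exact this
  have k2 := k.2 T (fun x => φ (some x)) ⟨fun s x y w e => hφ.ed s _ _ w ⟨x, y, rfl, rfl, e⟩,
    fun a w => by
      rcases tri a a0 with rfl | rfl | ⟨q, q'⟩
      · exact k1 w
      · rw [Y.rev_rev, Y.lab_rev, ← k1, mul_inv_cancel_left]
      · have := hφ.da (.inl a) w
        rwa [show (sY h).rev (.inl a) = .inl (Y.rev a) from rv_2 q q',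
          show (sY h).lab (.inl a) = Y.lab a from lb_2 _ _ q q'] at this⟩
  rintro (_ | y) w hw
  · rw [k0]
    exact k2 _ _ (by rw [mul_smul, hw]; exact inv_smul_smul g1 _)
  · exact k2 y w hw

theorem btw_len {u v : W} (hl : len (v * u) = len u + len v) (w : W) : Btw w (u * w) (v * u * w) := by
  unfold Btw
  rw [d_mul_left, d_mul_left, mul_assoc, d_mul_left, hl]

theorem walk (sp1 : SP1S) (hl : len (g2 * g1) = len g1 + len g2) {P P' : W → W → Prop}
    (h1 : ∀ w p, P w p → P' w p)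
    (h2 : ∀ w p w' p' u q, P w p → P w' p' → Btw p q p' → P' u q) {n k : Y.Node} {l : ℕ}
    {ch : Y.Path} (t : Y.TW P n k l ch) :
    ∃ ch', (sY h).TW P' ⟨some n.x, n.w, n.p⟩ ⟨some k.x, k.w, k.p⟩ l ch' ∧ SameV (pl h) ch ch' := by
  induction t with
  | nil n a b => exact ⟨[], TW.nil _ a (h1 _ _ b), fun _ _ _ _ _ => rfl⟩
  | @edge n n' m _ _ s a b c e _ ih =>
    obtain ⟨ch', i1, i2⟩ := ih
    exact ⟨_, TW.edge (Y := sY h) (n := ⟨some n.x, n.w, n.p⟩) (n' := ⟨some n'.x, n'.w, n'.p⟩) s a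
      (h1 _ _ b) ⟨_, _, rfl, rfl, c⟩ e i1,
      fun E _ c' ε hc => by rw [ev_cons, ev_cons, i2 E c' ε hc]; rfl⟩
  | @stay n n' m _ _ a b c e _ ih =>
    obtain ⟨ch', i1, i2⟩ := ih
    exact ⟨_, TW.stay (Y := sY h) (n := ⟨some n.x, n.w, n.p⟩) (n' := ⟨some n'.x, n'.w, n'.p⟩) a
      (h1 _ _ b) (congrArg some c) e i1, i2⟩
  | @dart n n' m l ch a ca b c e f t ih =>
    obtain ⟨ch', i1, i2⟩ := ih
    have two : ∀ b1 b2 : (sY h).A, (sY h).src b1 = some (Y.src a) →
        (sY h).src ((sY h).rev b1) = none → (sY h).src b2 = none →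
        (sY h).src ((sY h).rev b2) = some (Y.src (Y.rev a)) →
        Y.lab a = (sY h).lab b2 * (sY h).lab b1 →
        len ((sY h).lab b2 * (sY h).lab b1) = len ((sY h).lab b1) + len ((sY h).lab b2) →
        (∀ (E : Type) [MulAction W E] (c : (sY h).Coch E) (ε : E), pl h E c (.dart a) ε =
          c (.dart b1) ε + c (.dart b2) ((sY h).lab b1 • ε)) →
        ∃ ch', (sY h).TW P' ⟨some n.x, n.w, n.p⟩ ⟨some m.x, m.w, m.p⟩ (d n.p n'.p + l) ch' ∧
          SameV (pl h) ((.dart a, n.w) :: ch) ch' := by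
      intro b1 b2 q1 q2 q3 q4 q5 q6 q7
      obtain ⟨q, hq⟩ := exists_med n.p n'.p ((sY h).lab b1 * n.w)
      have hb := btw_len q6 n.w
      rw [← q5, ← f] at hb
      have s1 := TW.dart (n := ⟨none, (sY h).lab b1 * n.w, q⟩) b2
        (sp1 _ _ _ _ _ _ hb ca t.first.1 hq) (h2 _ _ _ _ _ _ b t.first.2 hq.btw12) q3.symm
        (by rw [q4, e]) (by rw [← mul_assoc, ← q5]; exact f) i1
      have s2 := TW.dart (n := ⟨some n.x, n.w, n.p⟩) b1 ca (h1 _ _ b) (by rw [q1, c]) q2.symm rfl s1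
      refine ⟨_, s2.cast ?_, fun E _ c' ε hc => ?_⟩
      · have := hq.btw12
        unfold Btw at this
        simp only
        omega
      · rw [ev_cons, ev_cons, ev_cons, i2 E c' ε hc, q7, mul_smul, add_assoc]
    rcases tri a a0 with rfl | rfl | ⟨q, q'⟩
    · have e1 : (sY h).lab (.inl a) = g1 := lb_0 Y a g1 g2
      exact two (.inl a) (.inr true) rfl (congrArg (sY h).src (rv_0 Y a)) rfl rfl
        (by rw [e1]; exact h) (by rw [e1]; exact hl) fun E _ c ε => by rw [e1]; exact pl_0 h c ε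
    · have e1 : (sY h).lab (.inl (Y.rev a0)) = g2⁻¹ := lb_1 Y a0 g1 g2
      have e2 : (sY h).lab (.inr false) = g1⁻¹ := rfl
      exact two (.inl (Y.rev a0)) (.inr false) rfl (congrArg (sY h).src (rv_1 Y a0)) rfl
        (by rw [Y.rev_rev]; rfl) (by rw [e1, e2, Y.lab_rev, h, mul_inv_rev])
        (by rw [e1, e2, ← mul_inv_rev, len_inv, len_inv, len_inv, hl, add_comm])
        fun E _ c ε => by rw [e1]; exact pl_1 h c ε
    · exact ⟨_, TW.dart (Y := sY h) (n := ⟨some n.x, n.w, n.p⟩) (n' := ⟨some n'.x, n'.w, n'.p⟩)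
        (.inl a) ca (h1 _ _ b) (congrArg some c)
        ((congrArg some e).trans (congrArg (sY h).src (rv_2 q q')).symm)
        (by rw [show (sY h).lab (.inl a) = Y.lab a from lb_2 _ _ q q']; exact f) i1,
        fun E _ c' ε hc => by rw [ev_cons, ev_cons, i2 E c' ε hc, pl_2 h c' _ q q']⟩

/-- The subdivision as a move. -/
noncomputable def mv (sp1 : SP1S) (hl : len (g2 * g1) = len g1 + len g2) (o : B) :
    Move o Y (sY h) where
  K x x' := x' = some x
  pull := pl h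
  K_f := by rintro x _ rfl; rfl
  cocyc _ _ _ hc := cocyc h hc
  refl _ _ _ hc k := cobd h hc k
  trans := by
    rintro n m _ _ l ch rfl rfl t
    obtain ⟨ch', a, b⟩ := walk h sp1 hl (P' := tt) (fun _ _ _ => trivial)
      (fun _ _ _ _ _ _ _ _ _ => trivial) t
    exact ⟨l, ch', le_rfl, a, b⟩
  h0 := by rintro x _ rfl k; exact h0 h k

theorem area_le : (sY h).area ≤ Y.area + 12 := by
  have k : {p : (sY h).Om × S | (sY h).Free p.1 p.2} ⊆
      (fun p : Y.Om × S => (some p.1, p.2)) '' {p : Y.Om × S | Y.Free p.1 p.2} ∪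
        (fun s : S => (none, s)) '' Set.univ := by
    rintro ⟨_ | x, s⟩ hp
    · exact Or.inr ⟨s, trivial, rfl⟩
    · exact Or.inl ⟨(x, s), fun ⟨y, e⟩ => hp ⟨some y, x, y, rfl, rfl, e⟩, rfl⟩
  refine (Set.ncard_le_ncard k).trans ((Set.ncard_union_le _ _).trans
    (Nat.add_le_add Set.ncard_image_le (le_trans Set.ncard_image_le ?_)))
  rw [Set.ncard_univ]
  simp

end SubA

open SubA in
theorem sub (hs : SP1S) (hd : DehnS) : SubS := by
  intro B _ o Y a0 g1 g2 h hl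
  refine ⟨sY h, mv h hs hl o, some, none, fun _ => rfl, (Finite.card_option (α := Y.Om)).le,
    area_le h, fun c R n k l ch t => ?_, fun w p p' q c1 c2 hq => ?_⟩
  · refine walk h hs hl (fun _ _ a => by omega) (fun _ p _ p' _ q a b e => ?_) t
    have := hd c p q p' 0 e
    have := d_triangle c p q
    have := d_triangle c p' q
    rw [d_comm p' q] at this
    omega
  · have hb := btw_len hl w
    rw [← h] at hb
    have c3 := hs _ _ _ _ _ _ hb c1 c2 hq
    refine ⟨c3, _, _, TW.dart (Y := sY h) (n := ⟨some (Y.src a0), w, p⟩) (.inl a0) c1 trivial rfl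
      (congrArg (sY h).src (rv_0 Y a0)).symm (congrArg (· * w) (lb_0 Y a0 g1 g2).symm)
      (TW.nil ⟨none, g1 * w, q⟩ c3 trivial),
      TW.dart (Y := sY h) (n := ⟨none, g1 * w, q⟩) (.inr true) c3 trivial rfl rfl
        (by rw [h, mul_assoc]; rfl) (TW.nil ⟨_, Y.lab a0 * w, p'⟩ c2 trivial),
      fun E _ c ε _ => ?_⟩
    show ev (pl h E c) _ ε = _
    simp only [ev_cons, ev_append, ev_nil, add_zero, pl_0, mul_smul]

end Pool.Agent.MP_df844f_gt
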