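import Pool.Agent.MP_df844f_gt.s2.All0
import Pool.Agent.MP_df844f_gt.s2.Sub

/-! The remaining statements of section 2, free of hypotheses. -/

namespace Pool.Agent.MP_df844f_gt.S2All

open WAll

theorem subA : SubS := sub sp1A dehnA
theorem cutWA : CutWS := cutW0 subA
theorem pushA : PushS := push0 subA

end Pool.Agent.MP_df844f_gt.S2All
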