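import Pool.Agent.MP_df844f_gt.Spec

/-! Attaching a new chamber along all sides outside a clique. -/

namespace Pool.Agent.MP_df844f_gt

open PS

namespace AttA

variable {B : Type} [MulAction W B] {Y : PS B} {J : Finset S} {y : S → Y.Om} {b : B}

/-- Edges of the new prestate. -/
def ed (Y : PS B) (J : Finset S) (y : S → Y.Om) (s : S) : Option Y.Om → Option Y.Om → Prop
  | some x, some x' => Y.e s x x'
  | none, some x => s ∉ J ∧ x = y s
  | some x, none => s ∉ J ∧ x = y s
  | none, none => False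

/-- The new prestate. -/
def att (h : Y.Att J y b) : PS B where
  Om := Option Y.Om
  A := Y.A
  f x := x.elim b Y.f
  e := ed Y J y
  e_symm := by
    rintro s (_ | x) (_ | x') k
    · exact k
    · exact k
    · exact k
    · exact Y.e_symm k
  e_f := by
    rintro s (_ | x) (_ | x') k
    · exact k.elim
    · obtain ⟨k1, rfl⟩ := k
      exact h.f_y s k1
    · obtain ⟨k1, rfl⟩ := k
      change b = g s • Y.f (y s)
      rw [h.f_y s k1, smul_smul, g_mul_self, one_smul]
    · exact Y.e_f k
  rev := Y.rev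
  rev_rev := Y.rev_rev
  rev_ne := Y.rev_ne
  src a := some (Y.src a)
  lab := Y.lab
  lab_rev := Y.lab_rev
  f_rev := Y.f_rev

def inc (h : Y.Att J y b) : Hom Y (att h) where
  π := some
  e_π k := k
  α := Equiv.refl _
  f_π _ := rfl
  src_α _ := rfl
  rev_α _ := rfl
  lab_α _ := rfl

theorem new_inc (h : Y.Att J y b) : (inc h).new = 1 := by
  have e : {z : Option Y.Om | z ∉ Set.range (some : Y.Om → Option Y.Om)} = {none} := by
    ext z
    cases z <;> simp
  exact (congrArg Set.ncard e).trans (Set.ncard_singleton _)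

theorem good_inc (h : Y.Att J y b) {t0 : S} (ht0 : t0 ∉ J) : (inc h).Good where
  refl := by
    intro E _ c hc ⟨p, hp⟩
    let val : S → E → F2 := fun t ε =>
      p (y t) (g t • ε) + c (.edge t none (some (y t))) ε
    have step : ∀ a a' : S, a ∉ J → a' ∉ J → adj a a' → ∀ q, Y.e a' (y a) q → Y.e a (y a') q →
        ∀ ε, val a ε = val a' ε := by
      intro a a' ha ha' hadj q e1 e2 ε
      have h1 := hc.sq a a' none (some (y a)) (some q) (some (y a')) ε hadj ⟨ha, rfl⟩ e1
        (Y.e_symm e2) ⟨ha', rfl⟩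
      have h2 : c (.edge a' (some (y a)) (some q)) (g a • ε) = _ := hp.ed a' _ _ (g a • ε) e1
      have h3 : c (.edge a (some q) (some (y a'))) (g a' • g a • ε) = _ :=
        hp.ed a _ _ (g a' • g a • ε) (Y.e_symm e2)
      have h4 : g a • g a' • g a • ε = g a' • ε := by
        rw [smul_smul, smul_smul, g_comm hadj, mul_assoc, g_mul_self, mul_one]
      have h5 := hc.symm a' none (some (y a')) ε ⟨ha', rfl⟩
      rw [h2, h3, h4, h5] at h1
      have e : ∀ u v w x z : F2, u + (v + w) + (w + x) + z = 0 → v + u = x + z := by decide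
      exact e _ _ _ _ _ h1
    have all : ∀ t ∉ J, ∀ ε, val t0 ε = val t ε := by
      intro t ht ε
      have hl := h.link t0 ht0 t ht
      clear ht
      induction hl with
      | refl => rfl
      | tail _ k ih =>
        obtain ⟨k1, k2, k3, q, k4, k5⟩ := k
        exact ih.trans (step _ _ k1 k2 k3 q k4 k5 ε)
    refine ⟨fun x => x.elim (val t0) p, ?_, fun a ε => hp.da a ε⟩
    rintro s (_ | x) (_ | x') ε k
    · exact k.elim
    · obtain ⟨k1, rfl⟩ := k
      change _ = val t0 ε + p (y s) (g s • ε)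
      rw [all s k1]
      have e : ∀ u v : F2, u = v + u + v := by decide
      exact e _ _
    · obtain ⟨k1, rfl⟩ := k
      change _ = p (y s) ε + val t0 (g s • ε)
      rw [all s k1, ← hc.symm s (some (y s)) none ε ⟨k1, rfl⟩]
      change _ = p (y s) ε + (p (y s) (g s • g s • ε) + _)
      rw [smul_smul, g_mul_self, one_smul, ← add_assoc, F2_add_self, zero_add]
    · exact hp.ed s x x' ε k
  h0 := by
    intro o x ⟨h1, h2⟩
    refine ⟨h1, fun T ψ hψ => ?_⟩
    have key := h2 T (fun z => ψ (some z)) ⟨fun s u v w k => hψ.ed s (some u) (some v) w k,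
      fun a w => hψ.da a w⟩
    rintro (_ | z) w hw
    · have h3 := hψ.ed t0 none (some (y t0)) w ⟨ht0, rfl⟩
      rw [← h3]
      refine key (y t0) (g t0 * w) ?_
      rw [mul_smul, hw, h.f_y t0 ht0]
      rfl
    · exact key z w hw

theorem area_att (h : Y.Att J y b) : (att h).area + 12 ≤ Y.area + 2 * J.card := by
  let F : Set (Y.Om × S) := {p | Y.Free p.1 p.2}
  let G : Set (Y.Om × S) := (fun t => (y t, t)) '' (Jᶜ : Finset S)
  have hG : G ⊆ F := by
    rintro _ ⟨t, ht, rfl⟩
    exact h.free t (Finset.mem_compl.1 ht)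
  have h1 : G.ncard + J.card = 12 := by
    rw [Set.ncard_image_of_injective _ fun a a' k => (Prod.ext_iff.1 k).2, Set.ncard_coe_finset,
      add_comm, Finset.card_add_card_compl]
    rfl
  have h2 : (F \ G).ncard + G.ncard = Y.area := Set.ncard_sdiff_add_ncard_of_subset hG
  have h3 : {p : Option Y.Om × S | (att h).Free p.1 p.2} ⊆
      (fun p : Y.Om × S => (some p.1, p.2)) '' (F \ G) ∪ (fun s => (none, s)) '' (J : Set S) := by
    rintro ⟨_ | x, s⟩ hp
    · refine Or.inr ⟨s, ?_, rfl⟩
      by_contra k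
      exact hp ⟨some (y s), k, rfl⟩
    · refine Or.inl ⟨(x, s), ⟨fun ⟨z, hz⟩ => hp ⟨some z, hz⟩, ?_⟩, rfl⟩
      rintro ⟨t, ht, k⟩
      obtain ⟨rfl, rfl⟩ := Prod.ext_iff.1 k
      exact hp ⟨none, Finset.mem_compl.1 ht, rfl⟩
  have h4 := (Set.ncard_le_ncard h3).trans (Set.ncard_union_le _ _)
  have h5 := Set.ncard_image_le (s := F \ G) (f := fun p : Y.Om × S => (some p.1, p.2))
  have h6 := Set.ncard_image_le (s := (J : Set S)) (f := fun s => ((none : Option Y.Om), s))
  rw [Set.ncard_coe_finset] at h6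
  have h7 : (att h).area = {p : Option Y.Om × S | (att h).Free p.1 p.2}.ncard := rfl
  omega

theorem vol_att (h : Y.Att J y b) : (att h).vol = Y.vol + 1 := Finite.card_option

theorem near_att (h : Y.Att J y b) {n : ℕ} {a z : (att h).Om} (k : (att h).Near n a z) :
    ∀ v, z = some v → (a = none → ∃ t ∉ J, Y.Near n (y t) v) ∧ ∀ u, a = some u →
      Y.Near n u v ∨ ∃ i j, i + j ≤ n ∧ (∃ t ∉ J, Y.Near i u (y t)) ∧ ∃ t ∉ J, Y.Near j (y t) v := by
  induction k with
  | refl n x =>
    rintro v rfl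
    refine ⟨fun k => (Option.some_ne_none _ k).elim, fun u k => ?_⟩
    obtain rfl := Option.some.inj k
    exact Or.inl (Near.refl _ _)
  | @step n s x x1 z e _ ih =>
    intro v hv
    obtain ⟨i1, i2⟩ := ih v hv
    refine ⟨?_, ?_⟩
    · rintro rfl
      rcases x1 with _ | x1
      · exact e.elim
      · obtain ⟨e1, rfl⟩ := e
        rcases i2 _ rfl with k | ⟨i, j, hij, -, t, ht, k⟩
        · exact ⟨s, e1, k.mono (Nat.le_succ n)⟩
        · exact ⟨t, ht, k.mono (by omega)⟩
    · rintro u rfl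
      rcases x1 with _ | x1
      · obtain ⟨e1, rfl⟩ := e
        exact Or.inr ⟨0, n, by omega, ⟨s, e1, Near.refl _ _⟩, i1 rfl⟩
      · rcases i2 _ rfl with k | ⟨i, j, hij, ⟨t, ht, k⟩, k'⟩
        · exact Or.inl (Near.step e k)
        · exact Or.inr ⟨i + 1, j, by omega, ⟨t, ht, Near.step e k⟩, k'⟩

end AttA

open AttA in
theorem att (hF : FactS) : AttS := by
  intro B _ Y J y b h
  have hJ := hF.clq J h.clq
  obtain ⟨t0, ht0⟩ : ∃ t, t ∉ J := by
    by_contra k
    have : J = Finset.univ := Finset.eq_univ_of_forall fun t => not_not.1 fun e => k ⟨t, e⟩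
    rw [this, Finset.card_univ, Fintype.card_fin] at hJ
    omega
  have h1 := area_att h
  have h2 := vol_att h
  have h3 : (AttA.att h).pot + 1 ≤ Y.pot := by
    unfold pot
    omega
  refine ⟨AttA.att h, inc h, good_inc h ht0, ⟨?_, by omega, fun n u v k => ?_⟩, new_inc h⟩
  · rw [new_inc]; omega
  · rcases (near_att h k v rfl).2 u rfl with k | ⟨i, j, hij, ⟨t, ht, k⟩, t', ht', k'⟩
    · exact k.mono (Nat.le_add_right _ _)
    · exact ((k.trans (h.near t ht t' ht')).trans k').mono (by omega)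

end Pool.Agent.MP_df844f_gt
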