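import Pool.Agent.MP_df844f_gt.Spec

/-! Beads in a tight state carry enough darts. -/

namespace Pool.Agent.MP_df844f_gt

open PS

namespace BeadDegA

variable {B : Type} [MulAction W B] {o : B} {Y : PS B} {x0 : Y.Om} {Z : Set Y.Om}

theorem ind (hT : Trans o) (h0 : Y.H0 o x0) (hZ : Y.Shut Z)
    (hd : ∀ a, Y.src (Y.rev a) ∈ Z ↔ Y.src a ∈ Z) (x : Y.Om) : x ∈ Z ↔ x0 ∈ Z := by
  obtain ⟨w, hw⟩ := hT (Y.f x)
  exact iff_of_eq (h0.2 Prop (fun x _ => x ∈ Z)
    ⟨fun s x y _ h => propext ⟨hZ s y x (Y.e_symm h), hZ s x y h⟩, fun a _ => propext (hd a)⟩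
    x w hw)

end BeadDegA

open BeadDegA in
theorem beadDeg (m1 : M1S) (m2 : M2S) : BeadDegS := by
  intro B _ _ o hT Y x0 r μ Z pos hS hI hTi hB hF
  have h0 := hI.h0
  have zero : Y.deg Z = 0 → ∀ a, Y.src a ∉ Z := fun h a ha => by
    have := (Set.ncard_eq_zero (Set.toFinite _)).1 h
    exact (Set.ext_iff.1 this a).1 ha
  refine ⟨fun hx => ?_, fun hx => ?_⟩
  · obtain ⟨⟨z, s⟩, hz, -⟩ := Set.nonempty_of_ncard_ne_zero hF.ne'
    have no : ¬ ∀ a, Y.src (Y.rev a) ∈ Z ↔ Y.src a ∈ Z := fun hd =>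
      hx ((ind hT h0 hB.shut hd z).1 hz)
    have fin : ¬ ∃ (Y' : PS B) (m : Move o Y Y') (x0' : Y'.Om), m.K x0 x0' ∧ Y'.State ∧
        Y'.vol ≤ Y.vol ∧ Y'.area + Y.nF Z ≤ Y.area := by
      rintro ⟨Y', m, x0', k1, k2, k3, k4⟩
      have := hTi.move m k1 k2 k3
      omega
    by_contra hh
    have h3 : Y.deg Z = 0 ∨ Y.deg Z = 1 ∨ Y.deg Z = 2 := by omega
    rcases h3 with h | h | h
    · exact no fun a => iff_of_false (zero h _) (zero h _)
    · obtain ⟨a1, e⟩ := Set.ncard_eq_one.1 h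
      exact fin (m1 B o Y Z pos x0 a1 hS hB hx fun a => Set.ext_iff.1 e a)
    · obtain ⟨a1, a2, hne, e⟩ := Set.ncard_eq_two.1 h
      have e' : ∀ a, Y.src a ∈ Z ↔ a = a1 ∨ a = a2 := fun a => Set.ext_iff.1 e a
      by_cases hr : Y.rev a1 = a2
      · refine no fun a => ?_
        rw [e', e', ← hr]
        constructor
        · rintro (k | k)
          · exact Or.inr (by rw [← k, Y.rev_rev])
          · exact Or.inl (by rw [← Y.rev_rev a, k, Y.rev_rev])
        · rintro (k | k)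
          · exact Or.inr (by rw [k])
          · exact Or.inl (by rw [k, Y.rev_rev])
      · exact fin (m2 B o Y Z pos x0 a1 a2 hS hB hx hne hr e')
  · by_contra hh
    have hz := zero (by omega)
    have all : ∀ x, x ∈ Z := fun x =>
      (ind hT h0 hB.shut (fun a => iff_of_false (hz _) (hz _)) x).2 hx
    have st : ∀ w : W, w • o = o → w = 1 := fun w hw => by
      have := h0.2 W (fun x w => (pos x)⁻¹ * w)
        ⟨fun s x y w h => by rw [hB.pos_e s x (all x) y h]; group,
          fun a _ => absurd (all _) (hz a)⟩ x0 w (hw.trans h0.1.symm)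
      exact mul_left_cancel this
    have inj : Function.Injective fun w : W => w • o := fun w w' h => by
      have := st (w'⁻¹ * w) (by rw [mul_smul, inv_smul_eq_iff]; exact h)
      exact (inv_mul_eq_one.1 this).symm
    have := Finite.of_injective _ inj
    have := infinite_W
    exact not_finite W

end Pool.Agent.MP_df844f_gt
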