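import Pool.Agent.MP_df844f_gt.Spec

/-! Every prestate folds and closes up to a state. -/

namespace Pool.Agent.MP_df844f_gt

open PS

namespace ClosA

variable {B : Type} [MulAction W B] {Y Y' : PS B}

theorem gg {E : Type} [MulAction W E] (s : S) (ε : E) : g s • g s • ε = ε := by
  rw [smul_smul, g_mul_self, one_smul]

theorem g4 {E : Type} [MulAction W E] {s t : S} (h : adj s t) (ε : E) :
    g t • g s • g t • g s • ε = ε := by
  rw [smul_smul (g s) (g t), g_comm h, ← smul_smul, gg, gg]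

theorem g3 {E : Type} [MulAction W E] {s t : S} (h : adj s t) (ε : E) :
    g s • g t • g s • g t • ε = ε := g4 (adj_symm h) ε

theorem good_of (φ : Hom Y Y') (hs : Function.Surjective φ.π)
    (h : ∀ (E : Type) [MulAction W E] (c : Y'.Coch E), Cocyc c → ∀ ψ : Y.Om → E → F2,
      IsD (fun l => c (φ.lbl l) : Y.Coch E) ψ → ∃ ψ' : Y'.Om → E → F2,
        (∀ x ε, ψ' (φ.π x) ε = ψ x ε) ∧
        ∀ s a b ε, Y'.e s a b → c (.edge s a b) ε = ψ' a ε + ψ' b (g s • ε)) : φ.Good where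
  refl E _ c hc := by
    rintro ⟨ψ, hψ⟩
    obtain ⟨ψ', h1, h2⟩ := h E c hc ψ hψ
    refine ⟨ψ', h2, fun a ε => ?_⟩
    obtain ⟨a, rfl⟩ := φ.α.surjective a
    rw [φ.rev_α, φ.src_α, φ.src_α, φ.lab_α, h1, h1]
    exact hψ.da a ε
  h0 o x := by
    rintro ⟨h1, h2⟩
    refine ⟨(φ.f_π x).trans h1, fun T ψ hψ x' w hw => ?_⟩
    obtain ⟨y, rfl⟩ := hs x'
    refine h2 T (fun z => ψ (φ.π z)) ⟨fun s a b w e => hψ.ed s _ _ w (φ.e_π e), fun a w => ?_⟩ y w
      (hw.trans (φ.f_π y))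
    have := hψ.da (φ.α a) w
    rwa [φ.rev_α, φ.src_α, φ.src_α, φ.lab_α] at this

theorem new_zero (φ : Hom Y Y') (hs : Function.Surjective φ.π) : φ.new = 0 := by
  unfold Hom.new
  rw [hs.range_eq]
  simp

theorem area_le (φ : Hom Y Y') (hs : Function.Surjective φ.π) : Y'.area ≤ Y.area := by
  unfold PS.area
  refine (Set.ncard_le_ncard (t := (fun p : Y.Om × S => (φ.π p.1, p.2)) ''
    {p : Y.Om × S | Y.Free p.1 p.2}) ?_).trans (Set.ncard_image_le (Set.toFinite _))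
  rintro ⟨a, s⟩ h
  obtain ⟨x, rfl⟩ := hs a
  exact ⟨(x, s), fun ⟨y, e⟩ => h ⟨φ.π y, φ.e_π e⟩, rfl⟩

theorem near_of (φ : Hom Y Y') (P : Y.Om → Prop)
    (h1 : ∀ a b, φ.π a = φ.π b → a = b ∨ P a ∧ P b)
    (h2 : ∀ s a' b', Y'.e s a' b' → ∃ a b, φ.π a = a' ∧ φ.π b = b' ∧ (Y.e s a b ∨ P a ∧ P b))
    {n : ℕ} {a' b' : Y'.Om} (h : Y'.Near n a' b') : ∀ a b, φ.π a = a' → φ.π b = b' →
      Y.Near n a b ∨ ∃ i j p q, i + j ≤ n ∧ P p ∧ P q ∧ Y.Near i a p ∧ Y.Near j q b := by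
  induction h with
  | refl n x =>
    intro a b ha hb
    rcases h1 a b (ha.trans hb.symm) with rfl | ⟨k1, k2⟩
    · exact .inl (Near.refl _ _)
    · exact .inr ⟨0, 0, a, b, by omega, k1, k2, Near.refl _ _, Near.refl _ _⟩
  | @step n s x y z e _ ih =>
    intro a b ha hb
    obtain ⟨a1, y1, e1, e2, k⟩ := h2 _ _ _ e
    have hi := ih y1 b e2 hb
    rcases h1 a a1 (ha.trans e1.symm) with rfl | ⟨k1, k2⟩
    · rcases k with k | ⟨k1, k2⟩
      · rcases hi with hi | ⟨i, j, p, q, c1, c2, c3, c4, c5⟩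
        · exact .inl (Near.step k hi)
        · exact .inr ⟨i + 1, j, p, q, by omega, c2, c3, Near.step k c4, c5⟩
      · rcases hi with hi | ⟨i, j, p, q, c1, c2, c3, c4, c5⟩
        · exact .inr ⟨0, n, a, y1, by omega, k1, k2, Near.refl _ _, hi⟩
        · exact .inr ⟨0, j, a, q, by omega, k1, c3, Near.refl _ _, c5⟩
    · rcases hi with hi | ⟨i, j, p, q, c1, c2, c3, c4, c5⟩
      · rcases k with k | ⟨_, k4⟩
        · exact .inr ⟨0, n + 1, a, a1, by omega, k1, k2, Near.refl _ _, Near.step k hi⟩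
        · exact .inr ⟨0, n, a, y1, by omega, k1, k4, Near.refl _ _, hi⟩
      · exact .inr ⟨0, j, a, q, by omega, k1, c3, Near.refl _ _, c5⟩

theorem ctl_of (φ : Hom Y Y') (hs : Function.Surjective φ.π) (hp : Y'.pot < Y.pot) {u v : Y.Om}
    (huv : Y.Near 4 u v) (h1 : ∀ a b, φ.π a = φ.π b → a = b ∨ (a = u ∨ a = v) ∧ (b = u ∨ b = v))
    (h2 : ∀ s a' b', Y'.e s a' b' → ∃ a b, φ.π a = a' ∧ φ.π b = b' ∧
      (Y.e s a b ∨ (a = u ∨ a = v) ∧ (b = u ∨ b = v))) : φ.Ctl 0 where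
  area := by
    have := area_le φ hs
    rw [new_zero φ hs]
    omega
  pot := by omega
  near n a b h := by
    rcases near_of φ (fun a => a = u ∨ a = v) h1 h2 h a b rfl rfl with
      k | ⟨i, j, p, q, c1, c2, c3, c4, c5⟩
    · exact k.mono (by omega)
    · have k : Y.Near 4 p q := by
        rcases c2 with rfl | rfl <;> rcases c3 with rfl | rfl
        · exact Near.refl _ _
        · exact huv
        · exact huv.symm
        · exact Near.refl _ _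
      exact ((c4.trans k).trans c5).mono (by omega)

open Classical in
/-- The map that sends `v` to `u`. -/
noncomputable def pr {α : Type} {u v : α} (h : u ≠ v) (x : α) : {x // x ≠ v} :=
  if k : x = v then ⟨u, h⟩ else ⟨x, k⟩

theorem pr_v {α : Type} {u v : α} (h : u ≠ v) : pr h v = ⟨u, h⟩ := dif_pos rfl

theorem pr_ne {α : Type} {u v : α} (h : u ≠ v) {x : α} (k : x ≠ v) : pr h x = ⟨x, k⟩ := dif_neg k

theorem pr_val {α β : Type} {u v : α} (h : u ≠ v) (f : α → β) (hf : f u = f v) (x : α) :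
    f (pr h x).1 = f x := by
  by_cases k : x = v
  · rw [k, pr_v]
    exact hf
  · rw [pr_ne h k]

theorem pr_surj {α : Type} {u v : α} (h : u ≠ v) : Function.Surjective (pr h) :=
  fun x => ⟨x.1, pr_ne h x.2⟩

theorem pr_eq {α : Type} {u v : α} (h : u ≠ v) (a b : α) (e : pr h a = pr h b) :
    a = b ∨ (a = u ∨ a = v) ∧ (b = u ∨ b = v) := by
  by_cases k : a = v <;> by_cases k' : b = v
  · exact .inl (k.trans k'.symm)
  · rw [k, pr_v, pr_ne h k'] at e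
    exact .inr ⟨.inr k, .inl (congrArg Subtype.val e).symm⟩
  · rw [k', pr_v, pr_ne h k] at e
    exact .inr ⟨.inl (congrArg Subtype.val e), .inr k'⟩
  · rw [pr_ne h k, pr_ne h k'] at e
    exact .inl (congrArg Subtype.val e)

/-- Identification of two chambers over the same point. -/
noncomputable def ident (Y : PS B) {u v : Y.Om} (h : u ≠ v) (hf : Y.f u = Y.f v) : PS B where
  Om := {x // x ≠ v}
  A := Y.A
  f x := Y.f x.1
  e s a b := ∃ x y, Y.e s x y ∧ pr h x = a ∧ pr h y = b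
  e_symm := fun ⟨x, y, e, e1, e2⟩ => ⟨y, x, Y.e_symm e, e2, e1⟩
  e_f := by
    rintro s _ _ ⟨x, y, e, rfl, rfl⟩
    rw [pr_val h Y.f hf, pr_val h Y.f hf]
    exact Y.e_f e
  rev := Y.rev
  rev_rev := Y.rev_rev
  rev_ne := Y.rev_ne
  src a := pr h (Y.src a)
  lab := Y.lab
  lab_rev := Y.lab_rev
  f_rev a := by
    rw [pr_val h Y.f hf, pr_val h Y.f hf]
    exact Y.f_rev a

noncomputable def identH (Y : PS B) {u v : Y.Om} (h : u ≠ v) (hf : Y.f u = Y.f v) :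
    Hom Y (ident Y h hf) where
  π := pr h
  e_π e := ⟨_, _, e, rfl, rfl⟩
  α := Equiv.refl _
  f_π x := pr_val h Y.f hf x
  src_α _ := rfl
  rev_α _ := rfl
  lab_α _ := rfl

/-- One step of the closure. -/
def Step (Y : PS B) : Prop :=
  ∃ (Y' : PS B) (φ : Hom Y Y'), Y'.pot < Y.pot ∧ φ.Good ∧ φ.Ctl 0 ∧ φ.new = 0

theorem step_ident {u v : Y.Om} (h : u ≠ v) (hf : Y.f u = Y.f v) (hn : Y.Near 4 u v)
    (hc : ∀ (E : Type) [MulAction W E] (c : (ident Y h hf).Coch E), Cocyc c →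
      ∀ ψ : Y.Om → E → F2, IsD (fun l => c ((identH Y h hf).lbl l) : Y.Coch E) ψ → ψ u = ψ v) :
    Step Y := by
  have hs : Function.Surjective (identH Y h hf).π := pr_surj h
  have hp : (ident Y h hf).pot < Y.pot := by
    have h1 := area_le _ hs
    have h2 : (ident Y h hf).vol < Y.vol :=
      Finite.card_subtype_lt (p := fun x => x ≠ v) (x := v) fun k => k rfl
    unfold PS.pot
    omega
  refine ⟨_, identH Y h hf, hp, good_of _ hs fun E _ c k ψ hψ => ?_,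
    ctl_of _ hs hp hn (pr_eq h) ?_, new_zero _ hs⟩
  · have e := pr_val h ψ (hc E c k ψ hψ)
    refine ⟨fun a => ψ a.1, fun x ε => congrFun (e x) ε, ?_⟩
    rintro s _ _ ε ⟨x, y, e0, rfl, rfl⟩
    have := hψ.ed s x y ε e0
    rw [← e x, ← e y] at this
    exact this
  · rintro s _ _ ⟨x, y, e0, rfl, rfl⟩
    exact ⟨x, y, rfl, rfl, .inl e0⟩

/-- A new thick edge. -/
def addE (Y : PS B) (t : S) (u v : Y.Om) (hf : Y.f v = g t • Y.f u) : PS B where
  Om := Y.Om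
  A := Y.A
  f := Y.f
  e s a b := Y.e s a b ∨ s = t ∧ (a = u ∧ b = v ∨ a = v ∧ b = u)
  e_symm := by
    rintro s a b (e | ⟨e, k | k⟩)
    · exact .inl (Y.e_symm e)
    · exact .inr ⟨e, .inr ⟨k.2, k.1⟩⟩
    · exact .inr ⟨e, .inl ⟨k.2, k.1⟩⟩
  e_f := by
    rintro s a b (e | ⟨rfl, ⟨rfl, rfl⟩ | ⟨rfl, rfl⟩⟩)
    · exact Y.e_f e
    · exact hf
    · rw [hf, gg]
  rev := Y.rev
  rev_rev := Y.rev_rev
  rev_ne := Y.rev_ne
  src := Y.src
  lab := Y.lab
  lab_rev := Y.lab_rev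
  f_rev := Y.f_rev

def addH (Y : PS B) (t : S) (u v : Y.Om) (hf : Y.f v = g t • Y.f u) :
    Hom Y (addE Y t u v hf) where
  π x := x
  e_π e := .inl e
  α := Equiv.refl _
  f_π _ := rfl
  src_α _ := rfl
  rev_α _ := rfl
  lab_α _ := rfl

theorem sq_val {E : Type} [MulAction W E] {c : Y'.Coch E} (hc : Cocyc c) (φ : Hom Y Y')
    {ψ : Y.Om → E → F2} (hψ : IsD (fun l => c (φ.lbl l) : Y.Coch E) ψ) {s t : S} (h : adj s t)
    {x0 x1 x2 x3 : Y.Om} (e1 : Y.e s x0 x1) (e2 : Y.e t x1 x2) (e3 : Y.e s x2 x3)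
    (e4 : Y'.e t (φ.π x3) (φ.π x0)) (η : E) :
    c (.edge t (φ.π x3) (φ.π x0)) η = ψ x3 η + ψ x0 (g t • η) := by
  have k := hc.sq s t _ _ _ _ (g t • η) h (φ.e_π e1) (φ.e_π e2) (φ.e_π e3) e4
  have k1 : c (.edge s (φ.π x0) (φ.π x1)) (g t • η) = _ := hψ.ed s x0 x1 (g t • η) e1
  have k2 : c (.edge t (φ.π x1) (φ.π x2)) (g s • g t • η) = _ :=
    hψ.ed t x1 x2 (g s • g t • η) e2
  have k3 : c (.edge s (φ.π x2) (φ.π x3)) (g t • g s • g t • η) = _ :=
    hψ.ed s x2 x3 (g t • g s • g t • η) e3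
  rw [k1, k2, k3, g3 h] at k
  generalize c (.edge t (φ.π x3) (φ.π x0)) η = a at k ⊢
  generalize ψ x0 (g t • η) = b at k ⊢
  generalize ψ x1 (g s • g t • η) = b1 at k
  generalize ψ x2 (g t • g s • g t • η) = b2 at k
  generalize ψ x3 η = b3 at k ⊢
  revert a b b1 b2 b3
  decide

theorem step (h : ¬ Y.State) : Step Y := by
  by_cases hf : ∀ s x y y', Y.e s x y → Y.e s x y' → y = y'
  swap
  · push Not at hf
    obtain ⟨s, x, y, y', e1, e2, hne⟩ := hf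
    refine step_ident hne ((Y.e_f e1).trans (Y.e_f e2).symm)
      (((Near.single (Y.e_symm e1)).trans (Near.single e2)).mono (by omega))
      fun E _ c _ ψ hψ => funext fun ε => ?_
    have k1 : c (.edge s (pr hne x) (pr hne y)) (g s • ε) = _ := hψ.ed s x y (g s • ε) e1
    have k2 : c (.edge s (pr hne x) (pr hne y')) (g s • ε) = _ := hψ.ed s x y' (g s • ε) e2
    rw [pr_v, ← pr_ne hne hne, k1, gg] at k2
    exact add_left_cancel k2
  have hc : ¬ ∀ s t x0 x1 x2 x3, adj s t → Y.e s x0 x1 → Y.e t x1 x2 → Y.e s x2 x3 →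
      Y.e t x3 x0 := fun k => h ⟨hf _ _ _ _, k _ _ _ _ _ _⟩
  push Not at hc
  obtain ⟨s, t, x0, x1, x2, x3, a, e1, e2, e3, ne⟩ := hc
  have f0 : Y.f x0 = g t • Y.f x3 := by rw [Y.e_f e3, Y.e_f e2, Y.e_f e1, g4 a]
  have n3 : Y.Near 3 x0 x3 := Near.step e1 (Near.step e2 (Near.single e3))
  by_cases fr : Y.Free x0 t
  · have hs : Function.Surjective (addH Y t x3 x0 f0).π := fun x => ⟨x, rfl⟩
    have e4 : (addE Y t x3 x0 f0).e t x3 x0 := .inr ⟨rfl, .inl ⟨rfl, rfl⟩⟩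
    have hp : (addE Y t x3 x0 f0).pot < Y.pot := by
      have h2 : (addE Y t x3 x0 f0).area < Y.area :=
        Set.ncard_lt_ncard (s := {p : Y.Om × S | (addE Y t x3 x0 f0).Free p.1 p.2})
          (t := {p : Y.Om × S | Y.Free p.1 p.2})
          ⟨fun p k ⟨y, e⟩ => k ⟨y, .inl e⟩,
            fun k => k (a := (x0, t)) fr ⟨x3, (addE Y t x3 x0 f0).e_symm e4⟩⟩
      have h1 : (addE Y t x3 x0 f0).vol = Y.vol := rfl
      unfold PS.pot
      omega
    refine ⟨_, addH Y t x3 x0 f0, hp, good_of _ hs fun E _ c k ψ hψ => ⟨ψ, fun _ _ => rfl, ?_⟩,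
      ctl_of _ hs hp (n3.mono (by omega)) (fun _ _ e => .inl e) ?_, new_zero _ hs⟩
    · have q := sq_val k (addH Y t x3 x0 f0) hψ a e1 e2 e3 e4
      rintro s' u v ε (e | ⟨r1, ⟨r2, r3⟩ | ⟨r2, r3⟩⟩)
      · exact hψ.ed s' u v ε e
      · rw [r1, r2, r3]
        exact q ε
      · rw [r1, r2, r3]
        have q1 := k.symm _ _ _ (g t • ε) e4
        rw [gg] at q1
        refine q1.trans ((q _).trans ?_)
        rw [gg, add_comm]
    · rintro s' u v (e | ⟨_, ⟨r2, r3⟩ | ⟨r2, r3⟩⟩)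
      · exact ⟨u, v, rfl, rfl, .inl e⟩
      · exact ⟨u, v, rfl, rfl, .inr ⟨.inr r2, .inl r3⟩⟩
      · exact ⟨u, v, rfl, rfl, .inr ⟨.inl r2, .inr r3⟩⟩
  · obtain ⟨y0, e0⟩ := not_not.1 fr
    have hne : y0 ≠ x3 := fun k => ne (k ▸ Y.e_symm e0)
    have hf0 : Y.f y0 = Y.f x3 := by rw [Y.e_f e0, f0, gg]
    refine step_ident hne hf0 (Near.step (Y.e_symm e0) n3) fun E _ c k ψ hψ => funext fun ε => ?_
    have ep : pr hne y0 = pr hne x3 := by rw [pr_v, pr_ne hne hne]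
    have k1 := sq_val k (identH Y hne hf0) hψ a e1 e2 e3 ⟨y0, x0, Y.e_symm e0, ep, rfl⟩ ε
    have k2 : c (.edge t (pr hne y0) (pr hne x0)) ε = _ := hψ.ed t y0 x0 ε (Y.e_symm e0)
    rw [ep] at k2
    exact add_right_cancel (k2.symm.trans k1)

end ClosA

theorem clos : ClosS := by
  intro B _ Y
  induction h : Y.pot using Nat.strong_induction_on generalizing Y with
  | _ n ih =>
    by_cases hs : Y.State
    · exact ⟨Y, Hom.id Y, hs, Hom.good_id, Hom.ctl_id, Hom.new_id⟩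
    · obtain ⟨Y1, φ, h1, h2, h3, h4⟩ := ClosA.step hs
      obtain ⟨Y2, ψ, k1, k2, k3, k4⟩ := ih _ (h ▸ h1) Y1 rfl
      refine ⟨Y2, φ.comp ψ, k1, h2.comp k2, h3.comp k3, ?_⟩
      have := φ.new_comp ψ
      omega

end Pool.Agent.MP_df844f_gt
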