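import Pool.Agent.MP_df844f_gt.Spec

/-! Cutting a tracked walk at bounded cost. -/

namespace Pool.Agent.MP_df844f_gt

open PS

namespace CutWA

variable {B : Type} [MulAction W B] {Y : PS B} {P : W → W → Prop}

/-- The walk is cut after a short step. -/
def CutA (Y : PS B) (P : W → W → Prop) (n k : Y.Node) (l : ℕ) (ch : Y.Path) (t : ℕ) : Prop :=
  ∃ n2 la lb cha chb, Y.TW P n n2 la cha ∧ Y.TW P n2 k lb chb ∧ l = la + lb ∧ ch = cha ++ chb ∧
    t ≤ la ∧ la ≤ t + 126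

/-- The cost `t` is passed on a long dart. -/
def CutB (Y : PS B) (P : W → W → Prop) (n k : Y.Node) (l : ℕ) (ch : Y.Path) (t : ℕ) : Prop :=
  ∃ (n1 n2 : Y.Node) (a : Y.A) (l1 l2 : ℕ) (ch1 ch2 : Y.Path), Y.TW P n n1 l1 ch1 ∧
    n1.x = Y.src a ∧ n2.x = Y.src (Y.rev a) ∧ n2.w = Y.lab a * n1.w ∧ Y.TW P n2 k l2 ch2 ∧
    l = l1 + d n1.p n2.p + l2 ∧ ch = ch1 ++ ([(.dart a, n1.w)] ++ ch2) ∧ l1 < t ∧
    127 ≤ d n1.p n2.p

theorem cons {n n' k : Y.Node} {l : ℕ} {ch pre : Y.Path} {t : ℕ}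
    (hs : ∀ m l' ch', Y.TW P n' m l' ch' → Y.TW P n m (d n.p n'.p + l') (pre ++ ch'))
    (h : Y.TW P n' k l ch) (hd : d n.p n'.p ≤ 126) (ht : t ≤ d n.p n'.p + l)
    (ih : ∀ t, 1 ≤ t → t ≤ l → CutA Y P n' k l ch t ∨ CutB Y P n' k l ch t) :
    CutA Y P n k (d n.p n'.p + l) (pre ++ ch) t ∨ CutB Y P n k (d n.p n'.p + l) (pre ++ ch) t := by
  by_cases c : t ≤ d n.p n'.p
  · exact .inl ⟨n', _, l, _, ch, hs _ _ _ (TW.nil n' h.first.1 h.first.2), h, by omega,
      by simp, by omega, by omega⟩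
  · rcases ih (t - d n.p n'.p) (by omega) (by omega) with
      ⟨n2, la, lb, cha, chb, a1, a2, a3, a4, a5, a6⟩ |
      ⟨n1, n2, a, l1, l2, ch1, ch2, a1, a2, a3, a4, a5, a6, a7, a8, a9⟩
    · exact .inl ⟨n2, _, lb, _, chb, hs _ _ _ a1, a2, by omega, by rw [a4, List.append_assoc],
        by omega, by omega⟩
    · exact .inr ⟨n1, n2, a, _, l2, _, ch2, hs _ _ _ a1, a2, a3, a4, a5, by omega,
        by rw [a7, List.append_assoc], by omega, a9⟩

theorem split (cd : CloseDS) {n k : Y.Node} {l : ℕ} {ch : Y.Path} (h : Y.TW P n k l ch) :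
    ∀ t, 1 ≤ t → t ≤ l → CutA Y P n k l ch t ∨ CutB Y P n k l ch t := by
  induction h with
  | nil n a b => intro t h1 h2; omega
  | @edge n n' m l ch s a b c e h ih =>
    intro t _ h2
    refine cons (pre := [(.edge s n.x n'.x, n.w)]) (fun m l' ch' q => TW.edge s a b c e q) h ?_ h2 ih
    have h3 := cd _ _ a
    have h4 := cd _ _ h.first.1
    have h5 := d_g_mul s n.w
    have h6 := d_triangle n.p n.w n'.p
    have h7 := d_triangle n.w n'.w n'.p
    rw [← e] at h5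
    rw [d_comm] at h3
    omega
  | @dart n n' m l ch s a b c e f h ih =>
    intro t h1 h2
    by_cases q : d n.p n'.p ≤ 126
    · exact cons (pre := [(.dart s, n.w)]) (fun m l' ch' q => TW.dart s a b c e f q) h q h2 ih
    · exact .inr ⟨n, n', s, 0, l, [], ch, TW.nil n a b, c, e, f, h, by omega, rfl, by omega,
        by omega⟩
  | @stay n n' m l ch a b c e h ih =>
    intro t _ h2
    refine cons (pre := []) (fun m l' ch' q => TW.stay a b c e q) h ?_ h2 ih
    have h3 := cd _ _ a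
    have h4 := cd _ _ h.first.1
    have h6 := d_triangle n.p n.w n'.p
    rw [e] at h4
    rw [d_comm] at h3
    omega

end CutWA

open CutWA in
theorem cutW (sub : SubS) (cd : CloseDS) (dehn : DehnS) : CutWS := by
  intro B _ o Y c R n k l ch h hl
  rcases split cd h 19 (by omega) hl with ⟨n2, la, lb, cha, chb, a1, a2, a3, a4, a5, a6⟩ |
    ⟨n1, n2, a, l1, l2, ch1, ch2, a1, a2, a3, a4, a5, a6, a7, a8, a9⟩
  · have sv : ∀ p : Y.Path, SameV (Hom.move o (Hom.id Y) Hom.good_id).pull p p :=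
      fun p E _ c ε _ => by
        show ev (fun l => c ((Hom.id Y).lbl l)) p ε = ev c p ε
        simp only [Hom.lbl_id]
    refine ⟨Y, Hom.move o (Hom.id Y) Hom.good_id, fun x => x, n2, la, lb, cha, chb, fun _ => rfl,
      by omega, by omega, fun c R n k l ch q => ⟨ch, q.mono fun _ _ _ e => by omega, sv ch⟩,
      a1.toTT, a2.toTT, by omega, a5, by omega, ?_, a4 ▸ sv _⟩
    have := a2.first.2
    omega
  · have c1 := a1.last.1
    have c2 := a5.first.1
    have r1 : d c n1.p ≤ R := a1.last.2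
    have r2 : d c n2.p ≤ R := a5.first.2
    have d1 := cd _ _ c1
    have d2 := cd _ _ c2
    have t1 := d_triangle n1.p n1.w n2.p
    have t2 := d_triangle n1.w n2.w n2.p
    have t3 := d_comm n1.p n1.w
    obtain ⟨u, hu, du⟩ := exists_btw n1.w n2.w 73 (by omega)
    have e1 : u * n1.w⁻¹ * n1.w = u := by group
    have e2 : Y.lab a = Y.lab a * (u * n1.w⁻¹)⁻¹ * (u * n1.w⁻¹) := by group
    obtain ⟨Y', m, ν, z, b1, b2, b3, b4, b5⟩ := sub B o Y a (u * n1.w⁻¹)
      (Y.lab a * (u * n1.w⁻¹)⁻¹) e2 (by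
        rw [← e2, ← d_mul_left (Y.lab a) n1.w, ← a4, ← d_mul_left (u * n1.w⁻¹) n1.w, e1,
          ← d_mul_left (Y.lab a * (u * n1.w⁻¹)⁻¹) u,
          show Y.lab a * (u * n1.w⁻¹)⁻¹ * u = Y.lab a * n1.w by group, ← a4]
        exact Eq.symm hu)
    obtain ⟨q, hq⟩ := exists_med n1.p n2.p (u * n1.w⁻¹ * n1.w)
    obtain ⟨c3, p1, p2, w1, w2, sv⟩ := b5 n1.w n1.p n2.p q c1 (a4 ▸ c2) hq
    obtain ⟨ch1', v1, s1⟩ := b4 c R _ _ _ _ a1
    obtain ⟨ch2', v2, s2⟩ := b4 c R _ _ _ _ a5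
    rw [← a2] at w1
    rw [← a3, ← a4] at w2
    have d3 := cd _ _ c3
    rw [e1] at d3
    have hb : d n1.p q + d q n2.p = d n1.p n2.p := hq.btw12
    have t4 := d_triangle n1.w n1.p u
    have t5 := d_triangle n1.p q u
    have t6 := d_comm q u
    have t7 := d_triangle n1.p n1.w q
    have t8 := d_triangle n1.w u q
    refine ⟨Y', m, ν, _, _, _, _, _, b1, b2, b3, b4, v1.toTT.append w1, w2.append v2.toTT,
      by omega, by omega, by omega, ?_, ?_⟩
    · show d c q ≤ R + 6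
      by_contra hc
      have t9 := d_triangle c n1.p q
      have t10 := d_triangle c n2.p q
      have t11 := d_comm q n2.p
      rcases dehn c n1.p q n2.p 0 hq.btw12 (by omega) (by omega) with y | y <;> omega
    · rw [a7, List.append_assoc, ← List.append_assoc p1]
      exact s1.append (sv.append s2)

end Pool.Agent.MP_df844f_gt
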