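import Pool.Agent.MP_df844f_gt.s2.H0

/-! Row H: replacing connected liftable pieces by gadgets is a move. -/

namespace Pool.Agent.MP_df844f_gt

open PS

namespace HA

variable {B : Type} [MulAction W B] {o : B} {Y : PS B} {D : HData o Y}

theorem f2a (a b c : F2) : a + b + (b + c) = a + c := by revert a b c; decide

section
variable {E : Type} [MulAction W E]

theorem gg (s : S) (ε : E) : g s • g s • ε = ε := by rw [smul_smul, g_mul_self, one_smul]

theorem sq_smul {s t : S} (h : adj s t) (ε : E) : g t • g s • g t • g s • ε = ε := by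
  rw [smul_smul (g s) (g t), g_comm h, mul_smul, gg, gg]

theorem pull_cocyc {c : (Y' D).Coch E} (hc : Cocyc c) : Cocyc (pull c) where
  symm s x y ε h := by
    rcases edge_cases (D := D) h with k | ⟨j, h1, h2, _⟩
    · rw [pull_out c s k, pull_out c s k.symm]
      exact hc.symm s _ _ ε (e_out h k)
    · rw [pull_in c s ⟨ne_none h1, ne_none h2⟩, pull_in c s ⟨ne_none h2, ne_none h1⟩, gg,
        add_comm]
  dsym a ε := by
    by_cases k : D.int a
    · rw [pull_int c k, pull_int c (D.int_rev a k), Y.rev_rev, Y.lab_rev, inv_smul_smul, add_comm]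
    · rw [pull_ext c k, pull_ext c (not_int_rev k)]
      exact hc.dsym (outA D a k) ε
  sq s t x0 x1 x2 x3 ε h a1 a2 a3 a4 := by
    by_cases k : D.comp x0 ≠ none ∧ D.comp x1 ≠ none ∧ D.comp x2 ≠ none ∧ D.comp x3 ≠ none
    · obtain ⟨k0, k1, k2, k3⟩ := k
      rw [pull_in c s ⟨k0, k1⟩, pull_in c t ⟨k1, k2⟩, pull_in c s ⟨k2, k3⟩, pull_in c t ⟨k3, k0⟩,
        sq_smul h, f2a, f2a, f2a, F2_add_self]
    · have n1 : ∀ {u : S} {x y : Y.Om}, Y.e u x y → Y.Near 2 x y := fun e =>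
        (Near.single e).mono (by omega)
      have n2 : ∀ {u v : S} {x y z : Y.Om}, Y.e u x y → Y.e v y z → Y.Near 2 x z := fun e e' =>
        (Near.single e).trans (Near.single e')
      have hk : D.Kept x0 ∧ D.Kept x1 ∧ D.Kept x2 ∧ D.Kept x3 := by
        by_cases k0 : D.comp x0 = none
        · exact ⟨kept_none k0, kept_near k0 (n1 a1).symm, kept_near k0 (n2 a3 a4),
            kept_near k0 (n1 a4)⟩
        by_cases k1 : D.comp x1 = none
        · exact ⟨kept_near k1 (n1 a1), kept_none k1, kept_near k1 (n1 a2).symm,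
            kept_near k1 (n2 a4 a1)⟩
        by_cases k2 : D.comp x2 = none
        · exact ⟨kept_near k2 (n2 a1 a2), kept_near k2 (n1 a2), kept_none k2,
            kept_near k2 (n1 a3).symm⟩
        by_cases k3 : D.comp x3 = none
        · exact ⟨kept_near k3 (n1 a4).symm, kept_near k3 (n2 a2 a3), kept_near k3 (n1 a3),
            kept_none k3⟩
        exact absurd ⟨k0, k1, k2, k3⟩ k
      obtain ⟨k0, k1, k2, k3⟩ := hk
      obtain ⟨b1, c1⟩ := kept_both a1 k0 k1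
      obtain ⟨b2, c2⟩ := kept_both a2 k1 k2
      obtain ⟨b3, c3⟩ := kept_both a3 k2 k3
      obtain ⟨b4, c4⟩ := kept_both a4 k3 k0
      rw [c1 E c _ hc, c2 E c _ hc, c3 E c _ hc, c4 E c _ hc]
      exact hc.sq s t _ _ _ _ ε h b1 b2 b3 b4

theorem f2b {a b c e : F2} (h : a + b = c + e) : c + a = e + b := by revert a b c e; decide

theorem f2c (a b : F2) : a + (b + a) = b := by revert a b; decide

theorem f2d (a b k : F2) : a + b = a + k + (b + k) := by revert a b k; decide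

theorem pull_refl {c : (Y' D).Coch E} (hc : Cocyc c) (h : Cobd (pull c)) : Cobd c := by
  obtain ⟨φ, hφ⟩ := h
  choose z0 hz0 hz using D.conn
  have key : ∀ j z, D.comp z = some j → ∀ ε : E, φ z (D.pos z • ε) + psi c z (D.pos z • ε) =
      φ (z0 j) (D.pos (z0 j) • ε) + psi c (z0 j) (D.pos (z0 j) • ε) := by
    intro j z h ε
    have h1 := hz j z h
    clear h
    induction h1 with
    | refl => rfl
    | @tail u v _ k ih =>
      rw [← ih]
      obtain ⟨k1, k2, ⟨s, k3⟩ | ⟨a, k3, rfl, rfl⟩⟩ := k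
      · have e1 := hφ.ed s u v (D.pos u • ε) k3
        rw [pull_in c s ⟨ne_none k1, ne_none k2⟩, ← mul_smul,
          ← (D.e_in s u v j j k3 k1 k2).2] at e1
        exact (f2b e1).symm
      · have e1 := hφ.da a (D.pos (Y.src a) • ε)
        obtain ⟨_, _, _, k4⟩ := D.int_in a k3
        rw [pull_int c k3, ← mul_smul, ← k4] at e1
        exact (f2b e1).symm
  let κ : D.J → E → F2 := fun j ε =>
    φ (z0 j) (D.pos (z0 j) • ε) + psi c (z0 j) (D.pos (z0 j) • ε)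
  let φ' : Om' D → E → F2 := fun u ε =>
    match u with
    | .inl x => φ x.1 ε
    | .inr p => Phi c p.1 (((D.Q p.1).f p.2)⁻¹ • ε) p.2 + κ p.1 (((D.Q p.1).f p.2)⁻¹ • ε)
  have hν : ∀ z, D.Kept z → ∀ ε, φ' (nu D z) ε = φ z ε := by
    intro z hk ε
    rcases k : D.comp z with _ | j
    · rw [nu_none k]
    · rw [nu_some k]
      show Phi c j (((D.Q j).f (D.ι j (D.pos z)))⁻¹ • ε) (D.ι j (D.pos z)) +
        κ j (((D.Q j).f (D.ι j (D.pos z)))⁻¹ • ε) = _
      have e1 := key j z k ((D.pos z)⁻¹ • ε)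
      rw [smul_inv_smul] at e1
      rw [(D.gad j).f_ι _ (hk j k), ← psi_some c k]
      show _ + (φ (z0 j) _ + psi c (z0 j) _) = _
      rw [← e1, f2c]
  refine ⟨φ', ?_, ?_⟩
  · rintro s u v ε (⟨x, y, h1, h2, rfl, rfl⟩ | ⟨j, q, q', h1, rfl, rfl⟩)
    · rw [hν x (kept_edge h1 h2).1, hν y (kept_edge h1 h2).2, ← hφ.ed s x y ε h1,
        pull_out c s h2]
    · have e1 := Phi_ed hc (((D.Q j).f q)⁻¹ • ε) h1
      rw [smul_inv_smul] at e1
      have e2 : ((D.Q j).f q')⁻¹ • g s • ε = ((D.Q j).f q)⁻¹ • ε := by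
        rw [(D.Q j).e_f h1, smul_eq_mul, mul_inv_rev, mul_smul, inv_smul_smul]
      show c (.edge s (inQ D j q) (inQ D j q')) ε =
        Phi c j (((D.Q j).f q)⁻¹ • ε) q + κ j (((D.Q j).f q)⁻¹ • ε) +
        (Phi c j (((D.Q j).f q')⁻¹ • g s • ε) q' + κ j (((D.Q j).f q')⁻¹ • g s • ε))
      rw [e1, e2]
      exact f2d _ _ _
  · rintro (⟨a, ha⟩ | ⟨j, a⟩) ε
    · show c (.dart (outA D a ha)) ε =
        φ' (nu D (Y.src a)) ε + φ' (nu D (Y.src (Y.rev a))) (Y.lab a • ε)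
      rw [hν _ (kept_src ha), hν _ (kept_src (not_int_rev ha)), ← hφ.da a ε, pull_ext c ha]
    · have e1 := Phi_da hc (((D.Q j).f ((D.Q j).src a))⁻¹ • ε) a
      rw [smul_inv_smul] at e1
      have e2 : ((D.Q j).f ((D.Q j).src ((D.Q j).rev a)))⁻¹ • (D.Q j).lab a • ε =
          ((D.Q j).f ((D.Q j).src a))⁻¹ • ε := by
        rw [(D.Q j).f_rev, smul_eq_mul, mul_inv_rev, mul_smul, inv_smul_smul]
      show c (.dart (inA D j a)) ε =
        Phi c j (((D.Q j).f ((D.Q j).src a))⁻¹ • ε) ((D.Q j).src a) +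
          κ j (((D.Q j).f ((D.Q j).src a))⁻¹ • ε) +
        (Phi c j (((D.Q j).f ((D.Q j).src ((D.Q j).rev a)))⁻¹ • (D.Q j).lab a • ε)
          ((D.Q j).src ((D.Q j).rev a)) +
          κ j (((D.Q j).f ((D.Q j).src ((D.Q j).rev a)))⁻¹ • (D.Q j).lab a • ε))
      rw [e1, e2]
      exact f2d _ _ _

end

theorem h0_nu {x : Y.Om} (hx : D.Kept x) (h : Y.H0 o x) : (Y' D).H0 o (nu D x) := by
  refine ⟨(f_nu hx).trans h.1, fun T φ' hφ' => ?_⟩
  have cst : ∀ j (γ : W) (q q' : (D.Q j).Om), φ' (inQ D j q) ((D.Q j).f q * γ) =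
      φ' (inQ D j q') ((D.Q j).f q' * γ) := by
    intro j γ
    refine (D.gad j).conn T (fun q => φ' (inQ D j q) ((D.Q j).f q * γ)) ?_ ?_
    · intro s q q' e
      show φ' (inQ D j q) ((D.Q j).f q * γ) = φ' (inQ D j q') ((D.Q j).f q' * γ)
      rw [(D.Q j).e_f e, smul_eq_mul, mul_assoc]
      exact (hφ'.ed s _ _ _ (e_inQ e)).symm
    · intro a
      show φ' (inQ D j ((D.Q j).src a)) ((D.Q j).f ((D.Q j).src a) * γ) =
        φ' (inQ D j ((D.Q j).src ((D.Q j).rev a))) ((D.Q j).f ((D.Q j).src ((D.Q j).rev a)) * γ)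
      rw [(D.Q j).f_rev, smul_eq_mul, mul_assoc]
      exact (hφ'.da (inA D j a) _).symm
  let φ : Y.Om → W → T := fun z w =>
    match D.comp z with
    | none => φ' (nu D z) w
    | some j => φ' (inQ D j (D.ι j (D.pos z))) ((D.Q j).f (D.ι j (D.pos z)) * ((D.pos z)⁻¹ * w))
  have φs : ∀ z j, D.comp z = some j → ∀ w, φ z w =
      φ' (inQ D j (D.ι j (D.pos z))) ((D.Q j).f (D.ι j (D.pos z)) * ((D.pos z)⁻¹ * w)) := by
    intro z j k w
    simp only [φ, k]
  have φk : ∀ z, D.Kept z → ∀ w, φ z w = φ' (nu D z) w := by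
    intro z hk w
    rcases k : D.comp z with _ | j
    · simp only [φ, k]
    · rw [φs z j k, (D.gad j).f_ι _ (hk j k), mul_inv_cancel_left, nu_some k]
      rfl
  have hφ : LocC φ := by
    constructor
    · intro s u v w e
      rcases edge_cases (D := D) e with k | ⟨j, h1, h2, h3⟩
      · rw [φk u (kept_edge e k).1, φk v (kept_edge e k).2]
        exact hφ'.ed s _ _ w (e_out e k)
      · have e1 : (D.pos v)⁻¹ * (g s * w) = (D.pos u)⁻¹ * w := by
          rw [h3, mul_inv_rev, mul_assoc, inv_mul_cancel_left]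
        rw [φs u j h1, φs v j h2, e1]
        exact cst j _ _ _
    · intro a w
      by_cases k : D.int a
      · obtain ⟨j, h1, h2, h3⟩ := D.int_in a k
        have e1 : (D.pos (Y.src (Y.rev a)))⁻¹ * (Y.lab a * w) = (D.pos (Y.src a))⁻¹ * w := by
          rw [h3, mul_inv_rev, mul_assoc, inv_mul_cancel_left]
        rw [φs _ j h1, φs _ j h2, e1]
        exact cst j _ _ _
      · rw [φk _ (kept_src k), φk _ (kept_src (not_int_rev k))]
        exact hφ'.da (outA D a k) w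
  have h2 := h.2 T φ hφ
  rw [φk x hx] at h2
  rintro (⟨y, hy⟩ | ⟨j, q⟩) w hw
  · rw [← h2 y w hw, φk y (kept_none hy), nu_none hy]
  · obtain ⟨z0, hz0, _⟩ := D.conn j
    have hw' : w • o = (D.Q j).f q • o := hw
    rw [← h2 z0 (D.pos z0 * (((D.Q j).f q)⁻¹ * w)) (by
      rw [mul_smul, mul_smul, hw', inv_smul_smul, D.pos_f z0 j hz0]), φs z0 j hz0,
      inv_mul_cancel_left, cst j _ _ q, mul_inv_cancel_left]
    rfl

/-- Walks in a gadget, translated and embedded. -/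
theorem embTW {j : D.J} (γ : W) {n m : (D.Q j).Node} {l : ℕ} {ch : (D.Q j).Path}
    (h : (D.Q j).TW tt n m l ch) (hn : n.w = (D.Q j).f n.x) :
    ∃ ch', (Y' D).TW tt ⟨inQ D j n.x, n.w * γ, n.p * γ⟩ ⟨inQ D j m.x, m.w * γ, m.p * γ⟩ l ch' ∧
      ∀ (E : Type) [MulAction W E] (c : (Y' D).Coch E) (ε : E), Cocyc c →
        ev c ch' ε = Phi c j (γ • ε) n.x + Phi c j (γ • ε) m.x := by
  induction h with
  | nil n a _ =>
    exact ⟨[], TW.nil _ (a.mul γ) trivial, fun E _ c ε _ => by rw [ev_nil, F2_add_self]⟩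
  | @edge n n' m l ch s a _ e1 e2 _ ih =>
    obtain ⟨ch', h1, h2⟩ := ih (by rw [e2, hn, (D.Q j).e_f e1, smul_eq_mul])
    refine ⟨_, (TW.edge (n := ⟨inQ D j n.x, n.w * γ, n.p * γ⟩) s (a.mul γ) trivial (e_inQ e1)
      (by simp only [e2, mul_assoc]) h1).cast (by simp only [d_mul]), fun E _ c ε hc => ?_⟩
    rw [ev_cons, h2 E c ε hc]
    show c (.edge s (inQ D j n.x) (inQ D j n'.x)) ((n.w * γ) • ε) + _ = _
    rw [mul_smul, hn, Phi_ed hc _ e1, f2a]
  | @dart n n' m l ch a b _ e1 e2 e3 _ ih =>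
    obtain ⟨ch', h1, h2⟩ := ih (by rw [e3, hn, e2, e1, (D.Q j).f_rev, smul_eq_mul])
    refine ⟨_, (TW.dart (n := ⟨inQ D j n.x, n.w * γ, n.p * γ⟩) (inA D j a) (b.mul γ) trivial
      (congrArg (inQ D j) e1) (congrArg (inQ D j) e2)
      (by simp only [e3, mul_assoc]; rfl) h1).cast (by simp only [d_mul]), fun E _ c ε hc => ?_⟩
    rw [ev_cons, h2 E c ε hc]
    show c (.dart (inA D j a)) ((n.w * γ) • ε) + _ = _
    rw [mul_smul, hn, e1, e2, Phi_da hc, f2a]
  | @stay n n' m l ch a _ e1 e2 _ ih =>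
    obtain ⟨ch', h1, h2⟩ := ih (by rw [e2, hn, e1])
    refine ⟨_, (TW.stay (n := ⟨inQ D j n.x, n.w * γ, n.p * γ⟩) (a.mul γ) trivial
      (congrArg (inQ D j) e1) (by simp only [e2]) h1).cast (by simp only [d_mul]),
      fun E _ c ε hc => ?_⟩
    rw [h2 E c ε hc, e1]

variable (D) in
/-- The image of a node. -/
def nn (n : Y.Node) : (Y' D).Node := ⟨nu D n.x, n.w, n.p⟩

variable (D) in
/-- An entry node for `n`. -/
def Rel (n0 n : Y.Node) : Prop :=
  D.Kept n0.x ∧ Close n0.w n0.p ∧ ((n0.x = n.x ∧ n0.w = n.w) ∨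
    ∃ j, D.comp n0.x = some j ∧ D.comp n.x = some j ∧ (D.pos n0.x)⁻¹ * n0.w = (D.pos n.x)⁻¹ * n.w)

theorem jump {n0 n : Y.Node} (h : Rel D n0 n) (hk : D.Kept n.x) (hc : Close n.w n.p) :
    ∃ ch', (Y' D).TW tt (nn D n0) (nn D n) (d n0.p n.p) ch' ∧
      ∀ (E : Type) [MulAction W E] (c : (Y' D).Coch E) (ε : E), Cocyc c →
        ev c ch' ε = psi c n0.x (n0.w • ε) + psi c n.x (n.w • ε) := by
  obtain ⟨h1, h2, ⟨h3, h4⟩ | ⟨j, h3, h4, h5⟩⟩ := h
  · refine ⟨[], TW.stay (n := nn D n0) (n' := nn D n) h2 trivial (congrArg (nu D) h3.symm) h4.symm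
      (TW.nil _ hc trivial), fun E _ c ε _ => ?_⟩
    rw [ev_nil, h3, h4, F2_add_self]
  · obtain ⟨γ, hγ⟩ : ∃ γ, γ = (D.pos n.x)⁻¹ * n.w := ⟨_, rfl⟩
    have e0 : n0.w = D.pos n0.x * γ := by rw [hγ, ← h5, mul_inv_cancel_left]
    have e1 : n.w = D.pos n.x * γ := by rw [hγ, mul_inv_cancel_left]
    have c0 := h2.mul γ⁻¹
    have c1 := hc.mul γ⁻¹
    rw [e0, mul_inv_cancel_right] at c0
    rw [e1, mul_inv_cancel_right] at c1
    obtain ⟨ch, t⟩ := (D.gad j).sp _ (h1 j h3) _ (hk j h4) _ _ c0 c1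
    obtain ⟨ch', t1, t2⟩ := embTW γ t ((D.gad j).f_ι _ (h1 j h3)).symm
    simp only [inv_mul_cancel_right, d_mul, ← e0, ← e1] at t1
    refine ⟨ch', ?_, fun E _ c ε hc => ?_⟩
    · unfold nn
      rw [nu_some h3, nu_some h4]
      exact t1
    · rw [t2 E c ε hc, psi_some c h3, psi_some c h4, e0, e1, mul_smul, mul_smul, inv_smul_smul,
        inv_smul_smul]

theorem Rel.step {n0 n n' : Y.Node} (h : Rel D n0 n) {j : D.J} {u : W} (h1 : D.comp n.x = some j)
    (h2 : D.comp n'.x = some j) (h3 : D.pos n'.x = u * D.pos n.x) (h4 : n'.w = u * n.w) :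
    Rel D n0 n' := by
  have e : (D.pos n.x)⁻¹ * n.w = (D.pos n'.x)⁻¹ * n'.w := by
    rw [h3, h4, mul_inv_rev, mul_assoc, inv_mul_cancel_left]
  obtain ⟨a, b, ⟨c1, c2⟩ | ⟨j', c1, c2, c3⟩⟩ := h
  · exact ⟨a, b, Or.inr ⟨j, c1 ▸ h1, h2, by rw [c1, c2, e]⟩⟩
  · obtain rfl : j = j' := Option.some.inj (h1.symm.trans c2)
    exact ⟨a, b, Or.inr ⟨j, c1, h2, c3.trans e⟩⟩

theorem Rel.stay {n0 n n' : Y.Node} (h : Rel D n0 n) (h1 : n'.x = n.x) (h2 : n'.w = n.w) :
    Rel D n0 n' := by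
  unfold Rel at h ⊢
  rw [h1, h2]; exact h

theorem f2e (a b v k : F2) : a + b + v + a + k = v + b + k := by revert a b v k; decide

theorem f2f (a k e v b : F2) : e + v + a + k = k + a + (e + (v + b + b)) := by
  revert a k e v b; decide

theorem walk {n m : Y.Node} {l : ℕ} {ch : Y.Path} (h : Y.TW tt n m l ch) (hm : D.Kept m.x) :
    ∀ n0, Rel D n0 n → ∃ l' ch', l' ≤ d n0.p n.p + l ∧ (Y' D).TW tt (nn D n0) (nn D m) l' ch' ∧
      ∀ (E : Type) [MulAction W E] (c : (Y' D).Coch E) (ε : E), Cocyc c →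
        ev (pull c) ch ε + psi c n.x (n.w • ε) + psi c n0.x (n0.w • ε) = ev c ch' ε := by
  induction h with
  | nil n a _ =>
    intro n0 hr
    obtain ⟨ch', h1, h2⟩ := jump hr hm a
    exact ⟨_, ch', le_rfl, h1, fun E _ c ε hc => by
      rw [h2 E c ε hc, ev_nil, zero_add, add_comm]⟩
  | @edge n n' m l ch s a _ e1 e2 t ih =>
    intro n0 hr
    rcases edge_cases (D := D) e1 with k | ⟨j, h1, h2, h3⟩
    · obtain ⟨k1, k2⟩ := kept_edge e1 k
      obtain ⟨ch1, a1, a2⟩ := jump hr k1 a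
      obtain ⟨l2, ch2, b1, b2, b3⟩ := ih hm n' ⟨k2, t.first.1, Or.inl ⟨rfl, rfl⟩⟩
      rw [d_self] at b1
      refine ⟨_, _, ?_, a1.append (TW.edge (n := nn D n) (n' := nn D n') s a trivial (e_out e1 k)
        e2 b2), fun E _ c ε hc => ?_⟩
      · show d n0.p n.p + (d n.p n'.p + l2) ≤ _
        omega
      · rw [ev_append, ev_cons, ev_cons, a2 E c ε hc, ← b3 E c ε hc]
        show pull c (.edge s n.x n'.x) (n.w • ε) + _ + _ + _ =
          _ + (c (.edge s (nu D n.x) (nu D n'.x)) (n.w • ε) + _)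
        rw [pull_out c s k]
        exact f2f _ _ _ _ _
    · obtain ⟨l2, ch2, b1, b2, b3⟩ := ih hm n0 (hr.step h1 h2 h3 e2)
      refine ⟨l2, ch2, ?_, b2, fun E _ c ε hc => ?_⟩
      · have := d_triangle n0.p n.p n'.p
        omega
      · rw [ev_cons, ← b3 E c ε hc]
        show pull c (.edge s n.x n'.x) (n.w • ε) + _ + _ + _ = _
        rw [pull_in c s ⟨ne_none h1, ne_none h2⟩, e2, mul_smul]
        exact f2e _ _ _ _
  | @dart n n' m l ch a b _ e1 e2 e3 t ih =>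
    intro n0 hr
    by_cases k : D.int a
    · obtain ⟨j, h1, h2, h3⟩ := D.int_in a k
      rw [← e1] at h1 h3
      rw [← e2] at h2 h3
      obtain ⟨l2, ch2, b1, b2, b3⟩ := ih hm n0 (hr.step h1 h2 h3 e3)
      refine ⟨l2, ch2, ?_, b2, fun E _ c ε hc => ?_⟩
      · have := d_triangle n0.p n.p n'.p
        omega
      · rw [ev_cons, ← b3 E c ε hc]
        show pull c (.dart a) (n.w • ε) + _ + _ + _ = _
        rw [pull_int c k, ← e1, ← e2, e3, mul_smul]
        exact f2e _ _ _ _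
    · have k1 : D.Kept n.x := e1 ▸ kept_src k
      have k2 : D.Kept n'.x := e2 ▸ kept_src (not_int_rev k)
      obtain ⟨ch1, a1, a2⟩ := jump hr k1 b
      obtain ⟨l2, ch2, b1, b2, b3⟩ := ih hm n' ⟨k2, t.first.1, Or.inl ⟨rfl, rfl⟩⟩
      rw [d_self] at b1
      refine ⟨_, _, ?_, a1.append (TW.dart (n := nn D n) (n' := nn D n') (outA D a k) b trivial
        (congrArg (nu D) e1) (congrArg (nu D) e2) e3 b2), fun E _ c ε hc => ?_⟩
      · show d n0.p n.p + (d n.p n'.p + l2) ≤ _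
        omega
      · rw [ev_append, ev_cons, ev_cons, a2 E c ε hc, ← b3 E c ε hc]
        show pull c (.dart a) (n.w • ε) + _ + _ + _ =
          _ + (c (.dart (outA D a k)) (n.w • ε) + _)
        rw [pull_ext c k]
        exact f2f _ _ _ _ _
  | @stay n n' m l ch a _ e1 e2 t ih =>
    intro n0 hr
    obtain ⟨l2, ch2, b1, b2, b3⟩ := ih hm n0 (hr.stay e1 e2)
    refine ⟨l2, ch2, ?_, b2, fun E _ c ε hc => ?_⟩
    · have := d_triangle n0.p n.p n'.p
      omega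
    · rw [← b3 E c ε hc, e1, e2]

theorem intw {n m : Y.Node} {l : ℕ} {ch : Y.Path} (h : Y.TW tt n m l ch)
    (hi : ∀ lw ∈ ch, D.Int lw.1) (hn : D.comp n.x ≠ none) : (∀ n0, Rel D n0 n → Rel D n0 m) ∧
      ∀ (E : Type) [MulAction W E] (c : (Y' D).Coch E) (ε : E),
        ev (pull c) ch ε = psi c n.x (n.w • ε) + psi c m.x (m.w • ε) := by
  induction h with
  | nil n a _ => exact ⟨fun _ k => k, fun E _ c ε => by rw [ev_nil, F2_add_self]⟩
  | @edge n n' m l ch s a _ e1 e2 t ih =>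
    have k : D.comp n.x ≠ none ∧ D.comp n'.x ≠ none := hi _ List.mem_cons_self
    obtain ⟨b1, b2⟩ := ih (fun lw q => hi lw (List.mem_cons_of_mem _ q)) k.2
    rcases edge_cases (D := D) e1 with q | ⟨j, h1, h2, h3⟩
    · tauto
    refine ⟨fun n0 hr => b1 n0 (hr.step h1 h2 h3 e2), fun E _ c ε => ?_⟩
    rw [ev_cons, b2 E c ε]
    show pull c (.edge s n.x n'.x) (n.w • ε) + _ = _
    rw [pull_in c s k, e2, mul_smul, f2a]
  | @dart n n' m l ch a b _ e1 e2 e3 t ih =>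
    have k : D.int a := hi _ List.mem_cons_self
    obtain ⟨j, h1, h2, h3⟩ := D.int_in a k
    rw [← e1] at h1 h3
    rw [← e2] at h2 h3
    obtain ⟨b1, b2⟩ := ih (fun lw q => hi lw (List.mem_cons_of_mem _ q)) (ne_none h2)
    refine ⟨fun n0 hr => b1 n0 (hr.step h1 h2 h3 e3), fun E _ c ε => ?_⟩
    rw [ev_cons, b2 E c ε]
    show pull c (.dart a) (n.w • ε) + _ = _
    rw [pull_int c k, ← e1, ← e2, e3, mul_smul, f2a]
  | @stay n n' m l ch a _ e1 e2 t ih =>
    obtain ⟨b1, b2⟩ := ih hi (e1 ▸ hn)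
    exact ⟨fun n0 hr => b1 n0 (hr.stay e1 e2), fun E _ c ε => by rw [b2 E c ε, e1, e2]⟩

variable (D) in
/-- The move. -/
noncomputable def move : Move o Y (Y' D) where
  K x x' := D.Kept x ∧ x' = nu D x
  pull _ _ c := pull c
  K_f := by rintro x _ ⟨h, rfl⟩; exact f_nu h
  cocyc _ _ _ hc := pull_cocyc hc
  refl _ _ _ hc h := pull_refl hc h
  trans := by
    rintro n m _ _ l ch ⟨h1, rfl⟩ ⟨h2, rfl⟩ t
    obtain ⟨l', ch', a1, a2, a3⟩ := walk t h2 n ⟨h1, t.first.1, Or.inl ⟨rfl, rfl⟩⟩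
    rw [d_self, zero_add] at a1
    refine ⟨l', ch', a1, a2, fun E _ c ε hc => ?_⟩
    rw [← a3 E c ε hc, add_assoc, F2_add_self, add_zero]
  h0 := by rintro x _ ⟨h, rfl⟩ k; exact h0_nu h k

theorem card_sig : Nat.card (Σ j, (D.Q j).Om) = ∑ j, (D.Q j).vol := Nat.card_sigma

theorem vol_eq : (Y' D).vol = {x | D.comp x = none}.ncard + ∑ j, (D.Q j).vol := by
  show Nat.card (Om' D) = _
  rw [Nat.card_sum, card_sig]
  rfl

theorem area_le : (Y' D).area ≤ Y.nF {x | D.comp x = none} + 12 * ∑ j, (D.Q j).vol := by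
  have h : {p : (Y' D).Om × S | (Y' D).Free p.1 p.2} ⊆
      (fun p : Y.Om × S => ((nu D p.1, p.2) : (Y' D).Om × S)) ''
        {p | p.1 ∈ {x | D.comp x = none} ∧ Y.Free p.1 p.2} ∪
      (fun p : S × (Σ j, (D.Q j).Om) => ((inQ D p.2.1 p.2.2, p.1) : (Y' D).Om × S)) ''
        Set.univ := by
    rintro ⟨⟨x, hx⟩ | ⟨j, q⟩, s⟩ hp
    · refine Or.inl ⟨(x, s), ⟨hx, ?_⟩, Prod.ext (nu_none hx) rfl⟩
      rintro ⟨y, hy⟩
      refine hp ⟨nu D y, ?_⟩
      have := e_out (D := D) hy (Or.inl hx)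
      rwa [nu_none hx] at this
    · exact Or.inr ⟨(s, ⟨j, q⟩), trivial, rfl⟩
  refine (Set.ncard_le_ncard h).trans ((Set.ncard_union_le _ _).trans
    (Nat.add_le_add Set.ncard_image_le (le_trans Set.ncard_image_le ?_)))
  rw [Set.ncard_univ, Nat.card_prod, card_sig]
  simp

end HA

theorem hS : HS := by
  intro B _ o Y D
  refine ⟨HA.Y' D, HA.move D, HA.nu D, fun x h => ⟨h, rfl⟩, HA.vol_eq.le, HA.area_le, ?_⟩
  intro n k l ch t hn h1 h2 hi
  obtain ⟨a1, a2⟩ := HA.intw t hi hn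
  refine ⟨?_, fun e1 e2 E _ c ε _ => ?_⟩
  · obtain ⟨ch', b1, b2⟩ := HA.jump (a1 n ⟨h1, t.first.1, Or.inl ⟨rfl, rfl⟩⟩) h2 t.last.1
    exact ⟨ch', b1, fun E _ c ε hc => (a2 E c ε).trans (b2 E c ε hc).symm⟩
  · refine (a2 E c ε).trans ?_
    rw [e1, e2, F2_add_self, ev_nil]

end Pool.Agent.MP_df844f_gt
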