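import Pool.Agent.MP_df844f_gt.Spec

/-! The initial state: one chamber and one arc for each generator. -/

namespace Pool.Agent.MP_df844f_gt

open PS

namespace InitA

variable {B : Type} [MulAction W B]

/-- One chamber with an arc for each element of `T`. -/
def Y0 (o : B) (T : Finset W) (hT : ∀ x ∈ T, x • o = o) : PS B where
  Om := Unit
  A := T × Bool
  f _ := o
  e _ _ _ := False
  e_symm h := h
  e_f h := h.elim
  rev a := (a.1, !a.2)
  rev_rev a := by simp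
  rev_ne a h := by simpa using congrArg Prod.snd h
  src _ := ()
  lab a := if a.2 then a.1.1 else a.1.1⁻¹
  lab_rev a := by obtain ⟨x, _ | _⟩ := a <;> simp
  f_rev a := by
    obtain ⟨x, _ | _⟩ := a
    · simp only [Bool.false_eq_true, if_false]
      rw [eq_inv_smul_iff]; exact hT _ x.2
    · exact (hT _ x.2).symm

theorem one_dart {Y : PS B} (a : Y.A) (w w' : W) (h : w' = Y.lab a * w) :
    ∃ l, Y.TW tt ⟨Y.src a, w, w⟩ ⟨Y.src (Y.rev a), w', w'⟩ l [(.dart a, w)] :=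
  ⟨_, TW.dart (n := ⟨Y.src a, w, w⟩) (n' := ⟨Y.src (Y.rev a), w', w'⟩) a (Close.refl _) trivial
    rfl rfl h (TW.nil _ (Close.refl _) trivial)⟩

theorem walk {o : B} {T : Finset W} (hT : ∀ x ∈ T, x • o = o) (γ : W)
    (hγ : γ ∈ Subgroup.closure (T : Set W)) :
    ∃ l ch, (Y0 o T hT).TW tt ⟨(), 1, 1⟩ ⟨(), γ, γ⟩ l ch := by
  induction hγ using Subgroup.closure_induction_left with
  | one => exact ⟨0, [], TW.nil _ (Close.refl _) trivial⟩
  | mul_left x hx y _ ih =>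
    obtain ⟨l, ch, h⟩ := ih
    obtain ⟨l', h'⟩ := one_dart (Y := Y0 o T hT) (⟨x, hx⟩, true) y (x * y) rfl
    exact ⟨_, _, h.append h'⟩
  | inv_mul_cancel x hx y _ ih =>
    obtain ⟨l, ch, h⟩ := ih
    obtain ⟨l', h'⟩ := one_dart (Y := Y0 o T hT) (⟨x, hx⟩, false) y (x⁻¹ * y) rfl
    exact ⟨_, _, h.append h'⟩

/-- The end point of a word read from `w`. -/
def wd : List S → W → W
  | [], w => w
  | s :: ω, w => wd ω (g s * w)

/-- The sum of a cochain on `W` along a word. -/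
def sm (η : S → W → F2) : List S → W → F2
  | [], _ => 0
  | s :: ω, w => η s w + sm η ω (g s * w)

/-- Concatenation of chosen paths along a word. -/
def pw {Y : PS B} (om : S → B → Y.Path) (k : S → B → W) : List S → B → Y.Path
  | [], _ => []
  | s :: ω, b => om s b ++ shift (pw om k ω (g s • b)) (k s b)

theorem exists_wd (u : W) : ∃ ω, ∀ w, wd ω w = u * w := by
  induction u using cs.simple_induction_right with
  | one => exact ⟨[], fun w => (one_mul w).symm⟩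
  | mul_simple_right u s ih =>
    obtain ⟨ω, h⟩ := ih
    exact ⟨s :: ω, fun w => (h _).trans (mul_assoc _ _ _).symm⟩

theorem sm_eq {η : S → W → F2} {φ : W → F2} (h : ∀ s x, η s x = φ x + φ (g s * x)) (ω : List S) :
    ∀ w, sm η ω w = φ w + φ (wd ω w) := by
  induction ω with
  | nil => intro w; exact (F2_add_self _).symm
  | cons s ω ih =>
    intro w
    show η s w + sm η ω (g s * w) = φ w + φ (wd ω (g s * w))
    rw [h, ih, add_assoc, ← add_assoc (φ (g s * w)), F2_add_self, zero_add]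

theorem tw_pw {Y : PS B} {x0 : Y.Om} {o : B} {om : S → B → Y.Path} {k : S → B → W} {ret : W → W}
    (hk : ∀ s w, ret (g s * w) = k s (w • o) * ret w)
    (ho : ∀ s b, ∃ l, Y.TW tt ⟨x0, 1, 1⟩ ⟨x0, k s b, k s b⟩ l (om s b)) (ω : List S) :
    ∀ w, ∃ l, Y.TW tt ⟨x0, 1, 1⟩ ⟨x0, ret (wd ω w) * (ret w)⁻¹, ret (wd ω w) * (ret w)⁻¹⟩ l
      (pw om k ω (w • o)) := by
  induction ω with
  | nil =>
    intro w
    show ∃ l, Y.TW tt ⟨x0, 1, 1⟩ ⟨x0, ret w * (ret w)⁻¹, ret w * (ret w)⁻¹⟩ l []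
    rw [mul_inv_cancel]
    exact ⟨0, TW.nil _ (Close.refl _) trivial⟩
  | cons s ω ih =>
    intro w
    obtain ⟨l, h⟩ := ho s (w • o)
    obtain ⟨l', h'⟩ := ih (g s * w)
    have h2 := h'.shift (k s (w • o))
    have e : ret (wd ω (g s * w)) * (ret (g s * w))⁻¹ * k s (w • o) =
        ret (wd ω (g s * w)) * (ret w)⁻¹ := by rw [hk]; group
    simp only [one_mul, e, mul_smul] at h2
    exact ⟨_, h.append h2⟩

theorem ev_pw {Y : PS B} {o : B} {om : S → B → Y.Path} {k : S → B → W} {ret : W → W}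
    (hk : ∀ s w, ret (g s * w) = k s (w • o) * ret w) (c : Y.Coch W) (ε : W) (ω : List S) :
    ∀ w, ev c (pw om k ω (w • o)) (ret w * ε) =
      sm (fun s w => ev c (om s (w • o)) (ret w * ε)) ω w := by
  induction ω with
  | nil => intro w; rfl
  | cons s ω ih =>
    intro w
    show ev c (om s (w • o) ++ shift (pw om k ω (g s • w • o)) (k s (w • o))) (ret w * ε) =
      ev c (om s (w • o)) (ret w * ε) + sm _ ω (g s * w)
    rw [ev_append, ev_shift, ← ih, hk, mul_smul, smul_eq_mul, mul_assoc]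

theorem exists_loops {Y : PS B} {n : Y.Node} {I : Type} [Finite I] (P : I → Y.Path)
    (h : ∀ i, ∃ l, Y.TW tt n n l (P i)) :
    ∃ Λ : List (ℕ × Y.Path), (∀ l ∈ Λ, Y.TW tt n n l.1 l.2) ∧ ∀ i, ∃ l ∈ Λ, l.2 = P i := by
  choose L hL using h
  have := Fintype.ofFinite I
  refine ⟨(Finset.univ : Finset I).toList.map fun i => (L i, P i), ?_, fun i => ⟨(L i, P i), ?_, rfl⟩⟩
  · intro l hl
    obtain ⟨i, -, rfl⟩ := List.mem_map.1 hl
    exact hL i
  · exact List.mem_map.2 ⟨i, by simp, rfl⟩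

theorem rel (h1 : H1S) [Finite B] {o : B} (hB : Trans o) {T : Finset W} (hT : ∀ x ∈ T, x • o = o)
    (hG : ∀ γ : W, γ • o = o → γ ∈ Subgroup.closure (T : Set W)) :
    ∃ Λ : List (ℕ × (Y0 o T hT).Path),
      (∀ l ∈ Λ, (Y0 o T hT).TW tt ⟨(), 1, 1⟩ ⟨(), 1, 1⟩ l.1 l.2) ∧
      ∀ c : (Y0 o T hT).Coch W, Cocyc c → (∀ l ∈ Λ, ∀ ε, ev c l.2 ε = 0) → Cobd c := by
  have ht : ∀ b : B, ∃ w : W, w • o = b ∧ (b = o → w = 1) := by
    intro b
    by_cases e : b = o
    · exact ⟨1, by rw [one_smul, e], fun _ => rfl⟩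
    · obtain ⟨w, hw⟩ := hB b
      exact ⟨w, hw, fun k => (e k).elim⟩
  choose t ht ht1 using ht
  set k : S → B → W := fun s b => (t (g s • b))⁻¹ * g s * t b with hkd
  set ret : W → W := fun w => (t (w • o))⁻¹ * w with hret
  have hk : ∀ s w, ret (g s * w) = k s (w • o) * ret w := by
    intro s w
    simp only [hkd, hret, mul_smul]
    group
  have hr : ∀ γ : W, γ • o = o → ret γ = γ := by
    intro γ hγ
    simp only [hret]
    rw [ht1 _ hγ, inv_one, one_mul]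
  have ho : ∀ s b, ∃ ch, ∃ l, (Y0 o T hT).TW tt ⟨(), 1, 1⟩ ⟨(), k s b, k s b⟩ l ch := by
    intro s b
    obtain ⟨l, ch, h⟩ := walk hT (k s b) (hG _ (by
      simp only [hkd, mul_smul]
      rw [ht, inv_smul_eq_iff, ht]))
    exact ⟨ch, l, h⟩
  choose om ho using ho
  have cl : ∀ (ω : List S) (b : B), (∀ w, wd ω w = w) →
      ∃ l, (Y0 o T hT).TW tt ⟨(), 1, 1⟩ ⟨(), 1, 1⟩ l (pw om k ω b) := by
    intro ω b h
    have := tw_pw hk ho ω (t b)
    rwa [h, mul_inv_cancel, ht] at this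
  obtain ⟨Λ1, a1, b1⟩ := exists_loops (I := S × B) (fun i => pw om k [i.1, i.1] i.2) fun i =>
    cl _ _ fun w => g_mul_g_mul _ _
  obtain ⟨Λ2, a2, b2⟩ := exists_loops (I := {p : S × S // adj p.1 p.2} × B)
    (fun i => pw om k [i.1.1.1, i.1.1.2, i.1.1.1, i.1.1.2] i.2) fun i => cl _ _ fun w => by
      show g i.1.1.2 * (g i.1.1.1 * (g i.1.1.2 * (g i.1.1.1 * w))) = w
      rw [← mul_assoc (g i.1.1.1), g_comm i.1.2, mul_assoc, g_mul_g_mul, g_mul_g_mul]
  choose wo hwo using exists_wd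
  have h3 : ∀ x : T, ∃ ch, (∃ l, (Y0 o T hT).TW tt ⟨(), 1, 1⟩ ⟨(), 1, 1⟩ l ch) ∧
      ∀ (c : (Y0 o T hT).Coch W) (ε : W), Cocyc c →
        ev c ch ε = c (.dart (x, true)) ε + ev c (pw om k (wo x.1) o) ε := by
    intro x
    obtain ⟨l, h⟩ := tw_pw hk ho (wo x.1) 1
    rw [hwo, mul_one, hr 1 (one_smul _ _), hr _ (hT _ x.2), inv_one, mul_one, one_smul] at h
    obtain ⟨ch, hc, hv⟩ := h.reverse
    refine ⟨_, ⟨_, TW.dart (n := ⟨(), 1, 1⟩) (x, true) (Close.refl _) trivial rfl rfl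
      (mul_one _).symm hc⟩, fun c ε hc => ?_⟩
    rw [ev_cons, hv W c ε hc, one_smul]
  choose P3 hP hv using h3
  obtain ⟨Λ3, a3, b3⟩ := exists_loops P3 hP
  refine ⟨Λ1 ++ (Λ2 ++ Λ3), ?_, fun c hc hz => ?_⟩
  · intro l hl
    rcases List.mem_append.1 hl with h | h
    · exact a1 l h
    rcases List.mem_append.1 h with h | h
    · exact a2 l h
    · exact a3 l h
  have key : ∀ ε : W, ∃ φ : W → F2,
      ∀ s x, ev c (om s (x • o)) (ret x * ε) = φ x + φ (g s * x) := by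
    intro ε
    have s1 : ∀ s x, ev c (om s ((g s * x) • o)) (ret (g s * x) * ε) =
        ev c (om s (x • o)) (ret x * ε) := by
      intro s x
      obtain ⟨l, hl, e⟩ := b1 (s, x • o)
      have h := hz l (List.mem_append_left _ hl) (ret x * ε)
      rw [e, ev_pw hk] at h
      simp only [sm, add_zero] at h
      rw [eq_neg_of_add_eq_zero_right h, CharTwo.neg_eq]
    obtain ⟨φ, hφ⟩ := h1 Set.univ (fun _ _ _ _ _ _ => trivial)
      (fun s x => ev c (om s (x • o)) (ret x * ε)) (fun s x _ _ => s1 s x) (by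
        intro s u x hsu _ _ _ _
        obtain ⟨l, hl, e⟩ := b2 (⟨(s, u), hsu⟩, x • o)
        have h := hz l (List.mem_append_right _ (List.mem_append_left _ hl)) (ret x * ε)
        rw [e, ev_pw hk] at h
        simp only [sm, add_zero] at h
        have e1 : g u * (g s * x) = g s * (g u * x) := by
          rw [← mul_assoc, ← g_comm hsu, mul_assoc]
        rw [e1, g_mul_g_mul, s1, s1] at h
        rw [← h]; ring)
    exact ⟨φ, fun s x => hφ s x trivial trivial⟩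
  choose φ hφ using key
  have dt : ∀ (x : T) (ε : W), c (.dart (x, true)) ε =
      φ (t (ε⁻¹ • o))⁻¹ (ε * t (ε⁻¹ • o)) +
        φ (t ((x.1 * ε)⁻¹ • o))⁻¹ (x.1 * ε * t ((x.1 * ε)⁻¹ • o)) := by
    intro x ε
    have e0 : (x.1 * ε)⁻¹ • o = ε⁻¹ • o := by
      rw [mul_inv_rev, mul_smul, inv_smul_eq_iff.2 (hT _ x.2).symm]
    have e1 : (ε * t (ε⁻¹ • o)) • o = o := by rw [mul_smul, ht, smul_inv_smul]
    obtain ⟨l, hl, e⟩ := b3 x
    have h := hz l (List.mem_append_right _ (List.mem_append_right _ hl)) ε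
    rw [e, hv x c ε hc] at h
    have h2 := ev_pw (om := om) hk c (t (ε⁻¹ • o))⁻¹ (wo x.1) (ε * t (ε⁻¹ • o))
    rw [sm_eq (hφ _), hwo, e1, hr _ e1, mul_inv_cancel_right] at h2
    rw [e0, mul_assoc, ← h2, eq_neg_of_add_eq_zero_left h, CharTwo.neg_eq]
  refine ⟨fun _ ε => φ (t (ε⁻¹ • o))⁻¹ (ε * t (ε⁻¹ • o)), fun _ _ _ _ h => h.elim, ?_⟩
  rintro ⟨x, _ | _⟩ ε
  · have h := hc.dsym (x, false) ε
    rw [← h]
    have h2 := dt x (x.1⁻¹ * ε)
    rw [mul_inv_cancel_left, add_comm] at h2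
    exact h2
  · exact dt x ε

end InitA

open InitA in
theorem init (h1 : H1S) : InitS := by
  intro B _ _ o hB T hT
  have hT1 : ∀ x ∈ T, x • o = o := fun x hx =>
    MulAction.mem_stabilizer_iff.1 (hT ▸ Subgroup.subset_closure hx)
  have hG : ∀ γ : W, γ • o = o → γ ∈ Subgroup.closure (T : Set W) := fun γ h =>
    hT ▸ MulAction.mem_stabilizer_iff.2 h
  obtain ⟨Λ, a, b⟩ := rel h1 hB hT1 hG
  refine ⟨Y0 o T hT1, (), meas Λ, ⟨fun h => h.elim, fun _ h => h.elim⟩,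
    ⟨Λ, ⟨⟨rfl, fun X φ hφ x w hw => ?_⟩, ?_, a, b⟩, le_rfl⟩, (Nat.card_unique : Nat.card Unit = 1), ?_⟩
  · obtain ⟨l, ch, h⟩ := walk hT1 w (hG w hw)
    exact h.locC hφ
  · refine ⟨fun i => [(.dart (T.equivFin.symm i, true), 1)], fun i => ⟨(T.equivFin.symm i).1,
      one_dart (Y := Y0 o T hT1) (T.equivFin.symm i, true) 1 _ (mul_one _).symm⟩,
      fun c hc hz => ?_⟩
    have z : ∀ x : T, c (.dart (x, true)) () = 0 := by
      intro x
      have := hz (T.equivFin x)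
      rw [ev_cons, ev_nil, add_zero, Equiv.symm_apply_apply] at this
      exact this
    refine ⟨fun _ _ => 0, fun _ _ _ _ h => h.elim, ?_⟩
    rintro ⟨x, _ | _⟩ ε
    · exact ((hc.dsym (x, false) ε).symm.trans (z x)).trans (add_zero _).symm
    · exact (z x).trans (add_zero _).symm
  · refine (Set.ncard_le_card _).trans ?_
    show Nat.card (Unit × S) ≤ 12
    simp

end Pool.Agent.MP_df844f_gt
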