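import Pool.Agent.MP_df844f_gt.Spec

/-! Removing a bead of degree one. -/

namespace Pool.Agent.MP_df844f_gt

open PS

namespace M1A

variable {B : Type} [MulAction W B] {o : B} {Y : PS B} {Z : Set Y.Om} {pos : Y.Om → W} {a1 : Y.A}

theorem rev_inj {a a' : Y.A} (h : Y.rev a = Y.rev a') : a = a' := by
  rw [← Y.rev_rev a, h, Y.rev_rev]

theorem keep_rev {a : Y.A} (h : a ≠ a1 ∧ a ≠ Y.rev a1) : Y.rev a ≠ a1 ∧ Y.rev a ≠ Y.rev a1 :=
  ⟨fun k => h.2 (by rw [← k, Y.rev_rev]), fun k => h.1 (rev_inj k)⟩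

/-- The restriction to the complement of `Z`. -/
def res (ha : ∀ a, Y.src a ∈ Z ↔ a = a1) : PS B where
  Om := {x // x ∉ Z}
  A := {a // a ≠ a1 ∧ a ≠ Y.rev a1}
  f x := Y.f x.1
  e s x y := Y.e s x.1 y.1
  e_symm := Y.e_symm
  e_f := Y.e_f
  rev a := ⟨Y.rev a.1, keep_rev a.2⟩
  rev_rev a := Subtype.ext (Y.rev_rev a.1)
  rev_ne a h := Y.rev_ne a.1 (congrArg Subtype.val h)
  src a := ⟨Y.src a.1, fun k => a.2.1 ((ha _).1 k)⟩
  lab a := Y.lab a.1
  lab_rev a := Y.lab_rev a.1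
  f_rev a := Y.f_rev a.1

variable (ha : ∀ a, Y.src a ∈ Z ↔ a = a1)

include ha in
theorem out1 : Y.src (Y.rev a1) ∉ Z := fun k => Y.rev_ne a1 ((ha _).1 k)

include ha in
theorem in1 : Y.src a1 ∈ Z := (ha _).2 rfl

open Classical in
noncomputable def pull (E : Type) [MulAction W E] (c : (res ha).Coch E) : Y.Coch E
  | .edge s x y => if h : x ∉ Z ∧ y ∉ Z then c (.edge s ⟨x, h.1⟩ ⟨y, h.2⟩) else fun _ => 0
  | .dart a => if h : a ≠ a1 ∧ a ≠ Y.rev a1 then c (.dart ⟨a, h⟩) else fun _ => 0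

section
variable {E : Type} [MulAction W E] (c : (res ha).Coch E)

theorem pull_out (s : S) {x y : Y.Om} (hx : x ∉ Z) (hy : y ∉ Z) :
    pull ha E c (.edge s x y) = c (.edge s ⟨x, hx⟩ ⟨y, hy⟩) := dif_pos ⟨hx, hy⟩

theorem pull_in (s : S) {x : Y.Om} (y : Y.Om) (hx : x ∈ Z) (ε : E) :
    pull ha E c (.edge s x y) ε = 0 := congrFun (dif_neg fun h => h.1 hx) ε

theorem pull_keep {a : Y.A} (h : a ≠ a1 ∧ a ≠ Y.rev a1) :
    pull ha E c (.dart a) = c (.dart ⟨a, h⟩) := dif_pos h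

theorem pull_drop {a : Y.A} (h : ¬ (a ≠ a1 ∧ a ≠ Y.rev a1)) (ε : E) :
    pull ha E c (.dart a) ε = 0 := congrFun (dif_neg h) ε

end

open Classical in
/-- The retraction on chambers. -/
noncomputable def ret (x : Y.Om) : (res ha).Om :=
  if h : x ∈ Z then ⟨Y.src (Y.rev a1), out1 ha⟩ else ⟨x, h⟩

open Classical in
/-- The retraction on positions. -/
noncomputable def off (Z : Set Y.Om) (pos : Y.Om → W) (a1 : Y.A) (x : Y.Om) (w : W) : W :=
  if x ∈ Z then Y.lab a1 * pos (Y.src a1) * (pos x)⁻¹ * w else w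

theorem ret_out {x : Y.Om} (h : x ∉ Z) : ret ha x = ⟨x, h⟩ := dif_neg h

theorem ret_in {x : Y.Om} (h : x ∈ Z) : ret ha x = ⟨Y.src (Y.rev a1), out1 ha⟩ := dif_pos h

theorem off_out {x : Y.Om} (h : x ∉ Z) (w : W) : off Z pos a1 x w = w := if_neg h

theorem off_in {x : Y.Om} (h : x ∈ Z) (w : W) :
    off Z pos a1 x w = Y.lab a1 * pos (Y.src a1) * (pos x)⁻¹ * w := if_pos h

theorem edge_in (hZ : Y.Bead o Z pos) {s : S} {x y : Y.Om} (e : Y.e s x y) (hx : x ∈ Z) (w : W) :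
    ret ha y = ret ha x ∧ off Z pos a1 y (g s * w) = off Z pos a1 x w := by
  have hy := hZ.shut s x y e hx
  rw [ret_in ha hx, ret_in ha hy, off_in hx, off_in hy, hZ.pos_e s x hx y e]
  refine ⟨rfl, ?_⟩
  rw [mul_inv_rev, g_inv]
  simp only [mul_assoc, g_mul_g_mul]

theorem dart_drop {a : Y.A} (h : ¬ (a ≠ a1 ∧ a ≠ Y.rev a1)) (w : W) :
    ret ha (Y.src (Y.rev a)) = ret ha (Y.src a) ∧
      off Z pos a1 (Y.src (Y.rev a)) (Y.lab a * w) = off Z pos a1 (Y.src a) w := by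
  have h1 : a = a1 ∨ a = Y.rev a1 := by tauto
  rcases h1 with rfl | rfl
  · rw [ret_in ha (in1 ha), ret_out ha (out1 ha), off_in (in1 ha), off_out (out1 ha)]
    exact ⟨rfl, by group⟩
  · rw [Y.rev_rev, ret_in ha (in1 ha), ret_out ha (out1 ha), off_in (in1 ha), off_out (out1 ha),
      Y.lab_rev]
    exact ⟨rfl, by group⟩

theorem trans_aux (hZ : Y.Bead o Z pos) {n m : Y.Node} {l : ℕ} {ch : Y.Path}
    (h : Y.TW tt n m l ch) (hm : m.x ∉ Z) : ∀ p0, Close (off Z pos a1 n.x n.w) p0 →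
    ∃ l' ch', l' ≤ d p0 n.p + l ∧
      (res ha).TW tt ⟨ret ha n.x, off Z pos a1 n.x n.w, p0⟩ ⟨⟨m.x, hm⟩, m.w, m.p⟩ l' ch' ∧
      SameV (pull ha) ch ch' := by
  induction h with
  | nil n a b =>
    intro p0 hp
    rw [off_out hm] at hp
    rw [ret_out ha hm, off_out hm]
    exact ⟨_, _, le_rfl, TW.stay (Y := res ha) (n := ⟨⟨n.x, hm⟩, n.w, p0⟩)
      (n' := ⟨⟨n.x, hm⟩, n.w, n.p⟩) hp trivial rfl rfl (TW.nil _ a trivial), SameV.nil _⟩
  | @edge n n' m l ch s a b e hw t ih =>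
    intro p0 hp
    have tri := d_triangle p0 n.p n'.p
    by_cases hx : n.x ∈ Z
    · obtain ⟨e1, e2⟩ := edge_in ha hZ e hx n.w
      rw [← hw] at e2
      obtain ⟨l', ch', h1, h2, h3⟩ := ih hm p0 (e2 ▸ hp)
      rw [e1, e2] at h2
      refine ⟨l', ch', by omega, h2, fun E _ c ε hc => ?_⟩
      rw [ev_cons, pull_in ha c s _ hx, zero_add, h3 E c ε hc]
    · have hy : n'.x ∉ Z := hZ.shut.compl s _ _ e hx
      obtain ⟨l', ch', h1, h2, h3⟩ := ih hm n'.p (by rw [off_out hy]; exact t.first.1)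
      rw [ret_out ha hy, off_out hy] at h2
      rw [d_self] at h1
      rw [off_out hx] at hp
      rw [ret_out ha hx, off_out hx]
      refine ⟨d p0 n'.p + l', _, by omega, TW.edge (Y := res ha) (n := ⟨⟨n.x, hx⟩, n.w, p0⟩)
        (n' := ⟨⟨n'.x, hy⟩, n'.w, n'.p⟩) s hp trivial e hw h2, fun E _ c ε hc => ?_⟩
      rw [ev_cons, ev_cons, pull_out ha c s hx hy, h3 E c ε hc]
  | @dart n n' m l ch a cl b e e' hw t ih =>
    intro p0 hp
    have tri := d_triangle p0 n.p n'.p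
    by_cases hx : a ≠ a1 ∧ a ≠ Y.rev a1
    · have h0 : n.x ∉ Z := fun k => hx.1 ((ha a).1 (e ▸ k))
      have hy : n'.x ∉ Z := fun k => (keep_rev hx).1 ((ha _).1 (e' ▸ k))
      obtain ⟨l', ch', h1, h2, h3⟩ := ih hm n'.p (by rw [off_out hy]; exact t.first.1)
      rw [ret_out ha hy, off_out hy] at h2
      rw [d_self] at h1
      rw [off_out h0] at hp
      rw [ret_out ha h0, off_out h0]
      refine ⟨d p0 n'.p + l', _, by omega, TW.dart (Y := res ha) (n := ⟨⟨n.x, h0⟩, n.w, p0⟩)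
        (n' := ⟨⟨n'.x, hy⟩, n'.w, n'.p⟩) ⟨a, hx⟩ hp trivial (Subtype.ext e) (Subtype.ext e') hw h2,
        fun E _ c ε hc => ?_⟩
      rw [ev_cons, ev_cons, pull_keep ha c hx, h3 E c ε hc]
    · obtain ⟨e1, e2⟩ := dart_drop (pos := pos) ha hx n.w
      rw [← e, ← e'] at e1
      rw [← hw, ← e, ← e'] at e2
      obtain ⟨l', ch', h1, h2, h3⟩ := ih hm p0 (e2 ▸ hp)
      rw [e1, e2] at h2
      refine ⟨l', ch', by omega, h2, fun E _ c ε hc => ?_⟩
      rw [ev_cons, pull_drop ha c hx, zero_add, h3 E c ε hc]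
  | @stay n n' m l ch a b e hw t ih =>
    intro p0 hp
    have tri := d_triangle p0 n.p n'.p
    obtain ⟨l', ch', h1, h2, h3⟩ := ih hm p0 (by rw [e, hw]; exact hp)
    rw [e, hw] at h2
    exact ⟨l', ch', by omega, h2, h3⟩

/-- The move. -/
noncomputable def move (hZ : Y.Bead o Z pos) : Move o Y (res ha) where
  K x x' := x'.1 = x
  pull := pull ha
  K_f x x' h := congrArg Y.f h
  cocyc E _ c hc := by
    refine ⟨fun s x y ε e => ?_, fun a ε => ?_, fun s t x0 x1 x2 x3 ε h e0 e1 e2 e3 => ?_⟩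
    · by_cases hx : x ∈ Z
      · rw [pull_in ha c s _ hx, pull_in ha c s _ (hZ.shut s x y e hx)]
      · have hy : y ∉ Z := hZ.shut.compl s _ _ e hx
        rw [pull_out ha c s hx hy, pull_out ha c s hy hx]
        exact hc.symm s ⟨x, hx⟩ ⟨y, hy⟩ ε e
    · by_cases h : a ≠ a1 ∧ a ≠ Y.rev a1
      · rw [pull_keep ha c h, pull_keep ha c (keep_rev h)]
        exact hc.dsym ⟨a, h⟩ ε
      · rw [pull_drop ha c h, pull_drop ha c fun k => h (Y.rev_rev a ▸ keep_rev k)]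
    · by_cases h0 : x0 ∈ Z
      · have h1 := hZ.shut _ _ _ e0 h0
        have h2 := hZ.shut _ _ _ e1 h1
        have h3 := hZ.shut _ _ _ e2 h2
        rw [pull_in ha c _ _ h0, pull_in ha c _ _ h1, pull_in ha c _ _ h2, pull_in ha c _ _ h3]
        rfl
      · have h1 : x1 ∉ Z := hZ.shut.compl _ _ _ e0 h0
        have h2 : x2 ∉ Z := hZ.shut.compl _ _ _ e1 h1
        have h3 : x3 ∉ Z := hZ.shut.compl _ _ _ e2 h2
        rw [pull_out ha c _ h0 h1, pull_out ha c _ h1 h2, pull_out ha c _ h2 h3,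
          pull_out ha c _ h3 h0]
        exact hc.sq s t ⟨x0, h0⟩ ⟨x1, h1⟩ ⟨x2, h2⟩ ⟨x3, h3⟩ ε h e0 e1 e2 e3
  refl E _ c _ := by
    rintro ⟨p, hp⟩
    refine ⟨fun x => p x.1, fun s x y ε e => ?_, fun a ε => ?_⟩
    · have h := hp.ed s x.1 y.1 ε e
      rwa [pull_out ha c s x.2 y.2] at h
    · have h := hp.da a.1 ε
      rwa [pull_keep ha c a.2] at h
  trans n m x' y' l ch h1 h2 h := by
    have hn : n.x ∉ Z := h1 ▸ x'.2
    have hm : m.x ∉ Z := h2 ▸ y'.2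
    obtain ⟨l', ch', k1, k2, k3⟩ := trans_aux ha hZ h hm n.p (by
      rw [off_out hn]; exact h.first.1)
    rw [ret_out ha hn, off_out hn] at k2
    rw [d_self, zero_add] at k1
    obtain rfl : x' = ⟨n.x, hn⟩ := Subtype.ext h1
    obtain rfl : y' = ⟨m.x, hm⟩ := Subtype.ext h2
    exact ⟨l', ch', k1, k2, k3⟩
  h0 x x' h := by
    rintro ⟨h1, h2⟩
    subst h
    refine ⟨h1, fun T ψ hψ z w hw => ?_⟩
    have key := h2 T (fun y v => ψ (ret ha y) (off Z pos a1 y v)) ⟨fun s u v w e => ?_,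
      fun a w => ?_⟩ z.1 w hw
    · rwa [ret_out ha z.2, ret_out ha x'.2, off_out z.2, off_out x'.2] at key
    · by_cases hu : u ∈ Z
      · obtain ⟨e1, e2⟩ := edge_in ha hZ e hu w
        rw [e1, e2]
      · have hv : v ∉ Z := hZ.shut.compl _ _ _ e hu
        rw [ret_out ha hu, ret_out ha hv, off_out hu, off_out hv]
        exact hψ.ed s ⟨u, hu⟩ ⟨v, hv⟩ w e
    · by_cases hx : a ≠ a1 ∧ a ≠ Y.rev a1
      · have h0 : Y.src a ∉ Z := fun k => hx.1 ((ha a).1 k)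
        have hy : Y.src (Y.rev a) ∉ Z := fun k => (keep_rev hx).1 ((ha _).1 k)
        rw [ret_out ha h0, ret_out ha hy, off_out h0, off_out hy]
        exact hψ.da ⟨a, hx⟩ w
      · obtain ⟨e1, e2⟩ := dart_drop (pos := pos) ha hx w
        rw [e1, e2]

theorem area_res (hs : Y.Shut Z) : (res ha).area + Y.nF Z ≤ Y.area := by
  let j : (res ha).Om × S → Y.Om × S := fun p => (p.1.1, p.2)
  have hj : Function.Injective j := fun p q k =>
    Prod.ext (Subtype.ext (Prod.ext_iff.1 k).1) (Prod.ext_iff.1 k).2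
  unfold area nF
  rw [← Set.ncard_image_of_injective _ hj, ← Set.ncard_union_eq]
  · refine Set.ncard_le_ncard ?_
    rintro p (⟨q, hq, rfl⟩ | hp)
    · rintro ⟨y, e⟩
      exact hq ⟨⟨y, hs.compl _ _ _ e q.1.2⟩, e⟩
    · exact hp.2
  · rw [Set.disjoint_left]
    rintro p ⟨q, _, rfl⟩ hp
    exact q.1.2 hp.1

end M1A

open M1A in
theorem m1 : M1S := by
  intro B _ o Y Z pos x0 a1 hY hZ hx ha
  refine ⟨res ha, move ha hZ, ⟨x0, hx⟩, rfl, ⟨fun e e' => Subtype.ext (hY.fold e e'),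
    fun h e0 e1 e2 => hY.close h e0 e1 e2⟩, ?_, area_res ha hZ.shut⟩
  exact Nat.card_le_card_of_injective _ Subtype.val_injective

end Pool.Agent.MP_df844f_gt
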