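import Pool.Agent.MP_df844f_gt.Spec

/-! Deleting a bead with two darts. -/

namespace Pool.Agent.MP_df844f_gt

open PS

namespace M2A

/-- A bead with exactly two darts, exchanged by `σ`. -/
structure Dat {B : Type} [MulAction W B] (o : B) (Y : PS B) : Type where
  Z : Set Y.Om
  pos : Y.Om → W
  σ : Y.A → Y.A
  a1 : Y.A
  bead : Y.Bead o Z pos
  h1 : Y.src a1 ∈ Z
  ss : ∀ a, σ (σ a) = a
  sm : ∀ a, Y.src a ∈ Z → Y.src (σ a) ∈ Z
  sn : ∀ a, Y.src a ∈ Z → σ a ≠ a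
  out : ∀ a, Y.src a ∈ Z → Y.src (Y.rev a) ∉ Z
  two : ∀ a a', Y.src a ∈ Z → Y.src a' ∈ Z → a' = a ∨ a' = σ a

namespace Dat

variable {B : Type} [MulAction W B] {o : B} {Y : PS B} (D : Dat o Y)

open Classical in
noncomputable def rv (a : Y.A) : Y.A :=
  if Y.src (Y.rev a) ∈ D.Z then Y.rev (D.σ (Y.rev a)) else Y.rev a

open Classical in
noncomputable def lb (a : Y.A) : W :=
  if Y.src (Y.rev a) ∈ D.Z then
    Y.lab (D.σ (Y.rev a)) * (D.pos (Y.src (D.σ (Y.rev a))) * ((D.pos (Y.src (Y.rev a)))⁻¹ * Y.lab a))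
  else Y.lab a

theorem rv_in {a : Y.A} (h : Y.src (Y.rev a) ∈ D.Z) : D.rv a = Y.rev (D.σ (Y.rev a)) := if_pos h
theorem rv_out {a : Y.A} (h : Y.src (Y.rev a) ∉ D.Z) : D.rv a = Y.rev a := if_neg h
theorem lb_in {a : Y.A} (h : Y.src (Y.rev a) ∈ D.Z) : D.lb a = Y.lab (D.σ (Y.rev a)) *
    (D.pos (Y.src (D.σ (Y.rev a))) * ((D.pos (Y.src (Y.rev a)))⁻¹ * Y.lab a)) := if_pos h
theorem lb_out {a : Y.A} (h : Y.src (Y.rev a) ∉ D.Z) : D.lb a = Y.lab a := if_neg h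

theorem rv_not (a : Y.A) : Y.src (D.rv a) ∉ D.Z := by
  by_cases h : Y.src (Y.rev a) ∈ D.Z
  · rw [D.rv_in h]; exact D.out _ (D.sm _ h)
  · rwa [D.rv_out h]

theorem rv_in' {a : Y.A} (h : Y.src (Y.rev a) ∈ D.Z) : Y.src (Y.rev (D.rv a)) ∈ D.Z := by
  rw [D.rv_in h, Y.rev_rev]; exact D.sm _ h

theorem e_out {s : S} {x y : Y.Om} (h : Y.e s x y) (hx : x ∉ D.Z) : y ∉ D.Z :=
  D.bead.shut.compl s x y h hx

/-- The prestate without the bead. -/
noncomputable def Y' : PS B where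
  Om := {x // x ∉ D.Z}
  A := {a // Y.src a ∉ D.Z}
  f x := Y.f x.1
  e s x y := Y.e s x.1 y.1
  e_symm h := Y.e_symm h
  e_f h := Y.e_f h
  rev a := ⟨D.rv a.1, D.rv_not a.1⟩
  rev_rev a := Subtype.ext (by
    show D.rv (D.rv a.1) = a.1
    by_cases h : Y.src (Y.rev a.1) ∈ D.Z
    · rw [D.rv_in (D.rv_in' h), D.rv_in h, Y.rev_rev, D.ss, Y.rev_rev]
    · rw [D.rv_out h, D.rv_out (by rw [Y.rev_rev]; exact a.2), Y.rev_rev])
  rev_ne a := fun e => by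
    have e' : D.rv a.1 = a.1 := congrArg Subtype.val e
    by_cases h : Y.src (Y.rev a.1) ∈ D.Z
    · rw [D.rv_in h] at e'
      exact D.sn _ h (by rw [← Y.rev_rev (D.σ _), e'])
    · rw [D.rv_out h] at e'
      exact Y.rev_ne _ e'
  src a := ⟨Y.src a.1, a.2⟩
  lab a := D.lb a.1
  lab_rev a := by
    show D.lb (D.rv a.1) = (D.lb a.1)⁻¹
    by_cases h : Y.src (Y.rev a.1) ∈ D.Z
    · rw [D.lb_in (D.rv_in' h), D.lb_in h, D.rv_in h, Y.rev_rev, D.ss, Y.lab_rev, Y.lab_rev]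
      group
    · rw [D.rv_out h, D.lb_out h, D.lb_out (by rw [Y.rev_rev]; exact a.2), Y.lab_rev]
  f_rev a := by
    show Y.f (Y.src (D.rv a.1)) = D.lb a.1 • Y.f (Y.src a.1)
    by_cases h : Y.src (Y.rev a.1) ∈ D.Z
    · rw [D.rv_in h, D.lb_in h, Y.f_rev (D.σ _), mul_smul, mul_smul, mul_smul, ← Y.f_rev a.1,
        ← D.bead.pos_f _ h, inv_smul_smul, D.bead.pos_f _ (D.sm _ h)]
    · rw [D.rv_out h, D.lb_out h, Y.f_rev]

/-- The surviving dart opposite to `a`. -/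
def op (a : Y.A) (h : Y.src a ∈ D.Z) : D.Y'.A := ⟨Y.rev a, D.out a h⟩

variable {E : Type} [MulAction W E]

open Classical in
noncomputable def wt (c : D.Y'.Coch E) (a : Y.A) (ε : E) : F2 :=
  if a = D.a1 then c (.dart (D.op D.a1 D.h1)) (Y.lab D.a1 • ε) else 0

open Classical in
noncomputable def pull (c : D.Y'.Coch E) : Y.Coch E
  | .edge s x y => fun ε =>
      if h : x ∉ D.Z ∧ y ∉ D.Z then c (.edge s ⟨x, h.1⟩ ⟨y, h.2⟩) ε else 0
  | .dart a => fun ε =>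
      if h : Y.src a ∈ D.Z then D.wt c a ε
      else if Y.src (Y.rev a) ∈ D.Z then D.wt c (Y.rev a) (Y.lab a • ε) else c (.dart ⟨a, h⟩) ε

variable (c : D.Y'.Coch E)

theorem pull_eo (s : S) {x y : Y.Om} (hx : x ∉ D.Z) (hy : y ∉ D.Z) (ε : E) :
    D.pull c (.edge s x y) ε = c (.edge s ⟨x, hx⟩ ⟨y, hy⟩) ε := dif_pos ⟨hx, hy⟩

theorem pull_ei (s : S) {x : Y.Om} (y : Y.Om) (hx : x ∈ D.Z) (ε : E) :
    D.pull c (.edge s x y) ε = 0 := dif_neg fun h => h.1 hx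

theorem pull_di {a : Y.A} (h : Y.src a ∈ D.Z) (ε : E) : D.pull c (.dart a) ε = D.wt c a ε :=
  dif_pos h

theorem pull_de {a : Y.A} (h : Y.src a ∉ D.Z) (k : Y.src (Y.rev a) ∈ D.Z) (ε : E) :
    D.pull c (.dart a) ε = D.wt c (Y.rev a) (Y.lab a • ε) := (dif_neg h).trans (if_pos k)

theorem pull_do {a : Y.A} (h : Y.src a ∉ D.Z) (k : Y.src (Y.rev a) ∉ D.Z) (ε : E) :
    D.pull c (.dart a) ε = c (.dart ⟨a, h⟩) ε := (dif_neg h).trans (if_neg k)

variable {c}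

/-- The value of the joined arc. -/
theorem key (hc : Cocyc c) {b : Y.A} (h : Y.src b ∉ D.Z) (k : Y.src (Y.rev b) ∈ D.Z) (ε : E) :
    D.wt c (Y.rev b) (Y.lab b • ε) + D.wt c (D.σ (Y.rev b))
      ((D.pos (Y.src (D.σ (Y.rev b))) * ((D.pos (Y.src (Y.rev b)))⁻¹ * Y.lab b)) • ε) =
      c (.dart ⟨b, h⟩) ε := by
  unfold wt
  rcases D.two _ _ k D.h1 with e | e
  · have e2 : D.op D.a1 D.h1 = ⟨b, h⟩ := Subtype.ext (by
      show Y.rev D.a1 = b
      rw [e, Y.rev_rev])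
    rw [if_pos e.symm, if_neg (by rw [e]; exact D.sn _ k), add_zero, e2, e, Y.lab_rev,
      inv_smul_smul]
  · have e2 : D.op D.a1 D.h1 = D.Y'.rev ⟨b, h⟩ := Subtype.ext (by
      show Y.rev D.a1 = D.rv b
      rw [D.rv_in k, e])
    have e3 := hc.dsym ⟨b, h⟩ ε
    have e4 : D.Y'.lab ⟨b, h⟩ = _ := D.lb_in k
    rw [if_neg (by rw [e]; exact (D.sn _ k).symm), if_pos e.symm, zero_add, e2, ← e3, e4, e,
      mul_smul (Y.lab _)]

theorem cocyc (hc : Cocyc c) : Cocyc (D.pull c) where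
  symm s x y ε h := by
    by_cases hx : x ∈ D.Z
    · rw [D.pull_ei c s y hx, D.pull_ei c s x (D.bead.shut s x y h hx)]
    · rw [D.pull_eo c s hx (D.e_out h hx), D.pull_eo c s (D.e_out h hx) hx]
      exact hc.symm s ⟨x, hx⟩ ⟨y, D.e_out h hx⟩ ε h
  dsym a ε := by
    by_cases h : Y.src a ∈ D.Z
    · rw [D.pull_di c h, D.pull_de c (D.out a h) (by rwa [Y.rev_rev]), Y.rev_rev, Y.lab_rev,
        inv_smul_smul]
    · by_cases k : Y.src (Y.rev a) ∈ D.Z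
      · rw [D.pull_di c k, D.pull_de c h k]
      · have e3 := hc.dsym ⟨a, h⟩ ε
        have e4 : D.Y'.lab ⟨a, h⟩ = _ := D.lb_out k
        have e2 : D.Y'.rev ⟨a, h⟩ = ⟨Y.rev a, k⟩ := Subtype.ext (D.rv_out k)
        rw [D.pull_do c h k, D.pull_do c k (by rwa [Y.rev_rev]), ← e3, e2, e4]
  sq s t x0 x1 x2 x3 ε h e0 e1 e2 e3 := by
    by_cases h0 : x0 ∈ D.Z
    · have h1 := D.bead.shut _ _ _ e0 h0
      have h2 := D.bead.shut _ _ _ e1 h1
      have h3 := D.bead.shut _ _ _ e2 h2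
      rw [D.pull_ei c s _ h0, D.pull_ei c t _ h1, D.pull_ei c s _ h2, D.pull_ei c t _ h3]
      rfl
    · have h1 := D.e_out e0 h0
      have h2 := D.e_out e1 h1
      have h3 := D.e_out e2 h2
      rw [D.pull_eo c s h0 h1, D.pull_eo c t h1 h2, D.pull_eo c s h2 h3, D.pull_eo c t h3 h0]
      exact hc.sq s t ⟨x0, h0⟩ ⟨x1, h1⟩ ⟨x2, h2⟩ ⟨x3, h3⟩ ε h e0 e1 e2 e3

theorem const {φ : Y.Om → E → F2} (hφ : IsD (D.pull c) φ) {n : ℕ} {x y : Y.Om} (h : Y.Near n x y)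
    (hx : x ∈ D.Z) (δ : E) : φ x (D.pos x • δ) = φ y (D.pos y • δ) := by
  induction h with
  | refl => rfl
  | @step n s x y z he _ ih =>
    have h1 := hφ.ed s x y (D.pos x • δ) he
    rw [D.pull_ei c s y hx, ← mul_smul, ← D.bead.pos_e s x hx y he] at h1
    rw [← ih (D.bead.shut _ _ _ he hx), ← add_zero (φ x _), h1, ← add_assoc, F2_add_self, zero_add]

theorem refl (hc : Cocyc c) (h : Cobd (D.pull c)) : Cobd c := by
  obtain ⟨φ, hφ⟩ := h
  refine ⟨fun x => φ x.1, fun s x y ε h => ?_, fun a ε => ?_⟩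
  · rw [← hφ.ed s x.1 y.1 ε h, D.pull_eo c s x.2 y.2]
    rfl
  · obtain ⟨b, h⟩ := a
    show _ = φ (Y.src b) ε + φ (Y.src (D.rv b)) (D.lb b • ε)
    by_cases k : Y.src (Y.rev b) ∈ D.Z
    · obtain ⟨n, hn⟩ := D.bead.conn _ k _ (D.sm _ k)
      have h1 := D.const hφ hn k (((D.pos (Y.src (Y.rev b)))⁻¹ * Y.lab b) • ε)
      rw [← mul_smul, mul_inv_cancel_left, ← mul_smul] at h1
      rw [← D.key hc h k, ← D.pull_de c h k, ← D.pull_di c (D.sm _ k), hφ.da, hφ.da, h1,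
        D.rv_in k, D.lb_in k, mul_smul (Y.lab _), add_assoc, ← add_assoc (φ (Y.src (D.σ _)) _),
        F2_add_self, zero_add]
    · rw [← D.pull_do c h k, hφ.da, D.rv_out k, D.lb_out k]

theorem h0 (x : D.Y'.Om) (h : Y.H0 o x.1) : D.Y'.H0 o x := by
  classical
  refine ⟨h.1, fun T φ hφ y w hw => ?_⟩
  let ψ : W → T := fun δ =>
    φ (D.Y'.src (D.op D.a1 D.h1)) (Y.lab D.a1 * (D.pos (Y.src D.a1) * δ))
  let φ0 : Y.Om → W → T := fun z v => if k : z ∈ D.Z then ψ ((D.pos z)⁻¹ * v) else φ ⟨z, k⟩ v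
  have pi : ∀ z v, z ∈ D.Z → φ0 z v = ψ ((D.pos z)⁻¹ * v) := fun z v k => dif_pos k
  have po : ∀ z v (k : z ∉ D.Z), φ0 z v = φ ⟨z, k⟩ v := fun z v k => dif_neg k
  have da : ∀ a, Y.src a ∈ D.Z → ∀ v, φ0 (Y.src (Y.rev a)) (Y.lab a * v) = φ0 (Y.src a) v := by
    intro a k v
    rw [pi _ _ k, po _ _ (D.out a k)]
    rcases D.two _ _ k D.h1 with e | e
    · subst e
      simp only [ψ, mul_inv_cancel_left]
      rfl
    · have k' : Y.src (Y.rev (Y.rev a)) ∈ D.Z := by rwa [Y.rev_rev]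
      have e2 : D.Y'.rev (D.op a k) = D.op D.a1 D.h1 := Subtype.ext (by
        show D.rv (Y.rev a) = Y.rev D.a1
        rw [D.rv_in k', Y.rev_rev, e])
      have e4 : D.Y'.lab (D.op a k) = _ := D.lb_in k'
      have e3 := hφ.da (D.op a k) (Y.lab a * v)
      rw [e2, e4] at e3
      simp only [op, Y.rev_rev, ← e, Y.lab_rev, mul_assoc, inv_mul_cancel_left] at e3
      exact e3.symm
  have hl : LocC φ0 := by
    refine ⟨fun s x y v e => ?_, fun a v => ?_⟩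
    · by_cases hx : x ∈ D.Z
      · rw [pi _ _ hx, pi _ _ (D.bead.shut _ _ _ e hx), D.bead.pos_e s x hx y e, mul_inv_rev, g_inv,
          mul_assoc, g_mul_g_mul]
      · rw [po _ _ hx, po _ _ (D.e_out e hx)]
        exact hφ.ed s ⟨x, hx⟩ ⟨y, D.e_out e hx⟩ v e
    · by_cases h1 : Y.src a ∈ D.Z
      · exact da a h1 v
      · by_cases k : Y.src (Y.rev a) ∈ D.Z
        · rw [← da _ k, Y.rev_rev, Y.lab_rev, inv_mul_cancel_left]
        · have e3 := hφ.da ⟨a, h1⟩ v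
          have e4 : D.Y'.lab ⟨a, h1⟩ = _ := D.lb_out k
          have e2 : D.Y'.rev ⟨a, h1⟩ = ⟨Y.rev a, k⟩ := Subtype.ext (D.rv_out k)
          rw [e2, e4] at e3
          rw [po _ _ h1, po _ _ k]
          exact e3
  have := h.2 T φ0 hl y.1 w hw
  rwa [po _ _ y.2, po _ _ x.2] at this

theorem walk {n m : Y.Node} {l : ℕ} {ch : Y.Path} (h : Y.TW tt n m l ch) (hm : m.x ∉ D.Z) :
    (∀ hn : n.x ∉ D.Z, ∃ l' ch', l' ≤ l ∧
      D.Y'.TW tt ⟨⟨n.x, hn⟩, n.w, n.p⟩ ⟨⟨m.x, hm⟩, m.w, m.p⟩ l' ch' ∧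
      ∀ (E : Type) [MulAction W E] (c : D.Y'.Coch E) (ε : E), Cocyc c →
        ev (D.pull c) ch ε = ev c ch' ε) ∧
    (n.x ∈ D.Z → ∀ (b : Y.A) (hb : Y.src b ∉ D.Z) (w0 p0 : W), Y.src (Y.rev b) ∈ D.Z →
      Close w0 p0 → n.w = D.pos n.x * ((D.pos (Y.src (Y.rev b)))⁻¹ * Y.lab b) * w0 →
      ∃ l' ch', l' ≤ d p0 n.p + l ∧
        D.Y'.TW tt ⟨⟨Y.src b, hb⟩, w0, p0⟩ ⟨⟨m.x, hm⟩, m.w, m.p⟩ l' ch' ∧
        ∀ (E : Type) [MulAction W E] (c : D.Y'.Coch E) (ε : E), Cocyc c →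
          D.wt c (Y.rev b) (Y.lab b • w0 • ε) + ev (D.pull c) ch ε = ev c ch' ε) := by
  induction h with
  | nil n a b => exact ⟨fun hn => ⟨0, [], le_rfl, TW.nil _ a trivial, fun _ _ _ _ _ => rfl⟩,
      fun hn => absurd hn hm⟩
  | @edge n n' m l ch s a _ e ew _ ih =>
    refine ⟨fun hn => ?_, fun hn b hb w0 p0 k cl hw => ?_⟩
    · obtain ⟨l', ch', h1, h2, h3⟩ := (ih hm).1 (D.e_out e hn)
      refine ⟨_, _, Nat.add_le_add_left h1 _, TW.edge (Y := D.Y') (n := ⟨⟨n.x, hn⟩, n.w, n.p⟩)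
        (n' := ⟨⟨n'.x, D.e_out e hn⟩, n'.w, n'.p⟩) s a trivial e ew h2, fun E _ c ε hc => ?_⟩
      rw [ev_cons, ev_cons, h3 E c ε hc, D.pull_eo c s hn (D.e_out e hn)]
    · obtain ⟨l', ch', h1, h2, h3⟩ := (ih hm).2 (D.bead.shut _ _ _ e hn) b hb w0 p0 k cl (by
        rw [ew, hw, D.bead.pos_e s _ hn _ e]
        simp only [mul_assoc])
      have := d_triangle p0 n.p n'.p
      refine ⟨l', ch', by omega, h2, fun E _ c ε hc => ?_⟩
      rw [ev_cons, D.pull_ei c s _ hn, zero_add, h3 E c ε hc]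
  | @dart n n' m l ch a cl0 _ e1 e2 ew _ ih =>
    refine ⟨fun hn => ?_, fun hn b hb w0 p0 k cl hw => ?_⟩
    · have ha : Y.src a ∉ D.Z := e1 ▸ hn
      by_cases k : Y.src (Y.rev a) ∈ D.Z
      · obtain ⟨l', ch', h1, h2, h3⟩ := (ih hm).2 (e2 ▸ k) a ha n.w n.p k cl0 (by
          rw [ew, e2, mul_inv_cancel_left])
        have e3 : (⟨Y.src a, ha⟩ : D.Y'.Om) = ⟨n.x, hn⟩ := Subtype.ext e1.symm
        rw [e3] at h2
        refine ⟨l', ch', h1, h2, fun E _ c ε hc => ?_⟩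
        rw [ev_cons, D.pull_de c ha k, h3 E c ε hc]
      · obtain ⟨l', ch', h1, h2, h3⟩ := (ih hm).1 (e2 ▸ k)
        refine ⟨_, _, Nat.add_le_add_left h1 _, TW.dart (Y := D.Y') (n := ⟨⟨n.x, hn⟩, n.w, n.p⟩)
          ⟨a, ha⟩ cl0 trivial (Subtype.ext e1) (Subtype.ext (e2.trans ?_)) (ew.trans ?_) h2,
          fun E _ c ε hc => ?_⟩
        · exact congrArg Y.src (D.rv_out k).symm
        · exact congrArg (· * n.w) (D.lb_out k).symm
        · rw [ev_cons, ev_cons, h3 E c ε hc, D.pull_do c ha k]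
    · have ha : Y.src a ∈ D.Z := e1 ▸ hn
      have hn' : n'.x ∉ D.Z := e2 ▸ D.out a ha
      obtain ⟨l', ch', h1, h2, h3⟩ := (ih hm).1 hn'
      have := d_triangle p0 n.p n'.p
      rcases D.two _ _ k ha with e | e
      · have hw' : n.w = Y.lab b * w0 := by rw [hw, e1, e, mul_inv_cancel_left]
        refine ⟨_, ch', ?_, TW.stay (Y := D.Y') (n := ⟨⟨Y.src b, hb⟩, w0, p0⟩) cl trivial
          (Subtype.ext (e2.trans ?_)) (ew.trans ?_) h2, fun E _ c ε hc => ?_⟩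
        · show d p0 n'.p + l' ≤ _
          omega
        · rw [e, Y.rev_rev]
        · rw [hw', e, Y.lab_rev, inv_mul_cancel_left]
        · rw [ev_cons, D.pull_di c ha, hw', e, mul_smul, ← add_assoc, F2_add_self, zero_add,
            h3 E c ε hc]
      · refine ⟨_, _, ?_, TW.dart (Y := D.Y') (n := ⟨⟨Y.src b, hb⟩, w0, p0⟩) ⟨b, hb⟩ cl trivial rfl
          (Subtype.ext (e2.trans ?_)) (ew.trans ?_) h2, fun E _ c ε hc => ?_⟩
        · show d p0 n'.p + l' ≤ _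
          omega
        · show _ = Y.src (D.rv b)
          rw [D.rv_in k, e]
        · show _ = D.lb b * w0
          rw [D.lb_in k, hw, e1, e]
          simp only [mul_assoc]
        · rw [ev_cons, ev_cons, D.pull_di c ha, ← h3 E c ε hc, ← D.key hc hb k, hw, e1, e,
            ← add_assoc, mul_smul _ w0]
  | @stay n n' m l ch a _ e ew _ ih =>
    refine ⟨fun hn => ?_, fun hn b hb w0 p0 k cl hw => ?_⟩
    · obtain ⟨l', ch', h1, h2, h3⟩ := (ih hm).1 (e ▸ hn)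
      exact ⟨_, _, Nat.add_le_add_left h1 _, TW.stay (Y := D.Y') (n := ⟨⟨n.x, hn⟩, n.w, n.p⟩) a
        trivial (Subtype.ext e) ew h2, h3⟩
    · obtain ⟨l', ch', h1, h2, h3⟩ := (ih hm).2 (e ▸ hn) b hb w0 p0 k cl (by rw [ew, hw, e])
      have := d_triangle p0 n.p n'.p
      exact ⟨l', ch', by omega, h2, h3⟩

/-- The move. -/
noncomputable def move : Move o Y D.Y' where
  K x x' := x'.1 = x
  pull _ _ c := D.pull c
  K_f := by rintro x x' rfl; rfl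
  cocyc _ _ _ hc := D.cocyc hc
  refl _ _ _ hc h := D.refl hc h
  trans := by
    rintro ⟨x, w, p⟩ ⟨y, w', p'⟩ x' y' l ch rfl rfl h
    exact (D.walk h y'.2).1 x'.2
  h0 := by rintro x x' rfl h; exact D.h0 x' h

theorem area : D.Y'.area + Y.nF D.Z ≤ Y.area := by
  have hi : Function.Injective fun p : D.Y'.Om × S => (p.1.1, p.2) := fun p q h =>
    Prod.ext (Subtype.ext (congrArg Prod.fst h)) (congrArg (fun r : Y.Om × S => r.2) h)
  unfold PS.area PS.nF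
  rw [← Set.ncard_image_of_injective _ hi, ← Set.ncard_union_eq]
  · refine Set.ncard_le_ncard ?_
    rintro _ (⟨p, hp, rfl⟩ | hp)
    · exact fun ⟨y, e⟩ => hp ⟨⟨y, D.e_out e p.1.2⟩, e⟩
    · exact hp.2
  · rw [Set.disjoint_left]
    rintro _ ⟨p, _, rfl⟩ hq
    exact p.1.2 hq.1

end Dat

end M2A

theorem m2 : M2S := by
  classical
  intro B _ o Y Z pos x0 a1 a2 hY hZ hx hne hrev h
  have r1 : Y.src (Y.rev a1) ∉ Z := fun k => ((h _).1 k).elim (Y.rev_ne a1) hrev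
  have r2 : Y.src (Y.rev a2) ∉ Z := fun k => ((h _).1 k).elim
    (fun e => hrev (by rw [← e, Y.rev_rev])) (Y.rev_ne a2)
  let D : M2A.Dat o Y :=
    { Z := Z, pos := pos, σ := Equiv.swap a1 a2, a1 := a1, bead := hZ
      h1 := (h _).2 (Or.inl rfl)
      ss := Equiv.swap_apply_self a1 a2
      sm := fun a k => (h _).2 (by rcases (h a).1 k with rfl | rfl <;> simp)
      sn := fun a k => by
        rcases (h a).1 k with rfl | rfl
        · rw [Equiv.swap_apply_left]; exact hne.symm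
        · rw [Equiv.swap_apply_right]; exact hne
      out := fun a k => by rcases (h a).1 k with rfl | rfl <;> assumption
      two := fun a a' k k' => by
        rcases (h a).1 k with rfl | rfl <;> rcases (h a').1 k' with rfl | rfl <;> simp }
  refine ⟨D.Y', D.move, ⟨x0, hx⟩, rfl, ⟨fun e e' => Subtype.ext (hY.fold e e'),
    fun a e0 e1 e2 => hY.close a e0 e1 e2⟩, ?_, D.area⟩
  exact Nat.card_le_card_of_injective _ Subtype.val_injective

end Pool.Agent.MP_df844f_gt
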