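import Pool.Agent.MP_df844f_gt.Spec

/-! Row PUSH: one tracked loop is shortened or killed at bounded cost. -/

namespace Pool.Agent.MP_df844f_gt

open PS

namespace PushA

variable {B : Type} [MulAction W B] {o : B} {Y : PS B}

/-- A walk split at a node whose shadow is farthest from `c`. -/
def Spl (Y : PS B) (c : W) (n k : Y.Node) (l : ℕ) (ch : Y.Path) : Prop :=
  ∃ (y : Y.Node) (l1 l2 : ℕ) (c1 c2 : Y.Path), l = l1 + l2 ∧ ch = c1 ++ c2 ∧
    Y.TW (fun _ p => d c p ≤ d c y.p) n y l1 c1 ∧ Y.TW (fun _ p => d c p ≤ d c y.p) y k l2 c2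

theorem spl_step {c : W} {n n' k : Y.Node} {l e : ℕ} {ch : Y.Path} (pre : Y.Path)
    (hn : Close n.w n.p)
    (cons : ∀ (P : W → W → Prop) (m : Y.Node) (l : ℕ) (ch : Y.Path), P n.w n.p →
      Y.TW P n' m l ch → Y.TW P n m (e + l) (pre ++ ch))
    (h : Spl Y c n' k l ch) : Spl Y c n k (e + l) (pre ++ ch) := by
  obtain ⟨y, l1, l2, c1, c2, rfl, rfl, h1, h2⟩ := h
  by_cases q : d c n.p ≤ d c y.p
  · exact ⟨y, e + l1, l2, pre ++ c1, c2, by omega, by rw [List.append_assoc],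
      cons _ _ _ _ q h1, h2⟩
  · refine ⟨n, 0, e + (l1 + l2), [], pre ++ (c1 ++ c2), by omega, rfl, TW.nil n hn le_rfl, ?_⟩
    exact cons _ _ _ _ le_rfl ((h1.append h2).mono fun w p _ a => by omega)

theorem spl {P : W → W → Prop} (c : W) {n k : Y.Node} {l : ℕ} {ch : Y.Path}
    (h : Y.TW P n k l ch) : Spl Y c n k l ch := by
  induction h with
  | nil n a _ => exact ⟨n, 0, 0, [], [], rfl, rfl, TW.nil n a le_rfl, TW.nil n a le_rfl⟩
  | edge s a _ e1 e2 _ ih =>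
    exact spl_step [_] a (fun P m l ch p t => TW.edge s a p e1 e2 t) ih
  | dart z a _ e1 e2 e3 _ ih =>
    exact spl_step [_] a (fun P m l ch p t => TW.dart z a p e1 e2 e3 t) ih
  | stay a _ e1 e2 _ ih =>
    exact spl_step [] a (fun P m l ch p t => TW.stay a p e1 e2 t) ih

/-- Closing up keeps the invariant, the measure, the volume and the area. -/
theorem closeUp (cl : ClosS) {x : Y.Om} {r : ℕ} {Λ : List (ℕ × Y.Path)} (h : Y.InvL o x r Λ) :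
    ∃ (Y' : PS B) (x' : Y'.Om) (Λ' : List (ℕ × Y'.Path)), Y'.State ∧ Y'.InvL o x' r Λ' ∧
      meas Λ' ≤ meas Λ ∧ Y'.vol ≤ Y.vol ∧ Y'.area ≤ Y.area := by
  obtain ⟨Y', φ, hs, hg, hc, hn⟩ := cl B Y
  have hK : (φ.move o hg).K x (φ.π x) := rfl
  obtain ⟨Λ', a, b, c⟩ := (φ.move o hg).list hK Λ h.loops
  refine ⟨Y', φ.π x, Λ', hs, (φ.move o hg).invL hK h b fun l hl => Or.inr (c l hl), a, ?_, ?_⟩
  · have := φ.vol_le
    omega
  · have := hc.area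
    omega

end PushA

open PushA in
theorem push (cw : CutWS) (sh : ShortS) (cl : ClosS) (de : DehnS) (cd : CloseDS) : PushS := by
  obtain ⟨C, hC⟩ := sh 627
  refine ⟨C + 24, 2 * 627 + 2, fun B _ o th Y x0 r l Λ h => ?_⟩
  suffices H : ∃ (Y' : PS B) (x0' : Y'.Om) (Λ' : List (ℕ × Y'.Path)), Y'.InvL o x0' r Λ' ∧
      meas Λ' < meas (l :: Λ) ∧ Y'.vol ≤ Y.vol + (C + 24) ∧ Y'.area ≤ Y.area + (C + 24) by
    obtain ⟨Y', x', Λ', a, b, c, e⟩ := H
    obtain ⟨Y'', x'', Λ'', s, a', b', c', e'⟩ := closeUp cl a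
    exact ⟨Y'', x'', Λ'', s, a', by omega, by omega, by omega⟩
  have pos : ∀ (c w p : W) (R : ℕ), Close w p → d c p ≤ R → R ≤ 600 → d c w ≤ 627 := by
    intro c w p R a b e
    have := cd _ _ a.symm
    have := d_triangle c p w
    omega
  have hf : Y.f x0 = o := h.h0.1
  obtain ⟨y, l1, l2, c1, c2, el, ec, t1, t2⟩ := spl 1 (h.loops l List.mem_cons_self)
  by_cases hR : d 1 y.p < 19
  · obtain ⟨Y', m, ν, hK, hv, ha, -, hz⟩ := hC B o th Y 1 _ _ _ _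
      ((t1.append t2).mono fun w p a b => pos 1 w p _ a b (by omega)) (by rw [one_smul, hf])
    obtain ⟨Λ', a, b⟩ := m.inv_kill (hK x0) h (by rw [ec]; exact hz rfl rfl)
    exact ⟨Y', ν x0, Λ', a, b, by omega, by omega⟩
  have g1 : 19 ≤ l1 := by
    have : d 1 y.p ≤ l1 := t1.d_le
    omega
  have g2 : 19 ≤ l2 := by
    have : d y.p 1 ≤ l2 := t2.d_le
    rw [d_comm] at this
    omega
  obtain ⟨Y1, m1, ν1, n2, la, lb, cha, chb, K1, v1, a1, bd, wa, wb, s1, s2, s3, s4, sv1⟩ :=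
    cw B o Y 1 _ _ _ _ _ t2 g2
  obtain ⟨c1', u1, sv2⟩ := bd 1 _ _ _ _ _ t1
  obtain ⟨rc, u2, sv3⟩ := u1.reverse
  obtain ⟨Y2, m2, ν2, n3, la', lb', cha', chb', K2, v2, a2, -, wa', wb', r1, r2, r3, r4, sv4⟩ :=
    cw B o Y1 1 _ _ _ _ _ u2 g1
  obtain ⟨la2, cha2, q1, wa2, sv5⟩ := m2.trans _ _ _ _ _ _ (K2 _) (K2 _) wa
  obtain ⟨lb2, chb2, q2, wb2, sv6⟩ := m2.trans _ _ _ _ _ _ (K2 _) (K2 _) wb
  obtain ⟨ra, wra, sv7⟩ := wa'.reverse
  obtain ⟨rb, wrb, sv8⟩ := wb'.reverse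
  have val : n3.w • o = Y2.f n3.x := wrb.valid (by
    show (1 : W) • o = Y2.f (ν2 (ν1 x0))
    rw [one_smul, m2.K_f _ _ (K2 _), m1.K_f _ _ (K1 _), hf])
  obtain ⟨Y3, m3, ν3, K3, v3, a3, ⟨mid, wm, sv9⟩, -⟩ := hC B o th Y2 n3.p _ _ _ _
    (((wra.append wa2).ball n3.p 600 (by rw [d_self]; omega)).mono
      fun w p a b => pos _ w p _ a b.2 le_rfl) val
  obtain ⟨lA, cA, q3, wA, sv10⟩ := m3.trans _ _ _ _ _ _ (K3 _) (K3 _) wrb
  obtain ⟨lB, cB, q4, wB, sv11⟩ := m3.trans _ _ _ _ _ _ (K3 _) (K3 _) wb2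
  have lt : d n3.p n2.p < la' + la := by
    have e1 : d n3.p y.p ≤ la' := wra.d_le
    have e2 : d y.p n2.p ≤ la := wa.d_le
    have e3 := d_triangle n3.p y.p n2.p
    by_contra k
    have := de 1 n3.p y.p n2.p 12 (by unfold Btw; omega) (by omega) (by omega)
    omega
  obtain ⟨Λ', a, b⟩ := (m1.comp (m2.comp m3)).inv_head
    (x0' := ν3 (ν2 (ν1 x0))) ⟨_, K1 x0, _, K2 _, K3 _⟩ h (wA.append (wm.append wB))
    (fun E _ c ε hc => by
      have h2 := m3.cocyc E c hc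
      have h1 := m2.cocyc E _ h2
      have z9 := sv9 E c ε hc
      rw [ev_append] at z9
      show ev (m1.pull E (m2.pull E (m3.pull E c))) l.2 ε = _
      rw [ec, ev_append, sv2 E _ ε h1, sv1 E _ ε h1, ← sv3 E _ ε h1, sv4 E _ ε h2, ev_append,
        ev_append, sv5 E _ ε h2, sv6 E _ ε h2, ← sv7 E _ ε h2, ← sv8 E _ ε h2, sv10 E c ε hc,
        sv11 E c ε hc, ev_append, ev_append, ← z9]
      ring)
    (by dsimp only; omega)
  exact ⟨Y3, _, Λ', a, b, by omega, by omega⟩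

end Pool.Agent.MP_df844f_gt
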