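import Pool.Agent.MP_df844f_gt.Spec

/-! Row SHORT: a walk inside a ball is straightened at bounded cost. -/

namespace Pool.Agent.MP_df844f_gt

open PS

namespace ShortA

variable {B : Type} [MulAction W B] {o : B} {Y : PS B} {c : W} {R : ℕ} {p0 : Y.Om × W}

/-- One step upstairs that ends in the ball. -/
def Up (Y : PS B) (c : W) (R : ℕ) (p q : Y.Om × W) : Prop :=
  d c q.2 ≤ R ∧ ((∃ s, Y.e s p.1 q.1 ∧ q.2 = g s * p.2) ∨
    ∃ a, p.1 = Y.src a ∧ q.1 = Y.src (Y.rev a) ∧ q.2 = Y.lab a * p.2)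

/-- Reachable upstairs inside the ball. -/
def Re (c : W) (R : ℕ) (p0 q : Y.Om × W) : Prop := Relation.ReflTransGen (Up Y c R) p0 q

theorem Re.good (h0 : d c p0.2 ≤ R) (h1 : p0.2 • o = Y.f p0.1) {q : Y.Om × W} (h : Re c R p0 q) :
    d c q.2 ≤ R ∧ q.2 • o = Y.f q.1 := by
  induction h with
  | refl => exact ⟨h0, h1⟩
  | tail _ k ih =>
    refine ⟨k.1, ?_⟩
    rcases k.2 with ⟨s, a, b⟩ | ⟨a, e1, e2, e3⟩
    · rw [b, mul_smul, ih.2, Y.e_f a]
    · rw [e3, mul_smul, ih.2, e2, Y.f_rev, e1]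

open Classical in
/-- The piece. -/
noncomputable def cmp (c : W) (R : ℕ) (p0 : Y.Om × W) (x : Y.Om) : Option Unit :=
  if ∃ w, Re c R p0 (x, w) then some () else none

open Classical in
/-- The position of a chamber of the piece. -/
noncomputable def ps (c : W) (R : ℕ) (p0 : Y.Om × W) (x : Y.Om) : W :=
  if h : ∃ w, Re c R p0 (x, w) then Classical.choose h else 1

theorem cmp_of {x : Y.Om} {w : W} (h : Re c R p0 (x, w)) : cmp c R p0 x = some () :=
  if_pos ⟨w, h⟩

theorem re_of {x : Y.Om} {j : Unit} (h : cmp c R p0 x = some j) : Re c R p0 (x, ps c R p0 x) := by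
  have k : ∃ w, Re c R p0 (x, w) := by
    by_contra k
    unfold cmp at h
    rw [if_neg k] at h
    cases h
  unfold ps
  rw [dif_pos k]
  exact Classical.choose_spec k

theorem near_eq (th : Thick o (2 * R + 2)) {w w' : W} (e : w • o = w' • o) (a : d c w ≤ R)
    (b : d c w' ≤ R + 1) : w = w' := by
  refine th w w' e ?_
  have := d_triangle w c w'
  rw [d_comm w c] at this
  omega

theorem ps_eq (th : Thick o (2 * R + 2)) (h0 : d c p0.2 ≤ R) (h1 : p0.2 • o = Y.f p0.1)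
    {x : Y.Om} {w : W} (h : Re c R p0 (x, w)) : ps c R p0 x = w := by
  have a := (re_of (cmp_of h)).good h0 h1
  have b := h.good h0 h1
  exact near_eq th (a.2.trans b.2.symm) a.1 (b.1.trans (Nat.le_succ R))

/-- The data for the replacement of the piece by the hull of the ball. -/
noncomputable def dat (th : Thick o (2 * R + 2)) (h0 : d c p0.2 ≤ R) (h1 : p0.2 • o = Y.f p0.1)
    (K F : Finset W) (hF : ∀ x, x ∈ F ↔ d c x ≤ R) (ι : W → (cvxPS K).Om)
    (hg : Gadget (cvxPS K) F ι) : HData o Y where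
  J := Unit
  comp := cmp c R p0
  pos := ps c R p0
  int a := ∃ w, Re c R p0 (Y.src a, w) ∧ d c (Y.lab a * w) ≤ R
  Q _ := cvxPS K
  F _ := F
  ι _ := ι
  pos_f z j h := ((re_of h).good h0 h1).2
  e_in s z z' j j' he h h' := by
    refine ⟨rfl, ?_⟩
    have a := (re_of h).good h0 h1
    have b := (re_of h').good h0 h1
    refine near_eq th ?_ b.1 ?_
    · rw [mul_smul, a.2, b.2]
      exact Y.e_f he
    · have := d_triangle c (ps c R p0 z) (g s * ps c R p0 z)
      rw [d_g_mul] at this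
      have := a.1
      dsimp only at this
      omega
  int_rev a := by
    rintro ⟨w, h, k⟩
    refine ⟨Y.lab a * w, h.tail ⟨k, Or.inr ⟨a, rfl, rfl, rfl⟩⟩, ?_⟩
    rw [Y.lab_rev, inv_mul_cancel_left]
    exact (h.good h0 h1).1
  int_in a := by
    rintro ⟨w, h, k⟩
    have h' : Re c R p0 (Y.src (Y.rev a), Y.lab a * w) := h.tail ⟨k, Or.inr ⟨a, rfl, rfl, rfl⟩⟩
    exact ⟨(), cmp_of h, cmp_of h', by rw [ps_eq th h0 h1 h, ps_eq th h0 h1 h']⟩
  conn j := by
    refine ⟨p0.1, cmp_of (w := p0.2) Relation.ReflTransGen.refl, fun z hz => ?_⟩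
    have key : ∀ q, Re c R p0 q → Relation.ReflTransGen
        (fun u v => cmp c R p0 u = some j ∧ cmp c R p0 v = some j ∧
          ((∃ s, Y.e s u v) ∨ ∃ a, (∃ w, Re c R p0 (Y.src a, w) ∧ d c (Y.lab a * w) ≤ R) ∧
            u = Y.src a ∧ v = Y.src (Y.rev a))) p0.1 q.1 := by
      intro q h
      induction h with
      | refl => exact Relation.ReflTransGen.refl
      | @tail p q h k ih =>
        refine ih.tail ⟨cmp_of (w := p.2) h, cmp_of (w := q.2) (h.tail k), ?_⟩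
        rcases k.2 with ⟨s, a, _⟩ | ⟨a, e1, e2, e3⟩
        · exact Or.inl ⟨s, a⟩
        · refine Or.inr ⟨a, ⟨p.2, ?_, ?_⟩, e1, e2⟩
          · rw [← e1]
            exact h
          · rw [← e3]
            exact k.1
    exact key _ (re_of hz)
  gad _ := hg
  kept_near z _ _ h _ _ := (hF _).2 ((re_of h).good h0 h1).1
  kept_src _ _ _ h := (hF _).2 ((re_of h).good h0 h1).1

theorem int_path (th : Thick o (2 * R + 2)) (h0 : d c p0.2 ≤ R) (h1 : p0.2 • o = Y.f p0.1)
    (K F : Finset W) (hF : ∀ x, x ∈ F ↔ d c x ≤ R) (ι : W → (cvxPS K).Om)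
    (hg : Gadget (cvxPS K) F ι) {n k : Y.Node} {l : ℕ} {ch : Y.Path}
    (h : Y.TW (fun w _ => d c w ≤ R) n k l ch) (hn : Re c R p0 (n.x, n.w)) :
    ∀ lw ∈ ch, (dat th h0 h1 K F hF ι hg).Int lw.1 := by
  induction h with
  | nil => simp
  | @edge n n' m l ch s _ _ e1 e2 t ih =>
    have h' : Re c R p0 (n'.x, n'.w) := hn.tail ⟨t.first.2, Or.inl ⟨s, e1, e2⟩⟩
    intro lw hl
    rcases List.mem_cons.1 hl with rfl | hl
    · refine ⟨?_, ?_⟩
      · show cmp c R p0 n.x ≠ none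
        rw [cmp_of hn]
        simp
      · show cmp c R p0 n'.x ≠ none
        rw [cmp_of h']
        simp
    · exact ih h' lw hl
  | @dart n n' m l ch a _ _ e1 e2 e3 t ih =>
    have h' : Re c R p0 (n'.x, n'.w) := hn.tail ⟨t.first.2, Or.inr ⟨a, e1, e2, e3⟩⟩
    intro lw hl
    rcases List.mem_cons.1 hl with rfl | hl
    · exact ⟨n.w, e1 ▸ hn, e3 ▸ t.first.2⟩
    · exact ih h' lw hl
  | @stay n n' m l ch _ _ e1 e2 t ih => exact ih (by rw [e1, e2]; exact hn)

theorem card_sepW {F : Finset W} (hF : ∀ x, x ∈ F ↔ d c x ≤ R) :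
    (sepW F).card ≤ F.card * (F.card * (2 * R)) := by
  unfold sepW
  refine Finset.card_biUnion_le_card_mul _ _ _ fun a ha => ?_
  refine Finset.card_biUnion_le_card_mul _ _ _ fun b hb => ?_
  have h1 := (hF a).1 ha
  have h2 := (hF b).1 hb
  have h3 := d_triangle a c b
  rw [d_comm a c] at h3
  rw [card_Sep]
  omega

end ShortA

open ShortA in
theorem short (hS : HS) (gc : GCvxS) (hu : HullS) (ba : BallS) : ShortS := by
  intro R
  refine ⟨12 * (1 + 13 ^ 6 * (13 ^ R * (13 ^ R * (2 * R)))), fun B _ o th Y c n k l ch h hn => ?_⟩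
  obtain ⟨F, cF, hF⟩ := ba c R
  have hc : c ∈ F := (hF c).2 (by rw [d_self]; omega)
  obtain ⟨K, hK, cK⟩ := hu F ⟨c, hc⟩
  have hFK : F ⊆ K := fun a ha => by
    have : a ∈ (K : Set W) := hK ▸ subset_hull F ha
    exact this
  obtain ⟨ι, hg⟩ := gc K F (hK ▸ cvx_hull F) hFK ⟨c, hFK hc⟩
  have h0 : d c (n.x, n.w).2 ≤ R := h.first.2
  have kept : ∀ x, (dat th h0 hn K F hF ι hg).Kept x := fun x j hx =>
    (hF _).2 ((re_of hx).good h0 hn).1
  obtain ⟨Y', m, ν, a1, a2, a3, a4⟩ := hS B o Y (dat th h0 hn K F hF ι hg)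
  have hr : Re c R (n.x, n.w) (n.x, n.w) := Relation.ReflTransGen.refl
  have b := a4 n k l ch h.toTT (by
    show cmp c R (n.x, n.w) n.x ≠ none
    rw [cmp_of hr]
    simp) (kept _) (kept _) (int_path th h0 hn K F hF ι hg h hr)
  have v : ∑ j, ((dat th h0 hn K F hF ι hg).Q j).vol ≤
      1 + 13 ^ 6 * (13 ^ R * (13 ^ R * (2 * R))) := by
    have e : ∑ j, ((dat th h0 hn K F hF ι hg).Q j).vol = K.card := by
      show ∑ _j : Unit, Nat.card K = K.card
      simp
    rw [e]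
    refine cK.trans (Nat.add_le_add_left (Nat.mul_le_mul_left _ ((card_sepW hF).trans ?_)) 1)
    exact Nat.mul_le_mul cF (Nat.mul_le_mul_right _ cF)
  have v1 : ∀ U : Set Y.Om, U.ncard ≤ Y.vol := fun U => Set.ncard_le_card U
  have v2 : ∀ U : Set Y.Om, Y.nF U ≤ Y.area := fun U =>
    Set.ncard_le_ncard (fun p hp => hp.2) (Set.toFinite _)
  refine ⟨Y', m, ν, fun x => a1 x (kept x), ?_, ?_, b.1, b.2⟩
  · have := v1 {x | (dat th h0 hn K F hF ι hg).comp x = none}
    omega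
  · have := v2 {x | (dat th h0 hn K F hF ι hg).comp x = none}
    omega

end Pool.Agent.MP_df844f_gt
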