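import Pool.Agent.MP_df844f_gt.Spec

/-! Volume against area: the coarea inequality on an expanding base. -/

namespace Pool.Agent.MP_df844f_gt

open PS Finset

namespace VolA

theorem nc {α : Type} [Fintype α] (p : α → Prop) [DecidablePred p] :
    {x | p x}.ncard = (univ.filter p).card := by
  rw [← Set.ncard_coe_finset]
  congr 1
  ext x
  simp

theorem coarea {B : Type} [MulAction W B] [Fintype B] {H : ℕ} (hH : Expd B H) (N : ℕ) :
    ∀ (u : B → ℕ) (D : B × S → ℕ), ∑ b, u b = N → (∀ b s, u b ≤ u (g s • b) + D (b, s)) →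
      2 * {b | u b ≠ 0}.ncard ≤ Nat.card B → N ≤ H * ∑ p, D p := by
  classical
  induction N using Nat.strong_induction_on with
  | _ N ih =>
    intro u D hu hD hs
    rcases Nat.eq_zero_or_pos N with h0 | h0
    · omega
    have h1 := hH _ hs
    simp only [Set.mem_ofPred_eq] at h1
    rw [nc, nc, card_filter, card_filter] at h1
    have e1 : ∑ b, (u b - 1) + ∑ b, (if u b ≠ 0 then 1 else 0) = N := by
      rw [← hu, ← sum_add_distrib]
      refine sum_congr rfl fun b _ => ?_
      split_ifs <;> omega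
    have e2 : ∑ p : B × S, (D p - if u p.1 ≠ 0 ∧ ¬ u (g p.2 • p.1) ≠ 0 then 1 else 0) +
        ∑ p : B × S, (if u p.1 ≠ 0 ∧ ¬ u (g p.2 • p.1) ≠ 0 then 1 else 0) = ∑ p, D p := by
      rw [← sum_add_distrib]
      refine sum_congr rfl fun p _ => ?_
      have := hD p.1 p.2
      simp only [Prod.mk.eta] at this
      split_ifs <;> omega
    have pos : 0 < ∑ b, (if u b ≠ 0 then 1 else 0) := by
      by_contra hh
      have z := sum_eq_zero_iff.1 (Nat.eq_zero_of_not_pos hh)
      have : ∑ b, u b = 0 := sum_eq_zero fun b hb => by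
        have := z b hb
        by_contra k
        rw [if_pos k] at this
        omega
      omega
    have := ih _ (by omega) (fun b => u b - 1)
      (fun p => D p - if u p.1 ≠ 0 ∧ ¬ u (g p.2 • p.1) ≠ 0 then 1 else 0) rfl (fun b s => by
        have := hD b s
        simp only
        split_ifs <;> omega)
      (le_trans (Nat.mul_le_mul_left _ (Set.ncard_le_ncard (fun b hb => by
        simp only [Set.mem_ofPred_eq] at hb ⊢
        omega) (Set.toFinite _))) hs)
    rw [← e2, mul_add]
    omega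

variable {B : Type} [MulAction W B]

/-- chambers over `b` with the property `p` -/
noncomputable def cnt (Y : PS B) (p : Y.Om → Prop) (b : B) : ℕ := {x | Y.f x = b ∧ p x}.ncard

theorem sum_cnt [Fintype B] (Y : PS B) (p : Y.Om → Prop) :
    ∑ b, cnt Y p b = {x | p x}.ncard := by
  classical
  have := Fintype.ofFinite Y.Om
  simp only [cnt, nc, card_filter]
  rw [sum_comm]
  refine sum_congr rfl fun x _ => ?_
  by_cases h : p x <;> simp [h]

theorem sum_free [Fintype B] (Y : PS B) :
    ∑ p : B × S, cnt Y (fun x => Y.Free x p.2) p.1 = Y.area := by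
  classical
  have := Fintype.ofFinite Y.Om
  rw [Fintype.sum_prod_type_right]
  simp only [sum_cnt]
  rw [area]
  simp only [nc, card_filter]
  rw [Fintype.sum_prod_type_right]

theorem split (Y : PS B) (p : Y.Om → Prop) (b : B) :
    cnt Y p b + cnt Y (fun x => ¬ p x) b = cnt Y (fun _ => True) b := by
  classical
  have := Fintype.ofFinite Y.Om
  simp only [cnt, nc, card_filter]
  rw [← sum_add_distrib]
  refine sum_congr rfl fun x _ => ?_
  by_cases h : p x <;> simp [h]

theorem glued {Y : PS B} (hY : Y.State) (s : S) (b : B) :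
    cnt Y (fun x => ¬ Y.Free x s) b ≤ cnt Y (fun x => ¬ Y.Free x s) (g s • b) :=
  Set.ncard_le_ncard_of_injOn (Y.sg s)
    (fun _ h => ⟨h.1 ▸ Y.e_f (e_sg h.2), fun k => k ⟨_, Y.e_symm (e_sg h.2)⟩⟩)
    (fun x _ y _ h => by rw [← hY.sg_sg s x, h, hY.sg_sg]) (Set.toFinite _)

theorem vol_eq (Y : PS B) : {_x : Y.Om | True}.ncard = Y.vol := by
  rw [Set.ofPred_true, Set.ncard_univ, vol]

theorem supp (Y : PS B) (u : B → ℕ) (h : ∀ b, u b ≤ cnt Y (fun _ => True) b) :
    {b | u b ≠ 0}.ncard ≤ Y.vol := by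
  rw [← vol_eq]
  refine le_trans (Set.ncard_le_ncard (t := Y.f '' {_x | True}) (fun b hb => ?_) (Set.toFinite _))
    (Set.ncard_image_le (Set.toFinite _))
  obtain ⟨x, hx⟩ := Set.nonempty_of_ncard_ne_zero
    (s := {x | Y.f x = b ∧ True}) fun k => hb (Nat.le_zero.1 (k ▸ h b))
  exact ⟨x, trivial, hx.1⟩

theorem img {Y Y' : PS B} (φ : Hom Y Y') (p : Y.Om → Prop) (q : Y'.Om → Prop)
    (h : ∀ x, q (φ.π x) → p x) (b : B) :
    cnt Y' (fun y => y ∈ Set.range φ.π ∧ q y) b ≤ cnt Y p b := by
  refine le_trans (Set.ncard_le_ncard (t := φ.π '' {x | Y.f x = b ∧ p x}) ?_ (Set.toFinite _))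
    (Set.ncard_image_le (Set.toFinite _))
  rintro _ ⟨h1, ⟨x, rfl⟩, h2⟩
  exact ⟨x, ⟨(φ.f_π x).symm.trans h1, h x h2⟩, rfl⟩

theorem free_le {Y Y' : PS B} (φ : Hom Y Y') (s : S) (b : B) :
    cnt Y' (fun y => Y'.Free y s) b ≤
      cnt Y (fun x => Y.Free x s) b + cnt Y' (fun y => ¬ y ∈ Set.range φ.π) b := by
  refine le_trans ?_ (Nat.add_le_add_right (img φ (fun x => Y.Free x s) (fun y => Y'.Free y s)
    (fun x h ⟨y, k⟩ => h ⟨_, φ.e_π k⟩) b) _)
  refine le_trans (Set.ncard_le_ncard (fun y hy => ?_) (Set.toFinite _)) (Set.ncard_union_le _ _)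
  by_cases k : y ∈ Set.range φ.π
  · exact Or.inl ⟨hy.1, k, hy.2⟩
  · exact Or.inr ⟨hy.1, k⟩

end VolA

open VolA

theorem volS : VolS := by
  intro B _ _ H hH Y hY h
  have := Fintype.ofFinite B
  rw [← sum_free]
  refine coarea hH _ (cnt Y fun _ => True) _ (by rw [sum_cnt, vol_eq]) (fun b s => ?_)
    (le_trans (Nat.mul_le_mul_left _ (supp Y _ fun _ => le_rfl)) h)
  have := split Y (fun x => Y.Free x s) b
  have := split Y (fun x => Y.Free x s) (g s • b)
  have := glued hY s b
  simp only
  omega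

theorem lamS : LamS := by
  intro B _ _ H hH Y Y' φ hY hY' h
  have := Fintype.ofFinite B
  have m : ∀ b, cnt Y' (fun y => y ∈ Set.range φ.π) b ≤ cnt Y (fun _ => True) b := fun b => by
    simpa only [and_true] using img φ (fun _ => True) (fun _ => True) (fun _ _ => trivial) b
  have key := coarea hH _ (fun b => cnt Y (fun _ => True) b - cnt Y' (fun y => y ∈ Set.range φ.π) b)
    (fun p => cnt Y (fun x => Y.Free x p.2) p.1 + cnt Y' (fun y => ¬ y ∈ Set.range φ.π) p.1 -
      cnt Y' (fun y => Y'.Free y p.2) p.1) rfl (fun b s => by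
      have := split Y (fun x => Y.Free x s) b
      have := split Y (fun x => Y.Free x s) (g s • b)
      have := glued hY s b
      have := split Y' (fun x => Y'.Free x s) b
      have := split Y' (fun x => Y'.Free x s) (g s • b)
      have a := glued hY' s (g s • b)
      rw [smul_smul, g_mul_self, one_smul] at a
      have := split Y' (fun y => y ∈ Set.range φ.π) b
      have := split Y' (fun y => y ∈ Set.range φ.π) (g s • b)
      have := free_le φ s b
      have := free_le φ s (g s • b)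
      have := m b
      have := m (g s • b)
      simp only
      omega)
    (le_trans (Nat.mul_le_mul_left _ (supp Y _ fun _ => Nat.sub_le _ _)) (by omega))
  have e0 : ∑ b, cnt Y' (fun y => ¬ y ∈ Set.range φ.π) b = φ.new := sum_cnt _ _
  have e1 : ∑ b, (cnt Y (fun _ => True) b - cnt Y' (fun y => y ∈ Set.range φ.π) b) +
      ∑ b, cnt Y' (fun y => y ∈ Set.range φ.π) b = Y.vol := by
    rw [← sum_add_distrib, ← vol_eq, ← sum_cnt]
    exact sum_congr rfl fun b _ => Nat.sub_add_cancel (m b)
  have e2 : ∑ b, cnt Y' (fun y => y ∈ Set.range φ.π) b + φ.new = Y'.vol := by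
    rw [← e0, ← sum_add_distrib, ← vol_eq, ← sum_cnt]
    exact sum_congr rfl fun b _ => split Y' _ b
  have e3 : ∑ p : B × S, (cnt Y (fun x => Y.Free x p.2) p.1 +
      cnt Y' (fun y => ¬ y ∈ Set.range φ.π) p.1 - cnt Y' (fun y => Y'.Free y p.2) p.1) +
      Y'.area = Y.area + 12 * φ.new := by
    have e4 : ∑ p : B × S, cnt Y' (fun y => ¬ y ∈ Set.range φ.π) p.1 = 12 * φ.new := by
      rw [Fintype.sum_prod_type_right]
      simp only [e0]
      simp
    rw [← e4, ← sum_free, ← sum_free, ← sum_add_distrib, ← sum_add_distrib]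
    exact sum_congr rfl fun p _ => Nat.sub_add_cancel (free_le φ p.2 p.1)
  rw [← e3, mul_add]
  omega

end Pool.Agent.MP_df844f_gt
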