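import Pool.Agent.MP_df844f_gt.Spec
import Pool.Agent.MP_df844f_gt.w.GCvx

/-! Wedging finitely many convex sets of chambers onto a prestate. -/

namespace Pool.Agent.MP_df844f_gt

open PS

namespace WedgeA

variable {B : Type} [MulAction W B] (o : B) (Y : PS B) {J : Type} [Fintype J]
  (z : J → Y.Om) (w : J → W) (K : J → Finset W) (s0 : S)

/-- Thick edges of the wedge. -/
def E (s : S) : Y.Om ⊕ (Σ j, K j) → Y.Om ⊕ (Σ j, K j) → Prop
  | .inl x, .inl y => Y.e s x y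
  | .inr p, .inr q => p.1 = q.1 ∧ q.2.1 = g s * p.2.1
  | .inl x, .inr q => s = s0 ∧ x = z q.1 ∧ q.2.1 = g s0 * w q.1
  | .inr p, .inl y => s = s0 ∧ y = z p.1 ∧ p.2.1 = g s0 * w p.1

/-- The wedge. -/
def Y1 (hw : ∀ j, w j • o = Y.f (z j)) : PS B where
  Om := Y.Om ⊕ (Σ j, K j)
  A := Y.A
  f := Sum.elim Y.f fun p => p.2.1 • o
  e := E Y z w K s0
  e_symm := by
    rintro s (x | p) (y | q) h
    · exact Y.e_symm h
    · exact h
    · exact h
    · exact ⟨h.1.symm, by rw [h.2, g_mul_g_mul]⟩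
  e_f := by
    rintro s (x | p) (y | q) h
    · exact Y.e_f h
    · obtain ⟨rfl, rfl, h⟩ := h
      simp only [Sum.elim_inl, Sum.elim_inr, h, mul_smul, hw]
    · obtain ⟨rfl, rfl, h⟩ := h
      simp only [Sum.elim_inl, Sum.elim_inr, h, ← mul_smul, g_mul_g_mul, hw]
    · simp only [Sum.elim_inr, h.2, mul_smul]
  rev := Y.rev
  rev_rev := Y.rev_rev
  rev_ne := Y.rev_ne
  src a := .inl (Y.src a)
  lab := Y.lab
  lab_rev := Y.lab_rev
  f_rev := Y.f_rev

variable (hw : ∀ j, w j • o = Y.f (z j))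

/-- The inclusion of the old chambers. -/
def inc : Hom Y (Y1 o Y z w K s0 hw) where
  π := Sum.inl
  e_π h := h
  α := Equiv.refl _
  f_π _ := rfl
  src_α _ := rfl
  rev_α _ := rfl
  lab_α _ := rfl

/-- The inclusion of a convex piece. -/
def pc (j : J) : EHom (cvxPS (K j)) (Y1 o Y z w K s0 hw) where
  π k := Sum.inr ⟨j, k⟩
  e_π h := ⟨rfl, h⟩

theorem near {n : ℕ} {a b : (Y1 o Y z w K s0 hw).Om} (h : (Y1 o Y z w K s0 hw).Near n a b) :
    Y.Near n (Sum.elim id (fun p => z p.1) a) (Sum.elim id (fun p => z p.1) b) := by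
  induction h with
  | refl n x => exact Near.refl _ _
  | @step n s a b c he _ ih =>
    rcases a with x | p <;> rcases b with y | q
    · exact Near.step he ih
    · obtain rfl := he.2.1
      exact ih.mono (Nat.le_succ _)
    · obtain rfl := he.2.1
      exact ih.mono (Nat.le_succ _)
    · have k : z p.1 = z q.1 := congrArg z he.1
      exact Near.mono (k ▸ ih : Y.Near n (z p.1) _) (Nat.le_succ _)

theorem card_pc : Nat.card (Σ j, K j) = ∑ j, (K j).card := by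
  simp

theorem ctl : (inc o Y z w K s0 hw).Ctl (∑ j, (K j).card) := by
  have h1 : (inc o Y z w K s0 hw).new ≤ ∑ j, (K j).card := by
    rw [← card_pc, ← Set.ncard_univ]
    refine (Set.ncard_le_ncard (t := Sum.inr '' Set.univ) ?_).trans Set.ncard_image_le
    rintro (x | p) h
    exacts [absurd ⟨x, rfl⟩ h, ⟨p, trivial, rfl⟩]
  have h2 : (Y1 o Y z w K s0 hw).area ≤ Y.area + 12 * ∑ j, (K j).card := by
    have a : Nat.card ((Σ j, K j) × S) = 12 * ∑ j, (K j).card := by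
      rw [Nat.card_prod, card_pc, mul_comm]
      simp
    rw [← a, ← Set.ncard_univ]
    refine (Set.ncard_le_ncard (t := (Prod.map Sum.inl id '' {p : Y.Om × S | Y.Free p.1 p.2}) ∪
      Prod.map Sum.inr id '' Set.univ) ?_).trans ((Set.ncard_union_le _ _).trans
        (Nat.add_le_add Set.ncard_image_le Set.ncard_image_le))
    rintro ⟨x | p, s⟩ h
    · exact Or.inl ⟨(x, s), fun ⟨y, k⟩ => h ⟨.inl y, k⟩, rfl⟩
    · exact Or.inr ⟨(p, s), trivial, rfl⟩
  have h3 := (inc o Y z w K s0 hw).vol_le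
  refine ⟨by omega, by unfold PS.pot; omega, fun n u v h => ?_⟩
  exact (near o Y z w K s0 hw h).mono (Nat.le_add_right _ _)

theorem good (h1 : H1S) (hK : ∀ j, Cvx (K j : Set W)) (h : ∀ j, g s0 * w j ∈ K j) :
    (inc o Y z w K s0 hw).Good where
  refl E _ c hc := by
    rintro ⟨φ, hφ⟩
    have a : ∀ j (ε : E), ∃ F : K j → F2, ∀ s (x y : K j), y.1 = g s * x.1 →
        c (.edge s (.inr ⟨j, x⟩) (.inr ⟨j, y⟩)) (x.1 • ε) = F x + F y := fun j ε => by
      obtain ⟨F, hF⟩ := GCvx.cob h1 (hK j) (fun l _ => match l with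
        | .edge s x y => c (.edge s (.inr ⟨j, x⟩) (.inr ⟨j, y⟩)) (x.1 • ε)
        | .dart a => a.elim) ⟨fun s x y _ (e : y.1 = g s * x.1) => by
          simpa only [e, mul_smul] using hc.symm s (.inr ⟨j, x⟩) (.inr ⟨j, y⟩) (x.1 • ε) ⟨rfl, e⟩,
          fun a => a.elim, fun s t x0 x1 x2 x3 _ k (e0 : x1.1 = g s * x0.1)
            (e1 : x2.1 = g t * x1.1) (e2 : x3.1 = g s * x2.1) e3 => by
          simpa only [e2, e1, e0, mul_smul] using hc.sq s t (.inr ⟨j, x0⟩) (.inr ⟨j, x1⟩)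
            (.inr ⟨j, x2⟩) (.inr ⟨j, x3⟩) (x0.1 • ε) k ⟨rfl, e0⟩ ⟨rfl, e1⟩ ⟨rfl, e2⟩ ⟨rfl, e3⟩⟩
      exact ⟨fun x => F x (), fun s x y e => hF.ed s x y () e⟩
    choose F hF using a
    let ψ : (Y1 o Y z w K s0 hw).Om → E → F2 := Sum.elim φ fun p ε =>
      F p.1 (p.2.1⁻¹ • ε) p.2 + (F p.1 (p.2.1⁻¹ • ε) ⟨_, h p.1⟩ + φ (z p.1) (w p.1 • p.2.1⁻¹ • ε) +
        c (.edge s0 (.inl (z p.1)) (.inr ⟨p.1, _, h p.1⟩)) (w p.1 • p.2.1⁻¹ • ε))
    have b : ∀ s x q ε, (Y1 o Y z w K s0 hw).e s (.inl x) (.inr q) →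
        c (.edge s (.inl x) (.inr q)) ε = ψ (.inl x) ε + ψ (.inr q) (g s • ε) := by
      rintro s x ⟨j, k, hk⟩ ε ⟨rfl, rfl, e⟩
      obtain rfl : k = g s * w j := e
      have k : (g s * w j)⁻¹ • g s • ε = (w j)⁻¹ • ε := by
        rw [mul_inv_rev, g_inv, smul_smul, mul_g_mul_g]
      simp only [ψ, Sum.elim_inl, Sum.elim_inr, k, smul_inv_smul]
      generalize c _ _ = u, φ _ _ = v, F _ _ _ = t
      revert u v t
      decide
    refine ⟨ψ, ?_, hφ.da⟩
    rintro s (x | p) (y | q) ε e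
    · exact hφ.ed s x y ε e
    · exact b s x q ε e
    · rw [← hc.symm s _ _ ε e, b s y p _ e, smul_smul, g_mul_self, one_smul, add_comm]
    · obtain ⟨j, x⟩ := p
      obtain ⟨j', y⟩ := q
      obtain ⟨rfl, e⟩ : j = j' ∧ y.1 = g s * x.1 := e
      have k := hF j (x.1⁻¹ • ε) s x y e
      have k2 : y.1⁻¹ • g s • ε = x.1⁻¹ • ε := by
        rw [e, mul_inv_rev, g_inv, smul_smul, mul_g_mul_g]
      rw [smul_inv_smul] at k
      simp only [ψ, Sum.elim_inr, k, k2]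
      generalize F j _ x = u, F j _ y = v, _ + _ + c _ _ = t
      revert u v t
      decide
  h0 o' x0 k := by
    refine ⟨k.1, fun T φ hφ => ?_⟩
    have a := k.2 T (fun x => φ (.inl x)) ⟨fun s x y u e => hφ.ed s (.inl x) (.inl y) u e, hφ.da⟩
    rintro (x | ⟨j, x⟩) u e
    · exact a x u e
    · have b := GCvx.conn (hK j) T (fun y => φ (.inr ⟨j, y⟩) (y.1 * (x.1⁻¹ * u)))
        (fun s y y' (e : y'.1 = g s * y.1) => by
          rw [e, mul_assoc]
          exact (hφ.ed s (.inr ⟨j, y⟩) (.inr ⟨j, y'⟩) _ ⟨rfl, e⟩).symm) (fun a => a.elim) x ⟨_, h j⟩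
      simp only [mul_inv_cancel_left, mul_assoc] at b
      rw [b, hφ.ed s0 (.inl (z j)) (.inr ⟨j, _, h j⟩) _ ⟨rfl, rfl, rfl⟩]
      refine a _ _ ?_
      rw [mul_smul, mul_smul, e, ← hw]
      exact congrArg _ (inv_smul_smul _ _)

end WedgeA

theorem wedge (h1 : H1S) : WedgeS := fun _ _ o Y _ _ z w K s0 hw hK _ h =>
  ⟨_, WedgeA.inc o Y z w K s0 hw, WedgeA.pc o Y z w K s0 hw, WedgeA.good o Y z w K s0 hw h1 hK h,
    WedgeA.ctl o Y z w K s0 hw, fun _ _ => rfl, fun _ => ⟨rfl, rfl, rfl⟩⟩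

end Pool.Agent.MP_df844f_gt
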