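import Pool.Agent.MP_df844f_gt.w.All
import Pool.Agent.MP_df844f_gt.x.Fix2
import Pool.Agent.MP_df844f_gt.s2.Att
import Pool.Agent.MP_df844f_gt.s2.BeadDeg
import Pool.Agent.MP_df844f_gt.s2.Clos
import Pool.Agent.MP_df844f_gt.s2.CutW
import Pool.Agent.MP_df844f_gt.s2.H
import Pool.Agent.MP_df844f_gt.s2.Init
import Pool.Agent.MP_df844f_gt.s2.M1
import Pool.Agent.MP_df844f_gt.s2.M2
import Pool.Agent.MP_df844f_gt.s2.Push
import Pool.Agent.MP_df844f_gt.s2.Short
import Pool.Agent.MP_df844f_gt.s2.Vol

/-! The statements of section 2, free of hypotheses except for the subdivision move. -/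

namespace Pool.Agent.MP_df844f_gt.S2All

open WAll

theorem closA : ClosS := clos
theorem wedgeA : WedgeS := wedge h1A
theorem wedge2A : Wedge2S := wedge2 h1A
theorem attA : AttS := att factA
theorem hA : HS := hS
theorem shortA : ShortS := short hS gcvxA hullA ballA
theorem m1A : M1S := m1
theorem m2A : M2S := m2
theorem beadDegA : BeadDegS := beadDeg m1 m2
theorem volA : VolS := volS
theorem lamA : LamS := lamS
theorem initA : InitS := init h1A
theorem cutW0 (sub : SubS) : CutWS := cutW sub closeDA dehnA
theorem push0 (sub : SubS) : PushS := push (cutW0 sub) shortA clos dehnA closeDA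

end Pool.Agent.MP_df844f_gt.S2All
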