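import Pool.Agent.MP_df844f_gt.Spec

/-! Row H, part 0: the prestate obtained by replacing pieces by gadgets, and the pull-back of
cochains. -/

namespace Pool.Agent.MP_df844f_gt

open PS

namespace HA

variable {B : Type} [MulAction W B] {o : B} {Y : PS B} (D : HData o Y)

abbrev Om' : Type := {x // D.comp x = none} ⊕ (Σ j, (D.Q j).Om)

abbrev A' : Type := {a // ¬ D.int a} ⊕ (Σ j, (D.Q j).A)

def nu (x : Y.Om) : Om' D :=
  match h : D.comp x with
  | none => .inl ⟨x, h⟩
  | some j => .inr ⟨j, D.ι j (D.pos x)⟩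

variable {D}

theorem nu_none {x : Y.Om} (h : D.comp x = none) : nu D x = .inl ⟨x, h⟩ := by
  unfold nu
  split
  · rfl
  · rename_i j k
    rw [h] at k
    cases k

theorem nu_some {x : Y.Om} {j : D.J} (h : D.comp x = some j) :
    nu D x = .inr ⟨j, D.ι j (D.pos x)⟩ := by
  unfold nu
  split
  · rename_i k
    rw [h] at k
    cases k
  · rename_i j' k
    rw [h] at k
    cases k
    rfl

variable (D)

def f' : Om' D → B
  | .inl x => Y.f x.1
  | .inr p => (D.Q p.1).f p.2 • o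

variable {D}

theorem kept_none {x : Y.Om} (h : D.comp x = none) : D.Kept x := fun j k => by
  rw [h] at k; cases k

theorem f_nu {x : Y.Om} (h : D.Kept x) : f' D (nu D x) = Y.f x := by
  rcases k : D.comp x with _ | j
  · rw [nu_none k]; rfl
  · rw [nu_some k]
    show (D.Q j).f (D.ι j (D.pos x)) • o = _
    rw [(D.gad j).f_ι _ (h j k), D.pos_f x j k]

theorem kept_near {x y : Y.Om} (hy : D.comp y = none) (h : Y.Near 2 x y) : D.Kept x :=
  fun j k => D.kept_near x y j k hy h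

theorem kept_edge {s : S} {x y : Y.Om} (he : Y.e s x y) (h : D.comp x = none ∨ D.comp y = none) :
    D.Kept x ∧ D.Kept y := by
  rcases h with h | h
  · exact ⟨kept_none h, kept_near h ((Near.single (Y.e_symm he)).mono (by omega))⟩
  · exact ⟨kept_near h ((Near.single he).mono (by omega)), kept_none h⟩

theorem not_int_rev {a : Y.A} (h : ¬ D.int a) : ¬ D.int (Y.rev a) := fun k =>
  h (Y.rev_rev a ▸ D.int_rev _ k)

theorem kept_src {a : Y.A} (h : ¬ D.int a) : D.Kept (Y.src a) := fun j k => D.kept_src a j h k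

variable (D)

def e' (s : S) (u v : Om' D) : Prop :=
  (∃ x y, Y.e s x y ∧ (D.comp x = none ∨ D.comp y = none) ∧ u = nu D x ∧ v = nu D y) ∨
    ∃ j q q', (D.Q j).e s q q' ∧ u = .inr ⟨j, q⟩ ∧ v = .inr ⟨j, q'⟩

def rev' : A' D → A' D
  | .inl a => .inl ⟨Y.rev a.1, not_int_rev a.2⟩
  | .inr p => .inr ⟨p.1, (D.Q p.1).rev p.2⟩

def src' : A' D → Om' D
  | .inl a => nu D (Y.src a.1)
  | .inr p => .inr ⟨p.1, (D.Q p.1).src p.2⟩

def lab' : A' D → W
  | .inl a => Y.lab a.1
  | .inr p => (D.Q p.1).lab p.2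

/-- The new prestate. -/
def Y' : PS B where
  Om := Om' D
  A := A' D
  f := f' D
  e := e' D
  e_symm := by
    rintro s u v (⟨x, y, h1, h2, h3, h4⟩ | ⟨j, q, q', h1, h2, h3⟩)
    · exact Or.inl ⟨y, x, Y.e_symm h1, h2.symm, h4, h3⟩
    · exact Or.inr ⟨j, q', q, (D.Q j).e_symm h1, h3, h2⟩
  e_f := by
    rintro s u v (⟨x, y, h1, h2, rfl, rfl⟩ | ⟨j, q, q', h1, rfl, rfl⟩)
    · rw [f_nu (kept_edge h1 h2).1, f_nu (kept_edge h1 h2).2, Y.e_f h1]
    · show (D.Q j).f q' • o = g s • (D.Q j).f q • o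
      rw [(D.Q j).e_f h1, smul_eq_mul, mul_smul]
  rev := rev' D
  rev_rev := by
    rintro (a | ⟨j, a⟩)
    · exact congrArg Sum.inl (Subtype.ext (Y.rev_rev a.1))
    · show Sum.inr (⟨j, (D.Q j).rev ((D.Q j).rev a)⟩ : Σ j, (D.Q j).A) = _
      rw [(D.Q j).rev_rev]
  rev_ne := by
    rintro (a | ⟨j, a⟩) h
    · exact Y.rev_ne a.1 (congrArg Subtype.val (Sum.inl.inj h))
    · exact (D.Q j).rev_ne a (eq_of_heq (Sigma.mk.inj (Sum.inr.inj h)).2)
  src := src' D
  lab := lab' D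
  lab_rev := by
    rintro (a | ⟨j, a⟩)
    · exact Y.lab_rev a.1
    · exact (D.Q j).lab_rev a
  f_rev := by
    rintro (a | ⟨j, a⟩)
    · show f' D (nu D (Y.src (Y.rev a.1))) = Y.lab a.1 • f' D (nu D (Y.src a.1))
      rw [f_nu (kept_src a.2), f_nu (kept_src (not_int_rev a.2)), Y.f_rev]
    · show (D.Q j).f ((D.Q j).src ((D.Q j).rev a)) • o =
        (D.Q j).lab a • (D.Q j).f ((D.Q j).src a) • o
      rw [(D.Q j).f_rev, smul_eq_mul, mul_smul]

/-- A chamber of a gadget in the new prestate. -/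
def inQ (j : D.J) (q : (D.Q j).Om) : (Y' D).Om := .inr ⟨j, q⟩

/-- A dart of a gadget in the new prestate. -/
def inA (j : D.J) (a : (D.Q j).A) : (Y' D).A := .inr ⟨j, a⟩

/-- A surviving dart. -/
def outA (a : Y.A) (h : ¬ D.int a) : (Y' D).A := .inl ⟨a, h⟩

variable {D}

theorem e_inQ {j : D.J} {s : S} {q q' : (D.Q j).Om} (h : (D.Q j).e s q q') :
    (Y' D).e s (inQ D j q) (inQ D j q') := Or.inr ⟨j, q, q', h, rfl, rfl⟩

theorem e_out {s : S} {x y : Y.Om} (he : Y.e s x y) (h : D.comp x = none ∨ D.comp y = none) :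
    (Y' D).e s (nu D x) (nu D y) := Or.inl ⟨x, y, he, h, rfl, rfl⟩

section
variable {E : Type} [MulAction W E]

/-- Restriction of a cochain to a lift of a gadget. -/
def res (c : (Y' D).Coch E) (j : D.J) (ε : E) : (D.Q j).Coch Unit
  | .edge s q q' => fun _ => c (.edge s (inQ D j q) (inQ D j q')) ((D.Q j).f q • ε)
  | .dart a => fun _ => c (.dart (inA D j a)) ((D.Q j).f ((D.Q j).src a) • ε)

theorem res_cocyc {c : (Y' D).Coch E} (hc : Cocyc c) (j : D.J) (ε : E) : Cocyc (res c j ε) where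
  symm s x y _ h := by
    show c (.edge s (inQ D j y) (inQ D j x)) ((D.Q j).f y • ε) =
      c (.edge s (inQ D j x) (inQ D j y)) ((D.Q j).f x • ε)
    rw [(D.Q j).e_f h, smul_eq_mul, mul_smul]
    exact hc.symm s _ _ _ (e_inQ h)
  dsym a _ := by
    show c (.dart (inA D j ((D.Q j).rev a))) ((D.Q j).f ((D.Q j).src ((D.Q j).rev a)) • ε) =
      c (.dart (inA D j a)) ((D.Q j).f ((D.Q j).src a) • ε)
    rw [(D.Q j).f_rev, smul_eq_mul, mul_smul]
    exact hc.dsym (inA D j a) _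
  sq s t x0 x1 x2 x3 _ h a1 a2 a3 a4 := by
    show c (.edge s (inQ D j x0) (inQ D j x1)) ((D.Q j).f x0 • ε) +
      c (.edge t (inQ D j x1) (inQ D j x2)) ((D.Q j).f x1 • ε) +
      c (.edge s (inQ D j x2) (inQ D j x3)) ((D.Q j).f x2 • ε) +
      c (.edge t (inQ D j x3) (inQ D j x0)) ((D.Q j).f x3 • ε) = 0
    rw [(D.Q j).e_f a3, (D.Q j).e_f a2, (D.Q j).e_f a1]
    simp only [smul_eq_mul, mul_smul]
    exact hc.sq s t _ _ _ _ _ h (e_inQ a1) (e_inQ a2) (e_inQ a3) (e_inQ a4)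

open Classical in
/-- The potential on a lift of a gadget. -/
noncomputable def Phi (c : (Y' D).Coch E) (j : D.J) (ε : E) (q : (D.Q j).Om) : F2 :=
  if h : Cobd (res c j ε) then Classical.choose h q () else 0

theorem Phi_ed {c : (Y' D).Coch E} (hc : Cocyc c) {j : D.J} (ε : E) {s : S} {q q' : (D.Q j).Om}
    (h : (D.Q j).e s q q') : c (.edge s (inQ D j q) (inQ D j q')) ((D.Q j).f q • ε) =
      Phi c j ε q + Phi c j ε q' := by
  have h1 := (D.gad j).h1 _ (res_cocyc hc j ε)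
  unfold Phi
  rw [dif_pos h1, dif_pos h1]
  exact (Classical.choose_spec h1).ed s q q' () h

theorem Phi_da {c : (Y' D).Coch E} (hc : Cocyc c) {j : D.J} (ε : E) (a : (D.Q j).A) :
    c (.dart (inA D j a)) ((D.Q j).f ((D.Q j).src a) • ε) =
      Phi c j ε ((D.Q j).src a) + Phi c j ε ((D.Q j).src ((D.Q j).rev a)) := by
  have h1 := (D.gad j).h1 _ (res_cocyc hc j ε)
  unfold Phi
  rw [dif_pos h1, dif_pos h1]
  exact (Classical.choose_spec h1).da a ()

/-- The potential on the pieces. -/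
noncomputable def psi (c : (Y' D).Coch E) (z : Y.Om) (ε : E) : F2 :=
  match D.comp z with
  | none => 0
  | some j => Phi c j ((D.pos z)⁻¹ • ε) (D.ι j (D.pos z))

theorem psi_some (c : (Y' D).Coch E) {z : Y.Om} {j : D.J} (h : D.comp z = some j) (ε : E) :
    psi c z ε = Phi c j ((D.pos z)⁻¹ • ε) (D.ι j (D.pos z)) := by
  unfold psi; rw [h]

open Classical in
/-- The pull-back of cochains. -/
noncomputable def pull (c : (Y' D).Coch E) : Y.Coch E
  | .edge s x y => fun ε =>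
      if D.comp x ≠ none ∧ D.comp y ≠ none then psi c x ε + psi c y (g s • ε)
      else c (.edge s (nu D x) (nu D y)) ε
  | .dart a => fun ε =>
      if h : D.int a then psi c (Y.src a) ε + psi c (Y.src (Y.rev a)) (Y.lab a • ε)
      else c (.dart (outA D a h)) ε

theorem pull_in (c : (Y' D).Coch E) (s : S) {x y : Y.Om} (h : D.comp x ≠ none ∧ D.comp y ≠ none)
    (ε : E) : pull c (.edge s x y) ε = psi c x ε + psi c y (g s • ε) := if_pos h

theorem pull_out (c : (Y' D).Coch E) (s : S) {x y : Y.Om}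
    (h : D.comp x = none ∨ D.comp y = none) (ε : E) :
    pull c (.edge s x y) ε = c (.edge s (nu D x) (nu D y)) ε := if_neg (by tauto)

theorem pull_int (c : (Y' D).Coch E) {a : Y.A} (h : D.int a) (ε : E) :
    pull c (.dart a) ε = psi c (Y.src a) ε + psi c (Y.src (Y.rev a)) (Y.lab a • ε) := dif_pos h

theorem pull_ext (c : (Y' D).Coch E) {a : Y.A} (h : ¬ D.int a) (ε : E) :
    pull c (.dart a) ε = c (.dart (outA D a h)) ε := dif_neg h

end

/-- An edge has an outside end or lies in one piece. -/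
theorem edge_cases {s : S} {x y : Y.Om} (he : Y.e s x y) :
    (D.comp x = none ∨ D.comp y = none) ∨
      ∃ j, D.comp x = some j ∧ D.comp y = some j ∧ D.pos y = g s * D.pos x := by
  rcases hx : D.comp x with _ | j
  · exact Or.inl (Or.inl rfl)
  rcases hy : D.comp y with _ | j'
  · exact Or.inl (Or.inr rfl)
  obtain ⟨rfl, h⟩ := D.e_in s x y j j' he hx hy
  exact Or.inr ⟨j, rfl, rfl, h⟩

theorem ne_none {x : Y.Om} {j : D.J} (h : D.comp x = some j) : D.comp x ≠ none := by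
  rw [h]; exact Option.some_ne_none j

/-- Edges between kept chambers survive with the same value. -/
theorem kept_both {s : S} {x y : Y.Om} (he : Y.e s x y) (hx : D.Kept x) (hy : D.Kept y) :
    (Y' D).e s (nu D x) (nu D y) ∧ ∀ (E : Type) [MulAction W E] (c : (Y' D).Coch E) (ε : E),
      Cocyc c → pull c (.edge s x y) ε = c (.edge s (nu D x) (nu D y)) ε := by
  rcases edge_cases (D := D) he with h | ⟨j, h1, h2, h3⟩
  · exact ⟨e_out he h, fun E _ c ε _ => pull_out c s h ε⟩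
  · have e1 : (D.Q j).e s (D.ι j (D.pos x)) (D.ι j (D.pos y)) := by
      rw [h3]; exact (D.gad j).e_ι _ (hx j h1) s (h3 ▸ hy j h2)
    rw [nu_some h1, nu_some h2]
    refine ⟨e_inQ e1, fun E _ c ε hc => ?_⟩
    have e2 := Phi_ed hc ((D.pos x)⁻¹ • ε) e1
    rw [(D.gad j).f_ι _ (hx j h1), smul_inv_smul] at e2
    have e3 : (D.pos y)⁻¹ • g s • ε = (D.pos x)⁻¹ • ε := by
      rw [h3, mul_inv_rev, mul_smul, inv_smul_smul]
    rw [pull_in c s ⟨ne_none h1, ne_none h2⟩, psi_some c h1, psi_some c h2, e3]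
    exact e2.symm

end HA

end Pool.Agent.MP_df844f_gt
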