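import Pool.Agent.MP_df844f_gt.Spec

/-! The move H: construction of the new prestate and of the pull-back of cochains. -/

namespace Pool.Agent.MP_df844f_gt

open PS

namespace HMv

/-- Position at which a label of a prestate over `W` starts. -/
def startW (Q : PS W) : Q.Lbl → W
  | .edge _ x _ => Q.f x
  | .dart a => Q.f (Q.src a)

/-- Over `W`, vanishing cohomology downstairs gives vanishing cohomology over every `W`-set. -/
theorem cobd_all {Q : PS W} (h1 : ∀ c : Q.Coch Unit, Cocyc c → Cobd c) {E : Type} [MulAction W E]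
    (c : Q.Coch E) (hc : Cocyc c) : Cobd c := by
  have key : ∀ ε0 : E, Cobd (fun l _ => c l (startW Q l • ε0) : Q.Coch Unit) := by
    intro ε0
    refine h1 _ ⟨fun s x y _ h => ?_, fun a _ => ?_, fun s t x0 x1 x2 x3 _ h a b e f => ?_⟩
    · show c _ (Q.f y • ε0) = c _ (Q.f x • ε0)
      rw [Q.e_f h, smul_eq_mul, mul_smul, hc.symm s x y _ h]
    · show c _ (Q.f (Q.src (Q.rev a)) • ε0) = c _ (Q.f (Q.src a) • ε0)
      rw [Q.f_rev, smul_eq_mul, mul_smul, hc.dsym]
    · show c _ (Q.f x0 • ε0) + c _ (Q.f x1 • ε0) + c _ (Q.f x2 • ε0) + c _ (Q.f x3 • ε0) = 0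
      rw [Q.e_f e, Q.e_f b, Q.e_f a]
      simp only [smul_eq_mul, mul_smul]
      exact hc.sq s t x0 x1 x2 x3 _ h a b e f
  choose φ hφ using key
  refine ⟨fun q ε => φ ((Q.f q)⁻¹ • ε) q (), fun s x y ε h => ?_, fun a ε => ?_⟩
  · have := (hφ ((Q.f x)⁻¹ • ε)).ed s x y () h
    simp only [startW, smul_inv_smul] at this
    have e : (Q.f y)⁻¹ • g s • ε = (Q.f x)⁻¹ • ε := by
      rw [Q.e_f h, smul_eq_mul, mul_inv_rev, mul_smul, inv_smul_smul]
    show _ = φ _ x () + φ ((Q.f y)⁻¹ • g s • ε) y ()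
    rw [e]; exact this
  · have := (hφ ((Q.f (Q.src a))⁻¹ • ε)).da a ()
    simp only [startW, smul_inv_smul] at this
    have e : (Q.f (Q.src (Q.rev a)))⁻¹ • Q.lab a • ε = (Q.f (Q.src a))⁻¹ • ε := by
      rw [Q.f_rev, smul_eq_mul, mul_inv_rev, mul_smul, inv_smul_smul]
    show _ = φ _ (Q.src a) () + φ ((Q.f (Q.src (Q.rev a)))⁻¹ • Q.lab a • ε) (Q.src (Q.rev a)) ()
    rw [e]; exact this

variable {B : Type} [MulAction W B] {o : B} {Y : PS B} (D : HData o Y)

abbrev Om' : Type := {x : Y.Om // D.comp x = none} ⊕ (Σ j : D.J, (D.Q j).Om)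

abbrev A' : Type := {a : Y.A // ¬ D.int a} ⊕ (Σ j : D.J, (D.Q j).A)

open Classical in
noncomputable def nu (x : Y.Om) : Om' D :=
  if h : D.comp x = none then Sum.inl ⟨x, h⟩
  else (fun j => Sum.inr ⟨j, D.ι j (D.pos x)⟩) ((D.comp x).get (Option.ne_none_iff_isSome.1 h))

theorem nu_none {x : Y.Om} (h : D.comp x = none) : nu D x = Sum.inl ⟨x, h⟩ := dif_pos h

theorem nu_some {x : Y.Om} {j : D.J} (h : D.comp x = some j) :
    nu D x = Sum.inr ⟨j, D.ι j (D.pos x)⟩ := by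
  have h' : ¬ D.comp x = none := by rw [h]; simp
  unfold nu
  rw [dif_neg h']
  have e : (D.comp x).get (Option.ne_none_iff_isSome.1 h') = j := by simp [h]
  exact congrArg (fun j => (Sum.inr ⟨j, D.ι j (D.pos x)⟩ : Om' D)) e

def f' : Om' D → B := Sum.elim (fun x => Y.f x.1) fun q => (D.Q q.1).f q.2 • o

theorem f_nu {x : Y.Om} (hk : D.Kept x) : f' D (nu D x) = Y.f x := by
  rcases h : D.comp x with _ | j
  · rw [nu_none D h]; rfl
  · rw [nu_some D h]
    show (D.Q j).f _ • o = _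
    rw [(D.gad j).f_ι _ (hk j h), D.pos_f x j h]

theorem kept_near {z y : Y.Om} (hy : D.comp y = none) (h : Y.Near 2 z y) : D.Kept z :=
  fun j hz => D.kept_near z y j hz hy h

theorem kept_mix {s : S} {x y : Y.Om} (h : Y.e s x y) (k : D.comp x = none ∨ D.comp y = none) :
    D.Kept x ∧ D.Kept y := by
  rcases k with k | k
  · exact ⟨kept_near D k (Near.refl _ _), kept_near D k ((Near.single (Y.e_symm h)).mono (by omega))⟩
  · exact ⟨kept_near D k ((Near.single h).mono (by omega)), kept_near D k (Near.refl _ _)⟩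

theorem kept_src {a : Y.A} (h : ¬ D.int a) : D.Kept (Y.src a) := fun j hj => D.kept_src a j h hj

theorem not_int_rev {a : Y.A} (h : ¬ D.int a) : ¬ D.int (Y.rev a) := fun k => by
  have := D.int_rev _ k
  rw [Y.rev_rev] at this
  exact h this

def e' (s : S) (p q : Om' D) : Prop :=
  (∃ x y, Y.e s x y ∧ (D.comp x = none ∨ D.comp y = none) ∧ p = nu D x ∧ q = nu D y) ∨
    ∃ j u v, (D.Q j).e s u v ∧ p = Sum.inr ⟨j, u⟩ ∧ q = Sum.inr ⟨j, v⟩

def rev' : A' D → A' D :=
  Sum.map (fun a => ⟨Y.rev a.1, not_int_rev D a.2⟩) fun q => ⟨q.1, (D.Q q.1).rev q.2⟩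

noncomputable def src' : A' D → Om' D :=
  Sum.elim (fun a => nu D (Y.src a.1)) fun q => Sum.inr ⟨q.1, (D.Q q.1).src q.2⟩

def lab' : A' D → W := Sum.elim (fun a => Y.lab a.1) fun q => (D.Q q.1).lab q.2

/-- The new prestate. -/
noncomputable def Y' : PS B where
  Om := Om' D
  A := A' D
  f := f' D
  e := e' D
  e_symm := by
    rintro s p q (⟨x, y, h, k, a, b⟩ | ⟨j, u, v, h, a, b⟩)
    · exact Or.inl ⟨y, x, Y.e_symm h, k.symm, b, a⟩
    · exact Or.inr ⟨j, v, u, (D.Q j).e_symm h, b, a⟩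
  e_f := by
    rintro s p q (⟨x, y, h, k, rfl, rfl⟩ | ⟨j, u, v, h, rfl, rfl⟩)
    · rw [f_nu D (kept_mix D h k).1, f_nu D (kept_mix D h k).2, Y.e_f h]
    · show (D.Q j).f v • o = g s • (D.Q j).f u • o
      rw [(D.Q j).e_f h, smul_eq_mul, mul_smul]
  rev := rev' D
  rev_rev := by
    rintro (⟨a, h⟩ | ⟨j, a⟩)
    · exact congrArg Sum.inl (Subtype.ext (Y.rev_rev a))
    · exact congrArg (fun a => (Sum.inr ⟨j, a⟩ : A' D)) ((D.Q j).rev_rev a)
  rev_ne := by
    rintro (⟨a, h⟩ | ⟨j, a⟩) k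
    · exact Y.rev_ne a (congrArg Subtype.val (Sum.inl.inj k))
    · exact (D.Q j).rev_ne a (eq_of_heq (Sigma.mk.inj (Sum.inr.inj k)).2)
  src := src' D
  lab := lab' D
  lab_rev := by
    rintro (⟨a, h⟩ | ⟨j, a⟩)
    · exact Y.lab_rev a
    · exact (D.Q j).lab_rev a
  f_rev := by
    rintro (⟨a, h⟩ | ⟨j, a⟩)
    · show f' D (nu D (Y.src (Y.rev a))) = Y.lab a • f' D (nu D (Y.src a))
      rw [f_nu D (kept_src D h), f_nu D (kept_src D (not_int_rev D h)), Y.f_rev]
    · show (D.Q j).f ((D.Q j).src ((D.Q j).rev a)) • o =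
        (D.Q j).lab a • (D.Q j).f ((D.Q j).src a) • o
      rw [(D.Q j).f_rev, smul_eq_mul, mul_smul]

/-- Labels of a gadget inside the new prestate. -/
def emb (j : D.J) : (D.Q j).Lbl → (Y' D).Lbl
  | .edge s u v => .edge s (Sum.inr ⟨j, u⟩) (Sum.inr ⟨j, v⟩)
  | .dart a => .dart (Sum.inr ⟨j, a⟩)

def embP (j : D.J) (ch : (D.Q j).Path) : (Y' D).Path := ch.map fun lw => (emb D j lw.1, lw.2)

theorem e_emb {j : D.J} {s : S} {u v : (D.Q j).Om} (h : (D.Q j).e s u v) :
    (Y' D).e s (Sum.inr ⟨j, u⟩) (Sum.inr ⟨j, v⟩) := Or.inr ⟨j, u, v, h, rfl, rfl⟩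

theorem tw_emb {j : D.J} {n m : (D.Q j).Node} {l : ℕ} {ch : (D.Q j).Path}
    (h : (D.Q j).TW tt n m l ch) :
    (Y' D).TW tt ⟨Sum.inr ⟨j, n.x⟩, n.w, n.p⟩ ⟨Sum.inr ⟨j, m.x⟩, m.w, m.p⟩ l (embP D j ch) := by
  induction h with
  | nil n a b => exact TW.nil _ a b
  | @edge n n' m _ _ s a b c e _ ih =>
    exact TW.edge (Y := Y' D) (n := ⟨Sum.inr ⟨j, n.x⟩, n.w, n.p⟩) s a b (e_emb D c) e ih
  | @dart n n' m _ _ s a b c e f _ ih =>
    exact TW.dart (Y := Y' D) (n := ⟨Sum.inr ⟨j, n.x⟩, n.w, n.p⟩) (Sum.inr ⟨j, s⟩) a b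
      (congrArg (fun u => (Sum.inr ⟨j, u⟩ : Om' D)) c)
      (congrArg (fun u => (Sum.inr ⟨j, u⟩ : Om' D)) e) f ih
  | @stay n n' m _ _ a b c e _ ih =>
    exact TW.stay (Y := Y' D) (n := ⟨Sum.inr ⟨j, n.x⟩, n.w, n.p⟩) a b
      (congrArg (fun u => (Sum.inr ⟨j, u⟩ : Om' D)) c) e ih

section coch

variable {E : Type} [MulAction W E]

def res (j : D.J) (c : (Y' D).Coch E) : (D.Q j).Coch E := fun l => c (emb D j l)

theorem ev_embP (j : D.J) (c : (Y' D).Coch E) (ch : (D.Q j).Path) (ε : E) :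
    ev c (embP D j ch) ε = ev (res D j c) ch ε := by
  simp [ev, embP, res, Function.comp_def]

theorem cocyc_res (j : D.J) {c : (Y' D).Coch E} (hc : Cocyc c) : Cocyc (res D j c) where
  symm s x y ε h := hc.symm s _ _ ε (e_emb D h)
  dsym a ε := hc.dsym (Sum.inr ⟨j, a⟩) ε
  sq s t x0 x1 x2 x3 ε h a b e f :=
    hc.sq s t _ _ _ _ ε h (e_emb D a) (e_emb D b) (e_emb D e) (e_emb D f)

open Classical in
noncomputable def Phi (j : D.J) (c : (Y' D).Coch E) : (D.Q j).Om → E → F2 :=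
  if h : Cobd (res D j c) then Classical.choose h else 0

theorem Phi_spec (j : D.J) {c : (Y' D).Coch E} (hc : Cocyc c) : IsD (res D j c) (Phi D j c) := by
  have h : Cobd (res D j c) := cobd_all (D.gad j).h1 _ (cocyc_res D j hc)
  unfold Phi
  rw [dif_pos h]
  exact Classical.choose_spec h

noncomputable def Psi (c : (Y' D).Coch E) (z : Y.Om) : E → F2 :=
  Sum.elim (fun _ _ => 0) (fun q => Phi D q.1 c q.2) (nu D z)

theorem Psi_some (c : (Y' D).Coch E) {z : Y.Om} {j : D.J} (h : D.comp z = some j) :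
    Psi D c z = Phi D j c (D.ι j (D.pos z)) := by
  unfold Psi; rw [nu_some D h]; rfl

open Classical in
noncomputable def pull (c : (Y' D).Coch E) : Y.Coch E
  | .edge s x y => fun ε =>
    if D.comp x ≠ none ∧ D.comp y ≠ none then Psi D c x ε + Psi D c y (g s • ε)
    else c (.edge s (nu D x) (nu D y)) ε
  | .dart a => fun ε =>
    if h : D.int a then Psi D c (Y.src a) ε + Psi D c (Y.src (Y.rev a)) (Y.lab a • ε)
    else c (.dart (Sum.inl ⟨a, h⟩)) ε

theorem pull_edge_in (c : (Y' D).Coch E) (s : S) {x y : Y.Om} (hx : D.comp x ≠ none)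
    (hy : D.comp y ≠ none) (ε : E) :
    pull D c (.edge s x y) ε = Psi D c x ε + Psi D c y (g s • ε) := if_pos ⟨hx, hy⟩

theorem pull_edge_out (c : (Y' D).Coch E) (s : S) {x y : Y.Om}
    (h : D.comp x = none ∨ D.comp y = none) (ε : E) :
    pull D c (.edge s x y) ε = c (.edge s (nu D x) (nu D y)) ε := if_neg (by tauto)

theorem pull_dart_in (c : (Y' D).Coch E) {a : Y.A} (h : D.int a) (ε : E) :
    pull D c (.dart a) ε =
      Psi D c (Y.src a) ε + Psi D c (Y.src (Y.rev a)) (Y.lab a • ε) := dif_pos h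

theorem pull_dart_out (c : (Y' D).Coch E) {a : Y.A} (h : ¬ D.int a) (ε : E) :
    pull D c (.dart a) ε = c (.dart (Sum.inl ⟨a, h⟩)) ε := dif_neg h

theorem e_out {s : S} {x y : Y.Om} (h : Y.e s x y) (k : D.comp x = none ∨ D.comp y = none) :
    (Y' D).e s (nu D x) (nu D y) := Or.inl ⟨x, y, h, k, rfl, rfl⟩

theorem edge_kept {c : (Y' D).Coch E} (hc : Cocyc c) {s : S} {x y : Y.Om} (h : Y.e s x y)
    (hx : D.Kept x) (hy : D.Kept y) : (Y' D).e s (nu D x) (nu D y) ∧
      ∀ ε, pull D c (.edge s x y) ε = c (.edge s (nu D x) (nu D y)) ε := by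
  by_cases k : D.comp x = none ∨ D.comp y = none
  · exact ⟨e_out D h k, pull_edge_out D c s k⟩
  · push Not at k
    obtain ⟨j, hj⟩ := Option.ne_none_iff_exists'.1 k.1
    obtain ⟨j', hj'⟩ := Option.ne_none_iff_exists'.1 k.2
    obtain ⟨rfl, hp⟩ := D.e_in s x y j j' h hj hj'
    have he : (D.Q j).e s (D.ι j (D.pos x)) (D.ι j (D.pos y)) := by
      rw [hp]
      exact (D.gad j).e_ι _ (hx j hj) s (hp ▸ hy j hj')
    refine ⟨by rw [nu_some D hj, nu_some D hj']; exact e_emb D he, fun ε => ?_⟩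
    rw [pull_edge_in D c s k.1 k.2, Psi_some D c hj, Psi_some D c hj', nu_some D hj, nu_some D hj']
    exact ((Phi_spec D j hc).ed s _ _ ε he).symm

theorem sq_smul {s t : S} (h : adj s t) (ε : E) : g t • g s • g t • g s • ε = ε := by
  simp only [← mul_smul]
  rw [← mul_assoc (g s), g_comm h, mul_assoc, g_mul_self, mul_one, g_mul_self, one_smul]

theorem cocyc_pull {c : (Y' D).Coch E} (hc : Cocyc c) : Cocyc (pull D c) where
  symm s x y ε h := by
    by_cases k : D.comp x = none ∨ D.comp y = none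
    · rw [pull_edge_out D c s k, pull_edge_out D c s k.symm]
      exact hc.symm s _ _ ε (e_out D h k)
    · push Not at k
      rw [pull_edge_in D c s k.1 k.2, pull_edge_in D c s k.2 k.1, ← mul_smul, g_mul_self, one_smul,
        add_comm]
  dsym a ε := by
    by_cases k : D.int a
    · rw [pull_dart_in D c k, pull_dart_in D c (D.int_rev a k), Y.rev_rev, Y.lab_rev,
        inv_smul_smul, add_comm]
    · rw [pull_dart_out D c k, pull_dart_out D c (not_int_rev D k)]
      exact hc.dsym (Sum.inl ⟨a, k⟩) ε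
  sq s t x0 x1 x2 x3 ε h a b e f := by
    by_cases k : D.comp x0 ≠ none ∧ D.comp x1 ≠ none ∧ D.comp x2 ≠ none ∧ D.comp x3 ≠ none
    · obtain ⟨k0, k1, k2, k3⟩ := k
      rw [pull_edge_in D c s k0 k1, pull_edge_in D c t k1 k2, pull_edge_in D c s k2 k3,
        pull_edge_in D c t k3 k0, sq_smul h]
      generalize Psi D c x0 ε = u0
      generalize Psi D c x1 _ = u1
      generalize Psi D c x2 _ = u2
      generalize Psi D c x3 _ = u3
      revert u0 u1 u2 u3; decide
    · have n01 := Near.single a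
      have n12 := Near.single b
      have n23 := Near.single e
      have n30 := Near.single f
      have kk : D.Kept x0 ∧ D.Kept x1 ∧ D.Kept x2 ∧ D.Kept x3 := by
        by_cases k0 : D.comp x0 = none
        · exact ⟨kept_near D k0 (Near.refl _ _), kept_near D k0 (n01.symm.mono (by omega)),
            kept_near D k0 (n23.trans n30), kept_near D k0 (n30.mono (by omega))⟩
        by_cases k1 : D.comp x1 = none
        · exact ⟨kept_near D k1 (n01.mono (by omega)), kept_near D k1 (Near.refl _ _),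
            kept_near D k1 (n12.symm.mono (by omega)), kept_near D k1 (n30.trans n01)⟩
        by_cases k2 : D.comp x2 = none
        · exact ⟨kept_near D k2 (n01.trans n12), kept_near D k2 (n12.mono (by omega)),
            kept_near D k2 (Near.refl _ _), kept_near D k2 (n23.symm.mono (by omega))⟩
        have k3 : D.comp x3 = none := by tauto
        exact ⟨kept_near D k3 (n30.symm.mono (by omega)), kept_near D k3 (n12.trans n23),
          kept_near D k3 (n23.mono (by omega)), kept_near D k3 (Near.refl _ _)⟩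
      obtain ⟨k0, k1, k2, k3⟩ := kk
      obtain ⟨a1, a2⟩ := edge_kept D hc a k0 k1
      obtain ⟨b1, b2⟩ := edge_kept D hc b k1 k2
      obtain ⟨e1, e2⟩ := edge_kept D hc e k2 k3
      obtain ⟨f1, f2⟩ := edge_kept D hc f k3 k0
      rw [a2, b2, e2, f2]
      exact hc.sq s t _ _ _ _ ε h a1 b1 e1 f1

theorem refl_pull {c : (Y' D).Coch E} (hc : Cocyc c) (h : Cobd (pull D c)) : Cobd c := by
  obtain ⟨ψ, hψ⟩ := h
  have swap : ∀ a b u v : F2, a + b = u + v → v + b = u + a := by decide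
  have h1 : ∀ j, ∃ θ : E → F2, ∀ z, D.comp z = some j → ∀ ε0,
      ψ z (D.pos z • ε0) + Psi D c z (D.pos z • ε0) = θ ε0 := by
    intro j
    obtain ⟨z0, _, hz⟩ := D.conn j
    refine ⟨fun ε0 => ψ z0 (D.pos z0 • ε0) + Psi D c z0 (D.pos z0 • ε0), fun z hj ε0 => ?_⟩
    have := hz z hj
    clear hj
    induction this with
    | refl => rfl
    | @tail u v _ k ih =>
      obtain ⟨hu, hv, ⟨s, k⟩ | ⟨a, ha, rfl, rfl⟩⟩ := k
      · have e1 := hψ.ed s u v (D.pos u • ε0) k
        rw [pull_edge_in D c s (by rw [hu]; simp) (by rw [hv]; simp)] at e1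
        rw [← ih, (D.e_in s u v j j k hu hv).2, mul_smul]
        exact swap _ _ _ _ e1
      · have e1 := hψ.da a (D.pos (Y.src a) • ε0)
        rw [pull_dart_in D c ha] at e1
        obtain ⟨_, _, _, hp⟩ := D.int_in a ha
        rw [← ih, hp, mul_smul]
        exact swap _ _ _ _ e1
  choose θ hθ using h1
  let ψ' : Om' D → E → F2 := Sum.elim (fun x => ψ x.1)
    fun q ε => Phi D q.1 c q.2 ε + θ q.1 (((D.Q q.1).f q.2)⁻¹ • ε)
  have hk : ∀ z, D.Kept z → ∀ ε, ψ' (nu D z) ε = ψ z ε := by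
    intro z hz ε
    rcases h : D.comp z with _ | j
    · rw [nu_none D h]; rfl
    · rw [nu_some D h]
      show Phi D j c _ ε + θ j (((D.Q j).f _)⁻¹ • ε) = _
      rw [(D.gad j).f_ι _ (hz j h), ← hθ j z h, smul_inv_smul, Psi_some D c h, add_comm (ψ z ε),
        ← add_assoc, F2_add_self, zero_add]
  have four : ∀ a b u : F2, a + b = a + u + (b + u) := by decide
  refine ⟨ψ', ?_, ?_⟩
  · rintro s p q ε (⟨x, y, h, k, rfl, rfl⟩ | ⟨j, u, v, h, rfl, rfl⟩)
    · rw [hk x (kept_mix D h k).1, hk y (kept_mix D h k).2, ← pull_edge_out D c s k]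
      exact hψ.ed s x y ε h
    · have e1 := (Phi_spec D j hc).ed s u v ε h
      show c (emb D j (.edge s u v)) ε = Phi D j c u ε + θ j (((D.Q j).f u)⁻¹ • ε) +
        (Phi D j c v (g s • ε) + θ j (((D.Q j).f v)⁻¹ • g s • ε))
      rw [(D.Q j).e_f h, smul_eq_mul, mul_inv_rev, mul_smul, inv_smul_smul]
      exact e1.trans (four _ _ _)
  · rintro (⟨a, h⟩ | ⟨j, a⟩) ε
    · show _ = ψ' (nu D (Y.src a)) ε + ψ' (nu D (Y.src (Y.rev a))) (Y.lab a • ε)
      rw [hk _ (kept_src D h), hk _ (kept_src D (not_int_rev D h)), ← pull_dart_out D c h]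
      exact hψ.da a ε
    · have e1 := (Phi_spec D j hc).da a ε
      show c (emb D j (.dart a)) ε =
        Phi D j c ((D.Q j).src a) ε + θ j (((D.Q j).f ((D.Q j).src a))⁻¹ • ε) +
        (Phi D j c ((D.Q j).src ((D.Q j).rev a)) ((D.Q j).lab a • ε) +
          θ j (((D.Q j).f ((D.Q j).src ((D.Q j).rev a)))⁻¹ • (D.Q j).lab a • ε))
      rw [(D.Q j).f_rev, smul_eq_mul, mul_inv_rev, mul_smul, inv_smul_smul]
      exact e1.trans (four _ _ _)

end coch

end HMv

end Pool.Agent.MP_df844f_gt
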